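import Pool.Agent.Work.MP_8493f1_gt.H97CL

/-! Semispan bounds for continua without flips. -/

set_option autoImplicit false

namespace Pool.Agent.Work.MP_8493f1_gt

open Set Metric Filter Topology unitInterval

variable {X : Type*} [MetricSpace X]

theorem core (hN : HW X) {G : I × X → ℝ} (hG : Sepf G) {C : Set (X × X)} (hC : IsCompact C)
    (hC' : IsConnected C) (hn : Prod.snd '' C ⊆ Prod.fst '' C) :
    ∃ p ∈ C, ∃ t, G (t, p.1) = 0 ∧ G (t, p.2) = 0 := by
  have : CompactSpace C := isCompact_iff_compactSpace.1 hC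
  have : ConnectedSpace C := isConnected_iff_connectedSpace.1 hC'
  obtain ⟨K, k1, k2, k3, k4⟩ := exists_full_component (g := fun q : I × C => G (q.1, q.2.1.1))
    ⟨hG.1.comp (by fun_prop), fun z => hG.2.1 _, fun z => hG.2.2 _⟩
  have c1 : Continuous fun q : I × C => (q.2.1.1, (q.1 : ℝ)) := by fun_prop
  have c2 : Continuous fun q : I × C => (q.2.1.2, (q.1 : ℝ)) := by fun_prop
  obtain ⟨_, ⟨q, hq, rfl⟩, q', hq', e⟩ := meet hN (k1.image c1) (k2.image _ c1.continuousOn)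
    (k1.image c2) (k2.image _ c2.continuousOn) (by
      rintro _ ⟨_, ⟨q, -, rfl⟩, rfl⟩
      obtain ⟨p, hp, e⟩ := hn ⟨q.2.1, q.2.2, rfl⟩
      obtain ⟨q', hq', e'⟩ : (⟨p, hp⟩ : C) ∈ Prod.snd '' K := k4 ▸ mem_univ _
      exact ⟨_, ⟨q', hq', rfl⟩, by simp only [e', e]⟩) (by
      rintro _ ⟨_, ⟨q, hq, rfl⟩, rfl⟩
      exact ⟨_, ⟨q, hq, rfl⟩, rfl⟩)
  simp only [Prod.mk.injEq] at e
  refine ⟨q'.2.1, q'.2.2, q'.1, k3 q' hq', ?_⟩
  rw [e.1, Subtype.ext e.2]
  exact k3 q hq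

theorem core' [CompactSpace X] (hN : HW X) {G : I × X → ℝ} (hG : Sepf G) {a : ℝ}
    (ha : ∀ t x y, G (t, x) = 0 → G (t, y) = 0 → dist x y < a) {C : Set (X × X)}
    (hC : IsConnected C) (hn : Prod.snd '' C ⊆ Prod.fst '' C) : ∃ p ∈ C, dist p.1 p.2 < a := by
  by_contra hcon
  push Not at hcon
  obtain ⟨p, hp, t, h1, h2⟩ := core hN hG isClosed_closure.isCompact hC.closure
    ((image_closure_subset_closure_image continuous_snd).trans (closure_minimal
      (hn.trans (image_mono subset_closure))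
      (isClosed_closure.isCompact.image continuous_fst).isClosed))
  have hd : Continuous fun p : X × X => dist p.1 p.2 := by fun_prop
  exact absurd (ha t _ _ h1 h2) (not_lt.2 (closure_minimal (t := {p : X × X | a ≤ dist p.1 p.2})
    hcon (isClosed_le continuous_const hd) hp))

theorem sepf_of_closed {H L : Set (I × X)} (hH : IsClosed H) (hL : IsClosed L)
    (hd : Disjoint H L) (h0 : ∀ x, (0, x) ∈ H) (h1 : ∀ x, (1, x) ∈ L) :
    ∃ G : I × X → ℝ, Sepf G ∧ ∀ p, G p = 0 → p ∉ H ∧ p ∉ L := by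
  obtain ⟨φ, φ0, φ1, -⟩ := exists_continuous_zero_one_of_isClosed hH hL hd
  refine ⟨fun p => 2 * φ p - 1, ⟨by fun_prop, fun x => ?_, fun x => ?_⟩,
    fun p hp => ⟨fun h => ?_, fun h => ?_⟩⟩
  · simp only [φ0 (h0 x), Pi.zero_apply]; norm_num
  · simp only [φ1 (h1 x), Pi.one_apply]; norm_num
  · simp only [φ0 h, Pi.zero_apply] at hp; norm_num at hp
  · simp only [φ1 h, Pi.one_apply] at hp; norm_num at hp

/-- A continuum over the whole space with thin slices gives a thin separating function. -/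
theorem sepf_of_thin [CompactSpace X] (hN : HW X) {A : Set (X × ℝ)} (hA : IsCompact A)
    (hA' : IsConnected A) (hu : Prod.fst '' A = univ) {a : ℝ}
    (ha : ∀ p ∈ A, ∀ q ∈ A, p.2 = q.2 → dist p.1 q.1 < a) :
    ∃ G : I × X → ℝ, Sepf G ∧ ∀ t x y, G (t, x) = 0 → G (t, y) = 0 → dist x y < a := by
  obtain ⟨η, hη, hη1, hs⟩ : ∃ η > 0, η ≤ 1 ∧ ∀ p ∈ A, ∀ q ∈ A, |p.2 - q.2| < 2 * η →
      dist p.1 q.1 + 2 * η ≤ a := by
    have hc : Continuous fun z : (X × ℝ) × (X × ℝ) =>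
        max |z.1.2 - z.2.2| (a - dist z.1.1 z.2.1) := by fun_prop
    obtain ⟨z, hz, hm⟩ := (hA.prod hA).exists_isMinOn (hA'.nonempty.prod hA'.nonempty)
      hc.continuousOn
    have hpos : 0 < max |z.1.2 - z.2.2| (a - dist z.1.1 z.2.1) := by
      by_cases e : z.1.2 = z.2.2
      · exact lt_max_of_lt_right (sub_pos.2 (ha _ hz.1 _ hz.2 e))
      · exact lt_max_of_lt_left (abs_pos.2 (sub_ne_zero.2 e))
    refine ⟨min (max |z.1.2 - z.2.2| (a - dist z.1.1 z.2.1) / 2) 1, by positivity,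
      min_le_right _ _, fun p hp q hq h => ?_⟩
    have h1 := min_le_left (max |z.1.2 - z.2.2| (a - dist z.1.1 z.2.1) / 2) 1
    have h2 : max |z.1.2 - z.2.2| (a - dist z.1.1 z.2.1) ≤ max |p.2 - q.2| (a - dist p.1 q.1) :=
      hm (show (p, q) ∈ A ×ˢ A from ⟨hp, hq⟩)
    rcases le_max_iff.1 h2 with h3 | h3 <;> linarith
  obtain ⟨m, hm⟩ := (hA.image continuous_snd).isBounded.subset_closedBall 0
  have hm' : ∀ p ∈ A, |p.2| ≤ m := fun p hp => by simpa using hm ⟨p, hp, rfl⟩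
  obtain ⟨ψ, hψ⟩ : ∃ ψ : I × X → X × ℝ, ψ = fun p => (p.2, (2 * (p.1 : ℝ) - 1) * (m + 1)) :=
    ⟨_, rfl⟩
  have ψc : Continuous ψ := by rw [hψ]; fun_prop
  obtain ⟨E, hE⟩ : ∃ E : Set (I × X), E = {p | η ≤ infDist (ψ p) A} := ⟨_, rfl⟩
  have hEc : IsClosed E := hE ▸ isClosed_le continuous_const ((continuous_infDist_pt A).comp ψc)
  obtain ⟨δ, hδ, s, ℓ, l1, l2⟩ := exists_labels
    (F := fun b : Bool => {p : I × X | p.1 = if b then 1 else 0}) hEc.isCompact
    (fun b => isClosed_eq continuous_fst continuous_const) fun p hp => by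
      by_contra hn
      push Not at hn
      obtain ⟨c0, h0, e0⟩ := not_disjoint_iff.1 (hn false)
      obtain ⟨c1, h1, e1⟩ := not_disjoint_iff.1 (hn true)
      have hco := (isConnected_connectedComponentIn_iff.2 hp).image _ ψc.continuousOn
      obtain ⟨_, hz, c, hc, rfl⟩ := meet hN hA hA' ((compact_component hEc.isCompact hp).image ψc)
        hco (hu ▸ subset_univ _) (by
          rintro _ ⟨z, hz, rfl⟩
          have := abs_le.1 (hm' z hz)
          refine (hco.2.image _ continuous_snd.continuousOn).ordConnected.out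
            ⟨_, ⟨c0, h0, rfl⟩, rfl⟩ ⟨_, ⟨c1, h1, rfl⟩, rfl⟩ ⟨?_, ?_⟩
          · simp only [hψ, show c0.1 = 0 from e0, Icc.coe_zero]; linarith [this.1]
          · simp only [hψ, show c1.1 = 1 from e1, Icc.coe_one]; linarith [this.2])
      have := connectedComponentIn_subset E p hc
      rw [hE, mem_ofPred_eq, infDist_zero_of_mem hz] at this
      linarith
  have hsub := self_subset_thickening hδ E
  have l3 : ∀ x ∈ thickening δ E, ∀ y ∈ thickening δ E, dist x y ≤ δ →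
      (∃ z ∈ E, ℓ z = ℓ x ∧ z.1 = 0) = ∃ z ∈ E, ℓ z = ℓ y ∧ z.1 = 0 := fun x hx y hy h => by
    rw [l1 x hx y hy h]
  have hend : ∀ (t : I) x, |2 * (t : ℝ) - 1| = 1 → (t, x) ∈ E := fun t x ht => by
    rw [hE, mem_ofPred_eq, le_infDist hA'.nonempty]
    intro z hz
    have h1 := hm' z hz
    have h2 : |(ψ (t, x)).2| = m + 1 := by
      simp only [hψ, abs_mul, ht, one_mul]
      exact abs_of_nonneg (by linarith [abs_nonneg z.2])
    have h3 := abs_sub_abs_le_abs_sub (ψ (t, x)).2 z.2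
    rw [Prod.dist_eq, Real.dist_eq]
    exact le_max_of_le_right (by linarith)
  have b0 : ∀ x, ((0 : I), x) ∈ E := fun x => hend 0 x (by norm_num)
  have b1 : ∀ x, ((1 : I), x) ∈ E := fun x => hend 1 x (by norm_num)
  obtain ⟨G, hG, hG'⟩ := sepf_of_closed (label_closed hEc hsub hδ l3 True)
    (label_closed hEc hsub hδ l3 False)
    (disjoint_left.2 fun p a b => (a.2.symm.trans b.2).mp trivial)
    (fun x => ⟨b0 x, eq_true ⟨_, b0 x, rfl, rfl⟩⟩) fun x => ⟨b1 x, eq_false (by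
      rintro ⟨z, hz, e, e'⟩
      obtain ⟨b, hb⟩ := l2 _ (hsub (b1 x))
      cases b
      · exact hb z (hsub hz) e e'
      · exact hb _ (hsub (b1 x)) rfl rfl)⟩
  have near : ∀ p, G p = 0 → ∃ z ∈ A, dist (ψ p) z < η := fun p hp => by
    rw [← infDist_lt_iff hA'.nonempty]
    by_contra hn
    have hpE : p ∈ E := hE ▸ not_lt.1 hn
    by_cases h : ∃ z ∈ E, ℓ z = ℓ p ∧ z.1 = 0
    · exact (hG' p hp).1 ⟨hpE, eq_true h⟩
    · exact (hG' p hp).2 ⟨hpE, eq_false h⟩
  refine ⟨G, hG, fun t x y hx hy => ?_⟩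
  obtain ⟨p, hp, dp⟩ := near _ hx
  obtain ⟨q, hq, dq⟩ := near _ hy
  simp only [hψ, Prod.dist_eq, max_lt_iff, Real.dist_eq, abs_lt] at dp dq
  have := hs p hp q hq (abs_lt.2 ⟨by linarith [dp.2.1, dq.2.2], by linarith [dp.2.2, dq.2.1]⟩)
  linarith [dist_triangle4 x p.1 q.1 y, dist_comm y q.1, dp.1, dq.1]

theorem sepf_of_seq {P Q : ℕ → Set X} (hP : ∀ j, IsClosed (P j)) (hQ : ∀ j, IsClosed (Q j))
    {N : ℕ} (h0 : Q 0 = univ) (h1 : P N = univ)
    (hd : ∀ j ≤ N, ∀ k ≤ N, j ≤ k + 1 → k ≤ j + 1 → Disjoint (Q j) (P k)) :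
    ∃ G : I × X → ℝ, Sepf G ∧ ∀ t, ∃ j, ∀ x, G (t, x) = 0 → x ∉ Q j ∧ x ∉ P j := by
  have hc : ∀ R : ℕ → Set X, (∀ j, IsClosed (R j)) → IsClosed (⋃ j ∈ Finset.range (N + 1),
      {p : I × X | |(p.1 : ℝ) * N - j| ≤ 1 / 2 ∧ p.2 ∈ R j}) := fun R hR =>
    isClosed_biUnion_finset fun j _ =>
      (isClosed_le (f := fun p : I × X => |(p.1 : ℝ) * N - j|) (by fun_prop)
        continuous_const).inter ((hR j).preimage continuous_snd)
  obtain ⟨G, hG, hG'⟩ := sepf_of_closed (hc Q hQ) (hc P hP) (by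
      rw [disjoint_left]
      intro p a b
      obtain ⟨j, hj, a1, a2⟩ := mem_iUnion₂.1 a
      obtain ⟨k, hk, b1, b2⟩ := mem_iUnion₂.1 b
      rw [abs_le] at a1 b1
      rw [Finset.mem_range] at hj hk
      refine disjoint_left.1 (hd j (by omega) k (by omega) ?_ ?_) a2 b2
      · exact_mod_cast (by linarith [a1.1, b1.2] : (j : ℝ) ≤ k + 1)
      · exact_mod_cast (by linarith [a1.2, b1.1] : (k : ℝ) ≤ j + 1))
    (fun x => mem_iUnion₂.2 ⟨0, by simp, by simp, by simp [h0]⟩)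
    fun x => mem_iUnion₂.2 ⟨N, by simp, by simp, by simp [h1]⟩
  refine ⟨G, hG, fun t => ⟨⌊(t : ℝ) * N + 1 / 2⌋₊, fun x hx => ?_⟩⟩
  have t0 : 0 ≤ (t : ℝ) * N := mul_nonneg t.2.1 (Nat.cast_nonneg _)
  have t1 : (t : ℝ) * N ≤ N := mul_le_of_le_one_left (Nat.cast_nonneg _) t.2.2
  have f1 := Nat.floor_le (show 0 ≤ (t : ℝ) * N + 1 / 2 by positivity)
  have f2 := Nat.lt_floor_add_one ((t : ℝ) * N + 1 / 2)
  have f3 : ⌊(t : ℝ) * N + 1 / 2⌋₊ ∈ Finset.range (N + 1) := by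
    rw [Finset.mem_range]
    exact_mod_cast (by linarith : (⌊(t : ℝ) * N + 1 / 2⌋₊ : ℝ) < N + 1)
  have f4 : |(t : ℝ) * N - ⌊(t : ℝ) * N + 1 / 2⌋₊| ≤ 1 / 2 := abs_le.2 ⟨by linarith, by linarith⟩
  exact ⟨fun h => (hG' _ hx).1 (mem_iUnion₂.2 ⟨_, f3, f4, h⟩),
    fun h => (hG' _ hx).2 (mem_iUnion₂.2 ⟨_, f3, f4, h⟩)⟩

theorem exists_tour [ConnectedSpace X] {Λ : Type*} (x : Λ → X) {η : ℝ} (hη : 0 < η)
    (s : Finset Λ) : ∃ (N : ℕ) (w : ℕ → X), (∀ k, dist (w k) (w (k + 1)) ≤ η) ∧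
      ∀ A ∈ s, ∃ k ≤ N, w k = x A := by
  classical
  induction s using Finset.induction_on with
  | empty => exact ⟨0, fun _ => Classical.arbitrary X, fun _ => by simpa using hη.le, by simp⟩
  | insert A s _ ih =>
    obtain ⟨N, w, h1, h2⟩ := ih
    obtain ⟨n, f, f0, f1, hf⟩ := exists_chain isPreconnected_univ (mem_univ (w N))
      (mem_univ (x A)) hη
    refine ⟨N + (n + 1), fun k => if k ≤ N then w k else f (min (k - N) (n + 1)), fun k => ?_,
      fun B hB => ?_⟩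
    · rcases lt_trichotomy k N with h | rfl | h
      · simpa [h.le, Nat.succ_le_of_lt h] using h1 k
      · simpa [← f0] using (hf 0 (by omega)).2
      · simp only []
        rw [if_neg (by omega), if_neg (by omega)]
        by_cases h' : k - N ≤ n
        · rw [min_eq_left (by omega), min_eq_left (by omega), show k + 1 - N = k - N + 1 by omega]
          exact (hf _ h').2
        · rw [min_eq_right (by omega), min_eq_right (by omega), dist_self]
          exact hη.le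
    · rcases Finset.mem_insert.1 hB with rfl | hB
      · exact ⟨N + (n + 1), le_rfl, by simp [f1]⟩
      · obtain ⟨k, hk, e⟩ := h2 B hB
        exact ⟨k, by omega, by simp [hk, e]⟩

/-- A bound for the surjective semispan gives a thin separating function. -/
theorem sepf_of_semi [CompactSpace X] [ConnectedSpace X] {a : ℝ}
    (h : ∀ D : Set (X × X), IsConnected D → Prod.fst '' D = univ → ∃ p ∈ D, dist p.1 p.2 < a / 2) :
    ∃ G : I × X → ℝ, Sepf G ∧ ∀ t x y, G (t, x) = 0 → G (t, y) = 0 → dist x y < a := by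
  classical
  have hd : Continuous fun p : X × X => dist p.1 p.2 := by fun_prop
  obtain ⟨E, hE⟩ : ∃ E : Set (X × X), E = {p | a / 2 ≤ dist p.1 p.2} := ⟨_, rfl⟩
  have hEc : IsClosed E := hE ▸ isClosed_le continuous_const hd
  obtain ⟨δ, hδ, s, ℓ, l1, l2⟩ := exists_labels (F := fun x : X => Prod.fst ⁻¹' {x}) hEc.isCompact
    (fun x => isClosed_singleton.preimage continuous_fst) fun p hp => by
      by_contra hn
      push Not at hn
      obtain ⟨q, hq, hq'⟩ := h _ (isConnected_connectedComponentIn_iff.2 hp)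
        (eq_univ_of_forall fun x => by
          obtain ⟨c, hc, e⟩ := not_disjoint_iff.1 (hn x)
          exact ⟨c, hc, e⟩)
      have := connectedComponentIn_subset E p hq
      rw [hE] at this
      exact absurd hq' (not_lt.2 this)
  have hsub := self_subset_thickening hδ E
  have : ∀ A, ∃ x, ∀ y ∈ E, ℓ y = A → y.1 ≠ x := fun A => by
    by_cases hA : ∃ p ∈ E, ℓ p = A
    · obtain ⟨p, hp, rfl⟩ := hA
      obtain ⟨x, hx⟩ := l2 p (hsub hp)
      exact ⟨x, fun y hy e => hx y (hsub hy) e⟩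
    · exact ⟨Classical.arbitrary X, fun y hy e => absurd ⟨y, hy, e⟩ hA⟩
  choose x hx using this
  obtain ⟨N, w, w1, w2⟩ := exists_tour x hδ Finset.univ
  choose κ κ1 κ2 using fun A => w2 A (Finset.mem_univ A)
  have hcl : ∀ (k : ℕ) (r : ℕ → Prop), IsClosed {y | (w k, y) ∈ E ∧ r (κ (ℓ (w k, y)))} :=
    fun k r => by
      have := (label_closed (ℓ := fun p => r (κ (ℓ p))) hEc hsub hδ
        (fun p hp q hq e => by rw [l1 p hp q hq e]) True).preimage
        (f := fun y => (w k, y)) (by fun_prop)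
      convert this using 1
      ext y
      simp
  have hl : ∀ j k y, j ≤ k + 1 → k ≤ j + 1 → (w j, y) ∈ E → (w k, y) ∈ E →
      ℓ (w j, y) = ℓ (w k, y) := fun j k y a b c d => l1 _ (hsub c) _ (hsub d) (by
    rw [dist_prod_same_right]
    obtain rfl | rfl | rfl : j = k ∨ j = k + 1 ∨ k = j + 1 := by omega
    · simpa using hδ.le
    · exact dist_comm (w k) _ ▸ w1 k
    · exact w1 j)
  obtain ⟨G, hG, hG'⟩ := sepf_of_seq
    (P := fun j => if j = 0 then ∅ else if N + 2 ≤ j then univ else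
      {y | (w (j - 1), y) ∈ E ∧ κ (ℓ (w (j - 1), y)) < j - 1})
    (Q := fun j => if j = 0 then univ else if N + 2 ≤ j then ∅ else
      {y | (w (j - 1), y) ∈ E ∧ j - 1 < κ (ℓ (w (j - 1), y))})
    (fun j => by
      split_ifs
      exacts [isClosed_empty, isClosed_univ, hcl _ fun n => n < j - 1])
    (fun j => by
      split_ifs
      exacts [isClosed_univ, isClosed_empty, hcl _ fun n => j - 1 < n])
    (N := N + 2) (by simp) (by simp) (fun j _ k _ a b => by
      rw [disjoint_left]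
      intro y h1 h2
      split_ifs at h1 h2 with c1 c2 c3 c4 c5 c6
      any_goals first | exact h1 | exact h2
      · omega
      · have := h2.2; omega
      · have := h1.2
        have := κ1 (ℓ (w (j - 1), y))
        omega
      · have e := hl (j - 1) (k - 1) y (by omega) (by omega) h1.1 h2.1
        have := h1.2
        have := h2.2
        rw [e] at *
        omega)
  refine ⟨G, hG, fun t y z hy hz => ?_⟩
  obtain ⟨j, hj⟩ := hG' t
  have key : ∀ y, G (t, y) = 0 → dist (w (j - 1)) y < a / 2 := fun y hy => by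
    obtain ⟨h1, h2⟩ := hj y hy
    split_ifs at h1 h2
    · exact absurd (mem_univ y) h1
    · exact absurd (mem_univ y) h2
    · by_contra hn
      have hm : (w (j - 1), y) ∈ E := hE ▸ not_lt.1 hn
      rcases lt_trichotomy (j - 1) (κ (ℓ (w (j - 1), y))) with c | c | c
      · exact h1 ⟨hm, c⟩
      · exact hx _ _ hm rfl (by rw [← κ2, ← c])
      · exact h2 ⟨hm, c⟩
  linarith [key y hy, key z hz, dist_triangle_left y z (w (j - 1))]

theorem noFlip_of_symm
    (h : ∀ C : Set (X × X), IsConnected C → (∀ p ∈ C, p.swap ∈ C) →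
      ∀ ε : ℝ, 0 < ε → ∃ p ∈ C, dist p.1 p.2 < ε) : NoFlip X := by
  intro S hS hS' hd x y h1 h2
  obtain ⟨a, ha, hf⟩ := exists_far hS hd
  obtain ⟨p, hp, hlt⟩ := h (S ∪ Prod.swap '' S) ⟨⟨_, Or.inl h1⟩, IsPreconnected.union (x, y) h1
    ⟨_, h2, rfl⟩ hS' (hS'.image _ continuous_swap.continuousOn)⟩ (by
      rintro p (hp | ⟨q, hq, rfl⟩)
      · exact Or.inr ⟨p, hp, rfl⟩
      · exact Or.inl hq) a ha
  rcases hp with hp | ⟨q, hq, rfl⟩
  · exact absurd (hf p hp) (not_le.2 hlt)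
  · exact absurd (dist_comm q.1 q.2 ▸ hf q hq) (not_le.2 hlt)

theorem semi_half [CompactSpace X] [ConnectedSpace X] (hN : HW X) {a : ℝ} {C : Set (X × X)}
    (hC : IsConnected C) (hn : Prod.snd '' C ⊆ Prod.fst '' C) (ha : ∀ p ∈ C, a ≤ dist p.1 p.2) :
    ∃ D : Set (X × X), IsConnected D ∧ Prod.fst '' D = univ ∧ ∀ p ∈ D, a / 2 ≤ dist p.1 p.2 := by
  by_contra hcon
  push Not at hcon
  obtain ⟨G, hG, hG'⟩ := sepf_of_semi hcon
  obtain ⟨p, hp, hlt⟩ := core' hN hG hG' hC hn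
  exact absurd (ha p hp) (not_le.2 hlt)

theorem thin_semi [CompactSpace X] (hN : HW X) {A : Set (X × ℝ)} (hA : IsCompact A)
    (hA' : IsConnected A) (hu : Prod.fst '' A = univ) {a : ℝ}
    (ha : ∀ p ∈ A, ∀ q ∈ A, p.2 = q.2 → dist p.1 q.1 < a) {C : Set (X × X)}
    (hC : IsConnected C) (hn : Prod.snd '' C ⊆ Prod.fst '' C) : ∃ p ∈ C, dist p.1 p.2 < a := by
  obtain ⟨G, hG, hG'⟩ := sepf_of_thin hN hA hA' hu ha
  exact core' hN hG hG' hC hn

theorem weak_chain [CompactSpace X] (hN : HW X) {P : Type*} [MetricSpace P] [CompactSpace P]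
    [ConnectedSpace P]
    (hP : ∀ η : ℝ, 0 < η → ∃ l : P → ℝ, Continuous l ∧ ∀ p q, l p = l q → dist p q < η)
    {f : P → X} (hf : Continuous f) (hs : Function.Surjective f) {C : Set (X × X)}
    (hC : IsConnected C) (hn : Prod.snd '' C ⊆ Prod.fst '' C) {ε : ℝ} (hε : 0 < ε) :
    ∃ p ∈ C, dist p.1 p.2 < ε := by
  obtain ⟨η, hη, h1⟩ := Metric.uniformContinuous_iff.1
    (CompactSpace.uniformContinuous_of_continuous hf) ε hε
  obtain ⟨l, hl, h2⟩ := hP η hη
  have hc : Continuous fun p => (f p, l p) := hf.prodMk hl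
  refine thin_semi hN (isCompact_range hc) (isConnected_range hc) (eq_univ_of_forall fun x => ?_)
    ?_ hC hn
  · obtain ⟨p, rfl⟩ := hs x
    exact ⟨_, ⟨p, rfl⟩, rfl⟩
  · rintro _ ⟨p, rfl⟩ _ ⟨q, rfl⟩ e
    exact h1 (h2 p q e)

end Pool.Agent.Work.MP_8493f1_gt
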