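import Mathlib
import Pool.Agent.Work.MP_8493f1_gt.H97Main

-- merged part: Pool.Agent.Work.MP_8493f1_gt.H31Stack
section
/-! The stack of robbers: a finite combinatorial argument. -/

set_option autoImplicit false

namespace Pool.Agent.Work.MP_8493f1_gt.Stack

open Relation

open Classical in
/-- The product of the transpositions `(j, j+1)`, `j ∈ D`, when `D` has no consecutive pair. -/
noncomputable def act (D : ℕ → Prop) (p : ℕ) : ℕ :=
  if D p then p + 1 else if 0 < p ∧ D (p - 1) then p - 1 else p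

theorem act_le (D : ℕ → Prop) (p : ℕ) : act D p ≤ p + 1 := by
  unfold act
  split_ifs <;> omega

theorem act_cases (D : ℕ → Prop) (p : ℕ) : (D p ∧ act D p = p + 1) ∨
    (¬ D p ∧ ∃ q, p = q + 1 ∧ D q ∧ act D p = q) ∨
    (¬ D p ∧ (∀ q, p = q + 1 → ¬ D q) ∧ act D p = p) := by
  unfold act
  split_ifs with h1 h2
  · exact Or.inl ⟨h1, rfl⟩
  · exact Or.inr (Or.inl ⟨h1, p - 1, by omega, h2.2, rfl⟩)
  · refine Or.inr (Or.inr ⟨h1, fun q e hq => h2 ⟨by omega, ?_⟩, rfl⟩)
    rwa [e, Nat.add_sub_cancel]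

theorem act_up {D : ℕ → Prop} {p : ℕ} (h : D p) : act D p = p + 1 := by
  unfold act
  rw [if_pos h]

theorem act_down {D : ℕ → Prop} {q : ℕ} (h : ¬ D (q + 1)) (h' : D q) : act D (q + 1) = q := by
  unfold act
  rw [if_neg h, if_pos ⟨by omega, by simpa using h'⟩, Nat.add_sub_cancel]

theorem act_fix {D : ℕ → Prop} {p : ℕ} (h : ¬ D p) (h' : ∀ q, p = q + 1 → ¬ D q) :
    act D p = p := by
  unfold act
  rw [if_neg h, if_neg fun c => h' (p - 1) (by omega) c.2]

theorem act_act {J D E F : ℕ → Prop} (hJ : ∀ j, J j → ¬ J (j + 1)) (hD : ∀ j, D j → J j)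
    (hE : ∀ j, E j → J j) (hF : ∀ j, F j ↔ ¬ (D j ↔ E j)) (p : ℕ) :
    act D (act E p) = act F p := by
  have hF' : ∀ j, F j → J j := fun j h => by
    have := hD j; have := hE j; have := hF j; tauto
  rcases act_cases E p with ⟨e1, e2⟩ | ⟨e1, q, rfl, e2, e3⟩ | ⟨e1, e2, e3⟩
  · have n1 : ¬ D (p + 1) := fun h => hJ p (hE p e1) (hD _ h)
    rw [e2]
    by_cases d : D p
    · rw [act_down n1 d, act_fix (by have := hF p; tauto)]
      rintro q rfl h
      exact hJ q (hF' q h) (hE _ e1)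
    · rw [act_up (by have := hF p; tauto : F p), act_fix n1]
      rintro q e h
      obtain rfl : p = q := by omega
      exact d h
  · have n1 : ¬ F (q + 1) := fun h => hJ q (hE q e2) (hF' _ h)
    rw [e3]
    by_cases d : D q
    · rw [act_up d, act_fix n1]
      rintro q' e h
      obtain rfl : q = q' := by omega
      have := hF q; tauto
    · rw [act_down n1 (by have := hF q; tauto), act_fix d]
      rintro q' rfl h
      exact hJ q' (hD q' h) (hE _ e2)
  · rw [e3]
    rcases act_cases D p with ⟨d1, d2⟩ | ⟨d1, q, rfl, d2, d3⟩ | ⟨d1, d2, d3⟩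
    · rw [d2, act_up (by have := hF p; tauto)]
    · have := e2 q rfl
      rw [d3, act_down (by have := hF (q + 1); tauto) (by have := hF q; tauto)]
    · rw [d3, act_fix (by have := hF p; tauto)]
      intro q e
      have := e2 q e; have := d2 q e; have := hF q; tauto

theorem exists_seq {α : Type*} {R : α → α → Prop} {a b : α} (h : ReflTransGen R a b)
    (hb : R b b) : ∃ (K : ℕ) (f : ℕ → α), f 0 = a ∧ f K = b ∧ ∀ i, R (f i) (f (i + 1)) := by
  induction h using ReflTransGen.head_induction_on with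
  | refl => exact ⟨0, fun _ => b, rfl, rfl, fun _ => hb⟩
  | @head a c hac _ ih =>
    obtain ⟨K, f, f0, f1, f2⟩ := ih
    refine ⟨K + 1, fun i => Nat.casesOn i a f, rfl, f1, fun i => ?_⟩
    cases i with
    | zero => simpa [f0] using hac
    | succ i => exact f2 i

variable {V : Type*}

/-- The sign `χ` is the same at the four corners. -/
def Const (χ : V → V → Prop) (c c' y y' : V) : Prop :=
  (χ c y ↔ χ c' y) ∧ (χ c y ↔ χ c y') ∧ (χ c y ↔ χ c' y')

/-- One step of a robber against the walk `γ`. -/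
def Rob (adj far : V → V → Prop) (good : V → Prop) (γ : ℕ → V) (p q : ℕ × V) : Prop :=
  q.1 ≤ p.1 + 1 ∧ p.1 ≤ q.1 + 1 ∧ adj p.2 q.2 ∧ far (γ q.1) q.2 ∧ good q.2

/-- The data of the game. -/
structure Game (adj far χ : V → V → Prop) (good : V → Prop) (ρ : V) (M : ℕ) : Prop where
  refl : ∀ v, adj v v
  symm : ∀ u v, adj u v → adj v u
  root1 : ∀ u, ¬ χ u ρ
  root2 : ∀ v, χ ρ v ↔ v ≠ ρ
  key : ∀ c c' y y' z z', adj c c' → adj y y' → adj z z' → far y z ∨ far y' z' →
    Const χ c c' y y' ∨ Const χ c c' z z'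
  wall : ∀ y y' z z', adj y y' → adj z z' → far y z ∨ far y' z' → Const χ z z' y y'
  ne : ∀ v, good v → v ≠ ρ
  chain : ∀ v, good v → ∃ g : ℕ → V, g 0 = ρ ∧ g M = v ∧ ∀ i, adj (g i) (g (i + 1))
  rob : ∀ γ : ℕ → V, (∀ i, adj (γ i) (γ (i + 1))) → ∀ K, ∃ z0 z1, far (γ 0) z0 ∧ good z0 ∧
    ReflTransGen (Rob adj far good γ) (0, z0) (K, z1)

/-- Admissible positions of the tokens `0, …, n`. -/
def Valid (far : V → V → Prop) (ρ : V) (n : ℕ) (x : ℕ → V) : Prop :=
  (∀ j, n < j → x j = ρ) ∧ ∀ j, j < n → x j ≠ ρ → far (x j) (x (j + 1)) ∧ x (j + 1) ≠ ρ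

/-- A move of all tokens. -/
def Mv (adj far : V → V → Prop) (ρ : V) (n : ℕ) (x x' : ℕ → V) : Prop :=
  Valid far ρ n x ∧ Valid far ρ n x' ∧ ∀ j, adj (x j) (x' j)

variable {adj far χ : V → V → Prop} {good : V → Prop} {ρ : V} {M : ℕ}

theorem Valid.up {n : ℕ} {x : ℕ → V} (h : Valid far ρ n x) {i j : ℕ} (hi : i ≤ j) (hj : j ≤ n)
    (hx : x i ≠ ρ) : x j ≠ ρ := by
  induction j, hi using Nat.le_induction with
  | base => exact hx
  | succ j _ ih => exact (h.2 j (by omega) (ih (by omega))).2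

theorem Game.pre (G : Game adj far χ good ρ M) (n : ℕ) {v : V} (hv : good v) :
    ReflTransGen (Mv adj far ρ n) (fun _ => ρ) (Function.update (fun _ => ρ) n v) := by
  obtain ⟨g, g0, g1, g2⟩ := G.chain v hv
  have val : ∀ u, Valid far ρ n (Function.update (fun _ => ρ) n u) := fun u =>
    ⟨fun j hj => Function.update_of_ne (by omega) _ _, fun j hj h =>
      absurd (Function.update_of_ne (by omega) _ _) h⟩
  have : ∀ i, ReflTransGen (Mv adj far ρ n) (fun _ => ρ) (Function.update (fun _ => ρ) n (g i)) := by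
    intro i
    induction i with
    | zero =>
      rw [g0, Function.update_eq_self n fun _ => ρ]
    | succ i ih =>
      refine ih.tail ⟨val _, val _, fun j => ?_⟩
      by_cases e : j = n
      · subst e
        simpa using g2 i
      · simpa [Function.update_of_ne e] using G.refl ρ
  exact g1 ▸ this M

theorem Game.stack (G : Game adj far χ good ρ M) (n : ℕ) : ∃ x : ℕ → V,
    ReflTransGen (Mv adj far ρ n) (fun _ => ρ) x ∧ Valid far ρ n x ∧ x 0 ≠ ρ ∧ good (x n) := by
  induction n with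
  | zero =>
    obtain ⟨z, -, -, hz, -⟩ := G.rob (fun _ => ρ) (fun _ => G.refl ρ) 0
    refine ⟨_, G.pre 0 hz, ⟨fun j hj => Function.update_of_ne (by omega) _ _, fun j hj => by omega⟩,
      by simpa using G.ne z hz, by simpa using hz⟩
  | succ n ih =>
    obtain ⟨x, h1, h2, h3, -⟩ := ih
    obtain ⟨K, f, f0, f1, f2⟩ := exists_seq h1 ⟨h2, h2, fun j => G.refl _⟩
    obtain ⟨z0, z1, a1, a2, a3⟩ := G.rob (fun i => f i n) (fun i => (f2 i).2.2 n) K
    have val : ∀ k z, far (f k n) z → good z →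
        Valid far ρ (n + 1) (Function.update (f k) (n + 1) z) := fun k z b1 b2 => by
      refine ⟨fun j hj => ?_, fun j hj h => ?_⟩
      · rw [Function.update_of_ne (by omega)]
        exact (f2 k).1.1 j (by omega)
      · rw [Function.update_of_ne (by omega)] at h ⊢
        by_cases e : j = n
        · subst e
          simpa using ⟨b1, G.ne z b2⟩
        · rw [Function.update_of_ne (by omega)]
          exact (f2 k).1.2 j (by omega) h
    have main : ∀ q : ℕ × V, ReflTransGen (Rob adj far good fun i => f i n) (0, z0) q →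
        far (f q.1 n) q.2 ∧ good q.2 ∧ ReflTransGen (Mv adj far ρ (n + 1)) (fun _ => ρ)
          (Function.update (f q.1) (n + 1) q.2) := fun q hq => by
      induction hq with
      | refl => exact ⟨a1, a2, by simpa [f0] using G.pre (n + 1) a2⟩
      | @tail p q _ hpq ih =>
        obtain ⟨b1, b2, b3, b4, b5⟩ := hpq
        refine ⟨b4, b5, ih.2.2.tail ⟨val _ _ ih.1 ih.2.1, val _ _ b4 b5, fun j => ?_⟩⟩
        by_cases e : j = n + 1
        · subst e
          simpa using b3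
        · rw [Function.update_of_ne e, Function.update_of_ne e]
          obtain e | e | e : q.1 = p.1 ∨ q.1 = p.1 + 1 ∨ p.1 = q.1 + 1 := by omega
          · rw [e]; exact G.refl _
          · rw [e]; exact (f2 _).2.2 j
          · rw [e]; exact G.symm _ _ ((f2 _).2.2 j)
    obtain ⟨b1, b2, b3⟩ := main _ a3
    refine ⟨_, b3, val _ _ b1 b2, ?_, by simpa using b2⟩
    rw [Function.update_of_ne (by omega), f1]
    exact h3

theorem Game.const_root (G : Game adj far χ good ρ M) (c c' : V) : Const χ c c' ρ ρ := by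
  have := G.root1 c
  have := G.root1 c'
  unfold Const
  tauto

theorem Game.farOr (G : Game adj far χ good ρ M) {n : ℕ} {x x' : ℕ → V}
    (h : Mv adj far ρ n x x') {c c' : V} {j : ℕ} (hj : j < n)
    (h1 : ¬ Const χ c c' (x j) (x' j)) :
    far (x j) (x (j + 1)) ∨ far (x' j) (x' (j + 1)) := by
  by_cases e : x j = ρ
  · by_cases e' : x' j = ρ
    · exact absurd (e ▸ e' ▸ G.const_root c c') h1
    · exact Or.inr (h.2.1.2 j hj e').1
  · exact Or.inl (h.1.2 j hj e).1

theorem Game.sq (G : Game adj far χ good ρ M) {n : ℕ} {x x' : ℕ → V}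
    (h : Mv adj far ρ n x x') {c c' : V} (hc : adj c c') (j : ℕ)
    (h1 : ¬ Const χ c c' (x j) (x' j)) : ¬ ¬ Const χ c c' (x (j + 1)) (x' (j + 1)) := by
  intro h2
  by_cases hj : j < n
  · exact (G.key c c' _ _ _ _ hc (h.2.2 j) (h.2.2 (j + 1)) (G.farOr h hj h1)).elim h1 h2
  · rw [h.1.1 (j + 1) (by omega), h.2.1.1 (j + 1) (by omega)] at h2
    exact h2 (G.const_root c c')

/-- The marker. -/
def Inv (adj χ : V → V → Prop) (ρ : V) (n : ℕ) (x : ℕ → V) : Prop :=
  ∃ p : V → ℕ, (∀ c c', adj c c' → p c' = act (fun j => ¬ (χ c (x j) ↔ χ c' (x j))) (p c)) ∧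
    (∀ j, j ≤ n → (x j ≠ ρ ↔ p ρ ≤ j)) ∧ p ρ ≤ n + 1 ∧ (p (x n) = n ∨ p (x n) = n + 1)

private theorem xor_three (a b d : Prop) : ¬ (a ↔ d) ↔ ¬ (¬ (b ↔ d) ↔ ¬ (a ↔ b)) := by
  by_cases a <;> by_cases b <;> by_cases d <;> simp [*]

theorem Game.inv_step (G : Game adj far χ good ρ M) {n : ℕ} {x x' : ℕ → V}
    (h : Mv adj far ρ n x x') (hx : Inv adj χ ρ n x) : Inv adj χ ρ n x' := by
  obtain ⟨p, p1, p2, p3, p4⟩ := hx
  have diag : ∀ c c', adj c c' → act (fun j => ¬ (χ c' (x j) ↔ χ c' (x' j))) (p c') =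
      act (fun j => ¬ (χ c (x j) ↔ χ c' (x' j))) (p c) := fun c c' hc => by
    rw [p1 c c' hc]
    refine act_act (G.sq h hc) (fun j => ?_) (fun j => ?_) (fun j => ?_) _
    · exact fun a b => a (b.1.symm.trans b.2.2)
    · exact fun a b => a b.1
    · exact xor_three _ _ _
  have hD : ∀ j, ¬ (χ ρ (x j) ↔ χ ρ (x' j)) ↔ ¬ (x j ≠ ρ ↔ x' j ≠ ρ) := fun j => by
    rw [G.root2, G.root2]
  have hle : ∀ j, ¬ (χ ρ (x j) ↔ χ ρ (x' j)) → j ≤ n := fun j hj => by
    by_contra c
    rw [h.1.1 j (by omega), h.2.1.1 j (by omega)] at hj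
    exact hj Iff.rfl
  have hcons : ∀ j, ¬ (χ ρ (x j) ↔ χ ρ (x' j)) → (χ ρ (x (j + 1)) ↔ χ ρ (x' (j + 1))) :=
    fun j hj => by
      by_contra c
      exact G.sq h (G.refl ρ) j (fun b => hj b.2.1) fun b => c b.2.1
  refine ⟨fun c => act (fun j => ¬ (χ c (x j) ↔ χ c (x' j))) (p c), fun c c' hc => ?_,
    fun j hj => ?_, ?_, ?_⟩
  · beta_reduce
    rw [diag c c' hc]
    refine (act_act (G.sq h hc) (fun j => ?_) (fun j => ?_) (fun j => ?_) _).symm
    · exact fun a b => a (b.2.1.symm.trans b.2.2)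
    · exact fun a b => a b.2.1
    · exact xor_three _ _ _
  · beta_reduce
    rcases act_cases (fun j => ¬ (χ ρ (x j) ↔ χ ρ (x' j))) (p ρ) with
      ⟨e1, e2⟩ | ⟨e1, q, e, e2, e3⟩ | ⟨e1, e2, e3⟩
    · have l := hle _ e1
      have a : x' (p ρ) = ρ := by
        by_contra c
        exact (hD _).1 e1 (iff_of_true ((p2 _ l).2 le_rfl) c)
      rw [e2]
      refine ⟨fun b => ?_, fun b => ?_⟩
      · by_contra c
        exact h.2.1.up (by omega : j ≤ p ρ) l b a
      · have c := hcons _ e1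
        rw [G.root2, G.root2] at c
        exact h.2.1.up b hj (c.1 ((p2 _ (by omega)).2 (by omega)))
    · have l := hle _ e2
      have a : x' q ≠ ρ := by
        intro c
        exact (hD _).1 e2 (iff_of_false ((p2 _ l).not.2 (by omega)) (not_not.2 c))
      rw [e3]
      refine ⟨fun b => ?_, fun b => h.2.1.up b hj a⟩
      by_contra c
      obtain ⟨q', rfl⟩ : ∃ q', q = q' + 1 := ⟨q - 1, by omega⟩
      have c1 : x' q' ≠ ρ := h.2.1.up (by omega : j ≤ q') (by omega) b
      have c2 := (p2 q' (by omega)).not.2 (by omega)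
      exact e2 (hcons q' ((hD _).2 fun d => c2 (d.2 c1)))
    · rw [e3]
      refine ⟨fun b => ?_, fun b => ?_⟩
      · by_contra c
        obtain ⟨q, e⟩ : ∃ q, p ρ = q + 1 := ⟨p ρ - 1, by omega⟩
        have c1 : x' q ≠ ρ := h.2.1.up (by omega : j ≤ q) (by omega) b
        have c2 := (p2 q (by omega)).not.2 (by omega)
        exact e2 q e ((hD _).2 fun d => c2 (d.2 c1))
      · have c1 := (p2 (p ρ) (by omega)).2 le_rfl
        have c2 := (hD (p ρ)).not.1 e1
        exact h.2.1.up b hj ((not_not.1 c2).1 c1)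
  · beta_reduce
    rcases act_cases (fun j => ¬ (χ ρ (x j) ↔ χ ρ (x' j))) (p ρ) with
      ⟨e1, e2⟩ | ⟨e1, q, e, e2, e3⟩ | ⟨e1, e2, e3⟩
    · have := hle _ e1
      omega
    · omega
    · omega
  · beta_reduce
    rw [diag _ _ (h.2.2 n)]
    have n1 : ¬ ¬ (χ (x n) (x (n + 1)) ↔ χ (x' n) (x' (n + 1))) := by
      rw [h.1.1 (n + 1) (by omega), h.2.1.1 (n + 1) (by omega)]
      have := G.root1 (x n)
      have := G.root1 (x' n)
      tauto
    have n2 : ∀ q, n = q + 1 → ¬ ¬ (χ (x n) (x q) ↔ χ (x' n) (x' q)) := by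
      rintro q rfl hq
      have c : ¬ Const χ (x (q + 1)) (x' (q + 1)) (x q) (x' q) := fun c => hq c.2.2
      exact c (G.wall _ _ _ _ (h.2.2 q) (h.2.2 (q + 1)) (G.farOr h (by omega) c))
    rcases act_cases (fun j => ¬ (χ (x n) (x j) ↔ χ (x' n) (x' j))) (p (x n)) with
      ⟨e1, e2⟩ | ⟨e1, q, e, e2, e3⟩ | ⟨e1, e2, e3⟩
    · rcases p4 with a | a
      · omega
      · rw [a] at e1
        exact absurd e1 n1
    · rcases p4 with a | a
      · exact absurd e2 (n2 q (by omega))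
      · omega
    · omega

theorem Game.false (G : Game adj far χ good ρ M) : False := by
  obtain ⟨x, h1, -, h3, h4⟩ := G.stack (M + 1)
  have hI : Inv adj χ ρ (M + 1) x := by
    clear h3 h4
    induction h1 with
    | refl =>
      refine ⟨fun _ => M + 2, fun c c' _ => (act_fix ?_ ?_).symm, fun j hj => ?_, le_rfl,
        Or.inr rfl⟩
      · have := G.root1 c; have := G.root1 c'; tauto
      · intro q _
        have := G.root1 c; have := G.root1 c'; tauto
      · simp only [ne_eq, not_true_eq_false, false_iff]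
        omega
    | tail _ h ih => exact G.inv_step h ih
  obtain ⟨p, p1, p2, -, p4⟩ := hI
  obtain ⟨g, g0, g1, g2⟩ := G.chain _ h4
  have : ∀ i, p (g i) ≤ i := fun i => by
    induction i with
    | zero => rw [g0]; exact (p2 0 (by omega)).1 h3
    | succ i ih =>
      rw [p1 _ _ (g2 i)]
      exact (act_le _ _).trans (by omega)
  have := this M
  rw [g1] at this
  omega

end Pool.Agent.Work.MP_8493f1_gt.Stack
end

-- merged part: Pool.Agent.Work.MP_8493f1_gt.H31Main
section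
/-! Surjective span zero implies semispan zero. -/

set_option autoImplicit false

namespace Pool.Agent.Work.MP_8493f1_gt

open Set Metric Relation

variable {X : Type*} [MetricSpace X]

theorem exists_bound [CompactSpace X] [ConnectedSpace X] (x0 : X) {η : ℝ} (hη : 0 < η) :
    ∃ m : ℕ, ∀ y, ∃ f : ℕ → X, f 0 = x0 ∧ f m = y ∧ ∀ i, dist (f i) (f (i + 1)) ≤ η := by
  have cut : ∀ (f : ℕ → X) (m : ℕ), (∀ i < m, dist (f i) (f (i + 1)) ≤ η) →
      ∀ i, dist (f (min i m)) (f (min (i + 1) m)) ≤ η := fun f m h i => by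
    by_cases c : i < m
    · rw [min_eq_left c.le, min_eq_left c]
      exact h i c
    · rw [min_eq_right (by omega), min_eq_right (by omega), dist_self]
      exact hη.le
  obtain ⟨m, hm⟩ := isCompact_univ.elim_directed_cover (fun m : ℕ => {y | ∃ f : ℕ → X, f 0 = x0 ∧
      dist (f m) y < η ∧ ∀ i, dist (f i) (f (i + 1)) ≤ η}) (fun m => by
      rw [Metric.isOpen_iff]
      rintro y ⟨f, f0, f1, f2⟩
      refine ⟨η - dist (f m) y, by linarith, fun z hz => ⟨f, f0, ?_, f2⟩⟩
      rw [mem_ball] at hz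
      linarith [dist_triangle_right (f m) z y, dist_triangle (f m) y z, dist_comm y z])
    (fun y _ => by
      obtain ⟨n, f, f0, f1, hf⟩ := exists_chain isPreconnected_univ (mem_univ x0) (mem_univ y) hη
      exact mem_iUnion.2 ⟨n + 1, fun i => f (min i (n + 1)), by simpa using f0,
        by simpa [f1] using hη, cut f _ fun i hi => (hf i (by omega)).2⟩)
    (Monotone.directed_le fun m m' h y ⟨f, f0, f1, f2⟩ =>
      ⟨fun i => f (min i m), by simpa using f0, by simpa [min_eq_right h] using f1,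
        cut f _ fun i _ => f2 i⟩)
  refine ⟨m + 1, fun y => ?_⟩
  obtain ⟨f, f0, f1, f2⟩ := hm (mem_univ y)
  refine ⟨fun i => if i ≤ m then f i else y, by simpa using f0, by simp, fun i => ?_⟩
  rcases lt_trichotomy i m with h | rfl | h
  · simpa [h.le, Nat.succ_le_of_lt h] using f2 i
  · simpa using f1.le
  · simp only []
    rw [if_neg (by omega), if_neg (by omega), dist_self]
    exact hη.le

/-- One step of a robber against the chain `c`. -/
def RobX (η l : ℝ) (c : ℕ → X) (p q : ℕ × X) : Prop :=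
  q.1 ≤ p.1 + 1 ∧ p.1 ≤ q.1 + 1 ∧ dist p.2 q.2 ≤ η ∧ l ≤ dist (c q.1) q.2

/-- A nested far continuum gives a robber against every chain. -/
theorem exists_robber [CompactSpace X] (hN : HW X) {a η : ℝ} (hη : 0 < η) {C : Set (X × X)}
    (hC : IsConnected C) (hn : Prod.snd '' C ⊆ Prod.fst '' C) (ha : ∀ p ∈ C, a ≤ dist p.1 p.2)
    (c : ℕ → X) (K : ℕ) :
    ∃ z0 z1, a / 2 ≤ dist (c 0) z0 ∧ ReflTransGen (RobX η (a / 2) c) (0, z0) (K, z1) := by
  classical
  by_contra hcon
  obtain ⟨Rch, hR⟩ : ∃ Rch : ℕ → X → Prop, Rch = fun k y => ∃ z0, a / 2 ≤ dist (c 0) z0 ∧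
    ReflTransGen (RobX η (a / 2) c) (0, z0) (k, y) := ⟨_, rfl⟩
  have step : ∀ j k y y', j ≤ k + 1 → k ≤ j + 1 → dist y y' ≤ η → a / 2 ≤ dist (c k) y' →
      Rch j y → Rch k y' := fun j k y y' h1 h2 h3 h4 h5 => by
    rw [hR] at h5 ⊢
    obtain ⟨z0, h6, h7⟩ := h5
    exact ⟨z0, h6, h7.tail ⟨h2, h1, h3, h4⟩⟩
  have hcl : ∀ (k : ℕ) (A : Prop), IsClosed ({y | a / 2 ≤ dist (c k) y} ∩ {y | Rch k y = A}) :=
    fun k A => label_closed (E := {y | a / 2 ≤ dist (c k) y}) (ℓ := Rch k)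
      (isClosed_le continuous_const (by fun_prop)) subset_rfl hη
      (fun y hy y' hy' h => propext ⟨step k k y y' (by omega) (by omega) h hy',
        step k k y' y (by omega) (by omega) (dist_comm y y' ▸ h) hy⟩) A
  obtain ⟨G, hG, hG'⟩ := sepf_of_seq
    (P := fun j => if j = 0 then ∅ else if K + 2 ≤ j then univ else
      {y | a / 2 ≤ dist (c (j - 1)) y} ∩ {y | Rch (j - 1) y = False})
    (Q := fun j => if j = 0 then univ else if K + 2 ≤ j then ∅ else
      {y | a / 2 ≤ dist (c (j - 1)) y} ∩ {y | Rch (j - 1) y = True})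
    (fun j => by
      split_ifs
      exacts [isClosed_empty, isClosed_univ, hcl _ _])
    (fun j => by
      split_ifs
      exacts [isClosed_univ, isClosed_empty, hcl _ _])
    (N := K + 2) (by simp) (by simp) (fun j _ k _ h1 h2 => by
      rw [disjoint_left]
      intro y b1 b2
      split_ifs at b1 b2 with c1 c2 c3 c4 c5 c6
      any_goals first | exact b1 | exact b2
      · omega
      · obtain rfl : k = 1 := by omega
        refine of_eq_false b2.2 ?_
        rw [hR]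
        exact ⟨y, b2.1, .refl⟩
      · obtain rfl : j = K + 1 := by omega
        have := of_eq_true b1.2
        rw [hR] at this
        obtain ⟨z0, h6, h7⟩ := this
        exact hcon ⟨z0, y, h6, h7⟩
      · exact of_eq_false b2.2 (step _ _ y y (by omega) (by omega) (by simpa using hη.le) b2.1
          (of_eq_true b1.2)))
  obtain ⟨p, hp, hlt⟩ := core' hN hG (a := a) (fun t y z hy hz => by
    obtain ⟨j, hj⟩ := hG' t
    have key : ∀ y, G (t, y) = 0 → dist (c (j - 1)) y < a / 2 := fun y hy => by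
      obtain ⟨h1, h2⟩ := hj y hy
      split_ifs at h1 h2
      · exact absurd (mem_univ y) h1
      · exact absurd (mem_univ y) h2
      · by_contra hm
        by_cases e : Rch (j - 1) y
        · exact h1 ⟨not_lt.1 hm, eq_true e⟩
        · exact h2 ⟨not_lt.1 hm, eq_false e⟩
    linarith [key y hy, key z hz, dist_triangle_left y z (c (j - 1))]) hC hn
  exact absurd (ha p hp) (not_le.2 hlt)

/-- Labels of the far pairs when no far connected set projects onto both factors. -/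
theorem exists_signs [CompactSpace X] [ConnectedSpace X] {r : ℝ}
    (h : ∀ D : Set (X × X), IsConnected D → Prod.fst '' D = univ → Prod.snd '' D = univ →
      ∃ p ∈ D, dist p.1 p.2 < r) {η0 : ℝ} (h0 : 0 < η0) :
    ∃ η, 0 < η ∧ η ≤ η0 ∧ ∃ (N : ℕ) (w : ℕ → X) (κ : X × X → ℕ) (b : X × X → Prop),
      (∀ k, dist (w k) (w (k + 1)) ≤ η) ∧ (∀ p, κ p ≤ N) ∧
      (∀ p q : X × X, r ≤ dist p.1 p.2 → r ≤ dist q.1 q.2 → dist p.1 q.1 ≤ η → dist p.2 q.2 ≤ η →
        κ p = κ q ∧ (b p ↔ b q)) ∧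
      ∀ p : X × X, r ≤ dist p.1 p.2 → (b p → p.1 ≠ w (κ p)) ∧ (¬ b p → p.2 ≠ w (κ p)) := by
  classical
  have hd : Continuous fun p : X × X => dist p.1 p.2 := by fun_prop
  obtain ⟨E, hE⟩ : ∃ E : Set (X × X), E = {p | r ≤ dist p.1 p.2} := ⟨_, rfl⟩
  have hEc : IsClosed E := hE ▸ isClosed_le continuous_const hd
  obtain ⟨δ, hδ, s, ℓ, l1, l2⟩ := exists_labels
    (F := fun i : X ⊕ X => Sum.elim (fun x => Prod.fst ⁻¹' {x}) (fun x => Prod.snd ⁻¹' {x}) i)
    hEc.isCompact (fun i => by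
      cases i
      · exact isClosed_singleton.preimage continuous_fst
      · exact isClosed_singleton.preimage continuous_snd) fun p hp => by
      by_contra hn
      push Not at hn
      obtain ⟨q, hq, hq'⟩ := h _ (isConnected_connectedComponentIn_iff.2 hp)
        (eq_univ_of_forall fun x => by
          obtain ⟨c, hc, e⟩ := not_disjoint_iff.1 (hn (.inl x))
          exact ⟨c, hc, e⟩)
        (eq_univ_of_forall fun x => by
          obtain ⟨c, hc, e⟩ := not_disjoint_iff.1 (hn (.inr x))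
          exact ⟨c, hc, e⟩)
      have := connectedComponentIn_subset E p hq
      rw [hE] at this
      exact absurd hq' (not_lt.2 this)
  have hsub := self_subset_thickening hδ E
  have : ∀ A, ∃ (x : X) (β : Prop), ∀ y ∈ E, ℓ y = A → (β → y.1 ≠ x) ∧ (¬ β → y.2 ≠ x) :=
    fun A => by
      by_cases hA : ∃ p ∈ E, ℓ p = A
      · obtain ⟨p, hp, rfl⟩ := hA
        obtain ⟨x | x, hx⟩ := l2 p (hsub hp)
        · exact ⟨x, True, fun y hy e => ⟨fun _ => hx y (hsub hy) e, fun c => absurd trivial c⟩⟩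
        · exact ⟨x, False, fun y hy e => ⟨False.elim, fun _ => hx y (hsub hy) e⟩⟩
      · exact ⟨Classical.arbitrary X, True, fun y hy e => absurd ⟨y, hy, e⟩ hA⟩
  choose x β hx using this
  obtain ⟨N, w, w1, w2⟩ := exists_tour x (lt_min hδ h0) Finset.univ
  choose κ κ1 κ2 using fun A => w2 A (Finset.mem_univ A)
  refine ⟨min δ η0, lt_min hδ h0, min_le_right _ _, N, w, fun p => κ (ℓ p), fun p => β (ℓ p), w1,
    fun p => κ1 _, fun p q hp hq a1 a2 => ?_, fun p hp => ?_⟩
  · have := l1 p (hsub (hE ▸ hp)) q (hsub (hE ▸ hq)) (by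
      rw [Prod.dist_eq]
      exact max_le (a1.trans (min_le_left _ _)) (a2.trans (min_le_left _ _)))
    simp only [this, and_self]
  · simp only [κ2]
    exact hx _ p (hE ▸ hp) rfl

theorem semi_of_surj [CompactSpace X] [ConnectedSpace X] (hN : HW X) {a : ℝ} (ha0 : 0 < a)
    (h : ∀ D : Set (X × X), IsConnected D → Prod.fst '' D = univ → Prod.snd '' D = univ →
      ∃ p ∈ D, dist p.1 p.2 < a / 8) {C : Set (X × X)}
    (hC : IsConnected C) (hn : Prod.snd '' C ⊆ Prod.fst '' C) : ∃ p ∈ C, dist p.1 p.2 < a := by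
  by_contra hcon
  push Not at hcon
  obtain ⟨η, hη, hη', N, w, κ, b, w1, κ1, hl, hb⟩ := exists_signs h (η0 := a / 32) (by positivity)
  obtain ⟨m, hm⟩ := exists_bound (w (N + 2)) hη
  have w2 : ∀ i j, i ≤ j + 1 → j ≤ i + 1 → dist (w (i - 1)) (w (j - 1)) ≤ η := fun i j h1 h2 => by
    obtain e | e | e : i - 1 = j - 1 ∨ i - 1 = j - 1 + 1 ∨ j - 1 = i - 1 + 1 := by omega
    · rw [e, dist_self]; exact hη.le
    · rw [e, dist_comm]; exact w1 _
    · rw [e]; exact w1 _
  have w3 : ∀ i j, i ≤ j + 2 → j ≤ i + 2 → dist (w (i - 1)) (w (j - 1)) ≤ 2 * η :=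
    fun i j h1 h2 => by
      linarith [w2 i ((i + j + 1) / 2) (by omega) (by omega),
        w2 ((i + j + 1) / 2) j (by omega) (by omega),
        dist_triangle (w (i - 1)) (w ((i + j + 1) / 2 - 1)) (w (j - 1))]
  let V := {v : ℕ × X // v.1 ≤ N + 3 → v.2 = w (v.1 - 1)}
  let adj : V → V → Prop := fun u v => u.1.1 ≤ v.1.1 + 1 ∧ v.1.1 ≤ u.1.1 + 1 ∧ dist u.1.2 v.1.2 ≤ η
  let χ : V → V → Prop := fun u v => (min u.1.1 v.1.1 ≤ κ (u.1.2, v.1.2) ∧ u.1.1 < v.1.1) ∨
    (κ (u.1.2, v.1.2) < min u.1.1 v.1.1 ∧ ¬ b (u.1.2, v.1.2))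
  have facts : ∀ u v : V, a / 8 ≤ dist u.1.2 v.1.2 →
      ¬ (u.1.1 ≤ N + 3 ∧ v.1.1 ≤ N + 3 ∧ u.1.1 ≤ v.1.1 + 2 ∧ v.1.1 ≤ u.1.1 + 2) ∧
      (b (u.1.2, v.1.2) → u.1.1 ≠ κ (u.1.2, v.1.2) + 1) ∧
      (¬ b (u.1.2, v.1.2) → v.1.1 ≠ κ (u.1.2, v.1.2) + 1) := fun u v hf => by
    have k := κ1 (u.1.2, v.1.2)
    refine ⟨fun ⟨c1, c2, c3, c4⟩ => ?_, fun c e => (hb (u.1.2, v.1.2) hf).1 c ?_,
      fun c e => (hb (u.1.2, v.1.2) hf).2 c ?_⟩
    · rw [u.2 c1, v.2 c2] at hf
      linarith [w3 _ _ c3 c4]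
    · have := u.2 (by omega)
      rwa [e, Nat.add_sub_cancel] at this
    · have := v.2 (by omega)
      rwa [e, Nat.add_sub_cancel] at this
  have loc : ∀ u v u' v' : V, adj u u' → adj v v' → a / 8 ≤ dist u.1.2 v.1.2 →
      a / 8 ≤ dist u'.1.2 v'.1.2 → (χ u v ↔ χ u' v') := fun u v u' v' h1 h2 f f' => by
    obtain ⟨e1, e2⟩ := hl (u.1.2, v.1.2) (u'.1.2, v'.1.2) f f' h1.2.2 h2.2.2
    obtain ⟨a1, a2, a3⟩ := facts u v f
    obtain ⟨b1, b2, b3⟩ := facts u' v' f'
    have k := κ1 (u.1.2, v.1.2)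
    obtain ⟨c1, c2, -⟩ := h1
    obtain ⟨c3, c4, -⟩ := h2
    simp only [χ]
    rw [← e1, ← e2] at *
    by_cases hb : b (u.1.2, v.1.2)
    · have := a2 hb
      have := b2 hb
      simp only [hb, not_true_eq_false, and_false, or_false]
      omega
    · have := a3 hb
      have := b3 hb
      simp only [hb, not_false_eq_true, and_true]
      omega
  have rf : ∀ v : V, adj v v := fun v => ⟨by omega, by omega, by simpa using hη.le⟩
  have cst : ∀ c c' y y' : V, adj c c' → adj y y' → a / 8 + 2 * η ≤ dist c.1.2 y.1.2 →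
      Stack.Const χ c c' y y' := fun c c' y y' h1 h2 f => by
    have d1 := h1.2.2
    have d2 := h2.2.2
    have t1 := dist_triangle c.1.2 c'.1.2 y.1.2
    have t2 := dist_triangle_right c.1.2 y.1.2 y'.1.2
    have t3 := dist_triangle c.1.2 c'.1.2 y'.1.2
    exact ⟨loc _ _ _ _ h1 (rf y) (by linarith) (by linarith),
      loc _ _ _ _ (rf c) h2 (by linarith) (by linarith),
      loc _ _ _ _ h1 h2 (by linarith) (by linarith)⟩
  have fr : ∀ y y' z z' : V, adj y y' → adj z z' →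
      a / 2 ≤ dist y.1.2 z.1.2 ∨ a / 2 ≤ dist y'.1.2 z'.1.2 → a / 2 - 2 * η ≤ dist y.1.2 z.1.2 :=
    fun y y' z z' h1 h2 f => by
      rcases f with f | f
      · linarith
      · linarith [h1.2.2, h2.2.2, dist_triangle4 y'.1.2 y.1.2 z.1.2 z'.1.2, dist_comm y'.1.2 y.1.2]
  have root : ∀ v : V, v ≠ ⟨(0, w 0), fun _ => rfl⟩ ↔ 0 < v.1.1 := fun v => by
    refine ⟨fun c => Nat.pos_of_ne_zero fun e => c (Subtype.ext (Prod.ext e ?_)), ?_⟩
    · have := v.2 (by omega)
      rwa [e] at this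
    · rintro c rfl
      exact absurd c (lt_irrefl 0)
  refine Stack.Game.false (V := V) (adj := adj) (χ := χ) (ρ := ⟨(0, w 0), fun _ => rfl⟩)
    (far := fun u v => a / 2 ≤ dist u.1.2 v.1.2) (good := fun v => v.1.1 = N + 4)
    (M := N + 4 + m) ⟨rf, fun u v c => ⟨c.2.1, c.1, dist_comm u.1.2 v.1.2 ▸ c.2.2⟩, fun u => ?_,
      fun v => ?_, fun c c' y y' z z' h1 h2 h3 f => ?_, fun y y' z z' h2 h3 f => ?_,
      fun v hv => (root v).2 (by omega), fun v hv => ?_, fun γ _ K => ?_⟩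
  · simp only [χ]
    omega
  · rw [root]
    simp only [χ]
    omega
  · have f' := fr _ _ _ _ h2 h3 f
    by_cases e : a / 8 + 2 * η ≤ dist c.1.2 y.1.2
    · exact Or.inl (cst _ _ _ _ h1 h2 e)
    · exact Or.inr (cst _ _ _ _ h1 h3 (by linarith [dist_triangle_left y.1.2 z.1.2 c.1.2]))
  · exact cst _ _ _ _ h3 h2 (by linarith [fr _ _ _ _ h2 h3 f, dist_comm y.1.2 z.1.2])
  · obtain ⟨f, f0, f1, f2⟩ := hm v.1.2
    refine ⟨fun i => if i ≤ N + 3 then ⟨(i, w (i - 1)), fun _ => rfl⟩ else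
      ⟨(N + 4, f (i - (N + 4))), fun c => by omega⟩, by simp, ?_, fun i => ?_⟩
    · simp only []
      rw [if_neg (by omega)]
      exact Subtype.ext (Prod.ext hv.symm (by simpa using f1))
    · simp only []
      rcases lt_trichotomy i (N + 3) with c | rfl | c
      · rw [if_pos c.le, if_pos (Nat.succ_le_of_lt c)]
        exact ⟨by simp only []; omega, le_rfl, w2 _ _ (by omega) (by omega)⟩
      · rw [if_pos le_rfl, if_neg (by omega)]
        exact ⟨by simp only []; omega, le_rfl, by simpa [f0] using hη.le⟩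
      · rw [if_neg (by omega), if_neg (by omega), show i + 1 - (N + 4) = i - (N + 4) + 1 by omega]
        exact ⟨by simp only []; omega, by simp only []; omega, f2 _⟩
  · obtain ⟨z0, z1, h1, h2⟩ := exists_robber hN hη hC hn hcon (fun i => (γ i).1.2) K
    refine ⟨⟨(N + 4, z0), fun c => by omega⟩, ⟨(N + 4, z1), fun c => by omega⟩, h1, rfl, ?_⟩
    exact h2.lift (fun p : ℕ × X => (p.1, (⟨(N + 4, p.2), fun c => by omega⟩ : V)))
      fun p q c => ⟨c.1, c.2.1, ⟨by simp only []; omega, by simp only []; omega, c.2.2.1⟩,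
        c.2.2.2, rfl⟩

end Pool.Agent.Work.MP_8493f1_gt
end
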