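import Pool.Agent.Work.MP_8493f1_gt.Count

/-! Some label is full in both coordinates. -/

set_option autoImplicit false

namespace Pool.Agent.Work.MP_8493f1_gt

open Finset Metric Filter Topology

variable {X : Type*} [MetricSpace X]

namespace Data

variable {Λ : Type*} (D : Data X Λ)

/-- The comparison function on pairs of points of the loop. -/
noncomputable def T (j k : ℕ) : ℝ :=
  Psi (D.c j) (D.c (j + (D.n + 1))) 0 (D.c (j + k)) (D.c (j + k + (D.n + 1)))

/-- Its sign. -/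
noncomputable def s (j k : ℕ) : ZMod 2 := sg (D.T j k)

/-- The weight given by a property of the four labels. -/
noncomputable def W (Q : Λ → Λ → Λ → Λ → Prop) (j k : ℕ) : ZMod 2 :=
  ind (Q (D.L (D.c j) (D.c (j + k))) (D.L (D.c j) (D.c (j + k + (D.n + 1))))
    (D.L (D.c (j + (D.n + 1))) (D.c (j + k))) (D.L (D.c (j + (D.n + 1))) (D.c (j + k + (D.n + 1)))))

theorem T_zero (j : ℕ) : D.T j 0 ≤ -D.a := by
  have := D.far j
  simp only [T, Psi, add_zero, dist_self, min_self, dist_comm (D.c (j + (D.n + 1))) (D.c j)]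
  linarith

theorem T_top (j : ℕ) : D.a ≤ D.T j (D.n + 1) := by
  have h := D.T_zero j
  have e := D.per j
  simp only [T, add_zero] at h ⊢
  rw [e, Psi_swap]
  linarith

theorem T_vert (j k : ℕ) : |D.T j k - D.T j (k + 1)| ≤ 6 * D.η := by
  have z : ∀ x : X, dist x x ≤ D.η := fun x => by simpa using D.hη.le
  exact Psi_lip (z _) (z _) (by simpa using D.hη.le) (D.step (j + k)) (D.step' (j + k))

theorem s_zero (j : ℕ) : D.s j 0 = 0 := by
  have := D.T_zero j
  have := D.ha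
  have := D.hη
  rw [s, sg, if_neg (by linarith)]

theorem s_one (j : ℕ) : D.s j 1 = 0 := by
  have := D.T_zero j
  have := D.ha
  have := (abs_le.1 (D.T_vert j 0)).1
  rw [s, sg, if_neg (by simp only [zero_add] at this; linarith)]

theorem s_top (j : ℕ) : D.s j (D.n + 1) = 1 := by
  have := D.T_top j
  have := D.ha
  have := D.hη
  rw [s, sg, if_pos (by linarith)]

theorem s_top' (j : ℕ) : D.s j D.n = 1 := by
  have := D.T_top j
  have := D.ha
  have := (abs_le.1 (D.T_vert j D.n)).1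
  rw [s, sg, if_pos (by linarith)]

theorem s_shift (j k : ℕ) : D.s (j + (D.n + 1)) k = D.s j k := by
  have e1 : j + (D.n + 1) + k = j + k + (D.n + 1) := by omega
  simp only [s, T, e1, D.per]
  rw [Psi_swap', Psi_swap, neg_neg]

theorem W_shift (Q : Λ → Λ → Λ → Λ → Prop) (j k : ℕ) :
    D.W Q (j + (D.n + 1)) k = D.W (fun A B C E => Q E C B A) j k := by
  have e1 : j + (D.n + 1) + k = j + k + (D.n + 1) := by omega
  simp only [W, e1, D.per]

theorem T_far {j k : ℕ} (h : |D.T j k| ≤ 2 * (6 * D.η)) :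
    (D.r ≤ dist (D.c j) (D.c (j + k)) ∧ D.r ≤ dist (D.c j) (D.c (j + k + (D.n + 1)))) ∧
      D.r ≤ dist (D.c (j + (D.n + 1))) (D.c (j + k)) ∧
      D.r ≤ dist (D.c (j + (D.n + 1))) (D.c (j + k + (D.n + 1))) := by
  refine ⟨D.t_far (p' := D.c (j + (D.n + 1))) (l := 0) (by simpa using D.far j) le_rfl h,
    D.t_far (p' := D.c j) (l := 0) (by simpa [dist_comm] using D.far j) le_rfl ?_⟩
  rw [t, Psi_swap', abs_neg]
  exact h

theorem adm (Q : Λ → Λ → Λ → Λ → Prop) : Adm D.s (D.W Q) := by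
  intro j k
  have z : ∀ x : X, dist x x ≤ D.η := fun x => by simpa using D.hη.le
  have z' : |(0 : ℝ) - 0| ≤ D.η := by simpa using D.hη.le
  have e1 : j + 1 + k = j + (k + 1) := by omega
  have e2 : j + 1 + (k + 1) = j + (k + 1) + 1 := by omega
  have d3 : |D.T j (k + 1) - D.T (j + 1) k| ≤ 6 * D.η := by
    simp only [T, e1]
    exact Psi_lip (D.step j) (D.step' j) z' (z _) (z _)
  have d4 : |D.T j (k + 1) - D.T (j + 1) (k + 1)| ≤ 6 * D.η := by
    simp only [T, e2]
    exact Psi_lip (D.step j) (D.step' j) z' (D.step _) (D.step' _)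
  rcases ws_four (ws_sg _) (ws_sg _) (ws_sg _) (ws_sg _) (D.T_vert j (k + 1)) d3 d4 with
    h | ⟨h1, h2, h3, h4⟩
  · exact Or.inl h
  right
  obtain ⟨⟨a1, a2⟩, a3, a4⟩ := D.T_far h1
  obtain ⟨⟨b1, b2⟩, b3, b4⟩ := D.T_far h2
  obtain ⟨⟨c1, c2⟩, c3, c4⟩ := D.T_far h3
  obtain ⟨⟨f1, f2⟩, f3, f4⟩ := D.T_far h4
  have s1 := D.step (j + (k + 1))
  have s2 := D.step' (j + (k + 1))
  rw [e1] at c1 c2 c3 c4
  rw [e2] at f1 f2 f3 f4
  refine ⟨?_, ?_, ?_⟩
  · simp only [W]
    rw [D.lab _ _ _ _ a1 b1 (z _) s1, D.lab _ _ _ _ a2 b2 (z _) s2, D.lab _ _ _ _ a3 b3 (z _) s1,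
      D.lab _ _ _ _ a4 b4 (z _) s2]
  · simp only [W, e1]
    rw [D.lab _ _ _ _ a1 c1 (D.step j) (z _), D.lab _ _ _ _ a2 c2 (D.step j) (z _),
      D.lab _ _ _ _ a3 c3 (D.step' j) (z _), D.lab _ _ _ _ a4 c4 (D.step' j) (z _)]
  · simp only [W, e2]
    rw [D.lab _ _ _ _ a1 f1 (D.step j) s1, D.lab _ _ _ _ a2 f2 (D.step j) s2,
      D.lab _ _ _ _ a3 f3 (D.step' j) s1, D.lab _ _ _ _ a4 f4 (D.step' j) s2]

/-- The mod 2 number of essential interfaces whose labels have a given property. -/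
noncomputable def m (Q : Λ → Λ → Λ → Λ → Prop) : ZMod 2 := chi D.s (D.W Q) 0 (D.n + 1)

theorem m_split (Q S : Λ → Λ → Λ → Λ → Prop) :
    D.m Q = D.m (fun A B C E => Q A B C E ∧ S A B C E) +
      D.m (fun A B C E => Q A B C E ∧ ¬S A B C E) := by
  simp only [m, chi, ← sum_add_distrib, ← mul_add, W, ← ind_split]

theorem m_true : D.m (fun _ _ _ _ => True) = 1 := by
  have key : ∀ k, chi D.s (D.W fun _ _ _ _ => True) 0 k = D.s 0 k := by
    intro k
    induction k with
    | zero => simp [chi, D.s_zero]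
    | succ k ih => rw [chi_succ, ih, W, ind_true trivial, mul_one, ← add_assoc, z2_self, zero_add]
  rw [m, key, D.s_top]

theorem m_disj {Q : Λ → Λ → Λ → Λ → Prop} (h : ∀ A B C E, Q A B C E → ¬Q E C B A) :
    D.m Q = 0 := by
  refine chi_disjoint D.s_zero D.s_one D.s_top' D.s_top (D.adm Q) D.s_shift (fun j k => ?_)
    fun j k => ?_
  · rw [D.W_shift, D.W_shift]
  · rw [D.W_shift]
    simp only [W]
    by_cases hq : Q (D.L (D.c j) (D.c (j + k))) (D.L (D.c j) (D.c (j + k + (D.n + 1))))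
      (D.L (D.c (j + (D.n + 1))) (D.c (j + k)))
      (D.L (D.c (j + (D.n + 1))) (D.c (j + k + (D.n + 1))))
    · rw [ind_false (h _ _ _ _ hq), mul_zero]
    · rw [ind_false hq, zero_mul]

theorem m_vert (R : Λ → Λ → Prop) :
    D.m (fun A B _ _ => R A B) = D.cnt R (D.c 0) (D.c (D.n + 1)) 0 := by
  have key : ∀ k ≤ D.n + 1, D.al (D.c 0) (D.c (D.n + 1)) 0 k = D.s 0 k := by
    intro k hk
    have e : ∀ k, sg (D.t (D.c 0) (D.c (D.n + 1)) 0 k) = D.s 0 k := fun k => by
      simp only [s, T, t, zero_add]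
    unfold al
    split_ifs with h
    · exact e k
    · rw [e, D.s_zero, show k = D.n + 1 by omega, D.s_top, add_zero]
  unfold m chi cnt
  refine sum_congr rfl fun k hk => ?_
  have hk' := mem_range.1 hk
  rw [key k hk'.le, key (k + 1) hk']
  simp only [W, u, zero_add]

theorem m_horiz (R : Λ → Λ → Prop) :
    D.m (fun A _ C _ => R A C) = D.tr.cnt R (D.c (D.n + 1)) (D.c 0) 0 := by
  have p0 : D.c (D.n + 1 + (D.n + 1)) = D.c 0 := by simpa using D.per 0
  have key : ∀ k ≤ D.n + 1, D.tr.al (D.c (D.n + 1)) (D.c 0) 0 k = D.s k (D.n + 1 - k) := by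
    intro k hk
    have e : ∀ k ≤ D.n + 1, sg (D.tr.t (D.c (D.n + 1)) (D.c 0) 0 k) = D.s k (D.n + 1 - k) :=
      fun k hk => by
        have e1 : k + (D.n + 1 - k) = D.n + 1 := by omega
        simp only [s, T, t, e1, p0]
        rw [Psi_comm]
        rfl
    unfold al
    split_ifs with h
    · exact e k hk
    · have hk2 : k = D.n + 1 := by
        have : D.tr.n = D.n := rfl
        omega
      rw [e 0 (by omega), Nat.sub_zero, D.s_top, hk2, Nat.sub_self, D.s_zero, z2_self]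
  rw [m, chi_hsum D.s_zero D.s_one (D.adm _)]
  refine sum_congr rfl fun k hk => ?_
  have hk' : k < D.n + 1 := mem_range.1 hk
  have e1 : k + (D.n + 1 - k) = D.n + 1 := by omega
  rw [key k hk'.le, key (k + 1) hk']
  simp only [W, u, e1]
  rfl

theorem exists_full [PreconnectedSpace X] [Finite Λ] : ∃ A, D.Full A ∧ D.tr.Full A := by
  by_contra hcon
  have hc : ∀ A, D.Full A → ¬D.tr.Full A := fun A h1 h2 => hcon ⟨A, h1, h2⟩
  have f0 : D.a ≤ dist (D.c 0) (D.c (D.n + 1)) := by simpa using D.far 0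
  have h1 : D.m (fun A B _ _ => D.Full A ∧ D.Full B) = 1 := by
    have := D.m_split (fun _ _ _ _ => True) fun A B _ _ => D.Full A ∧ D.Full B
    rw [D.m_true, D.m_vert fun A B => True ∧ ¬(D.Full A ∧ D.Full B),
      D.cnt_bad f0 (by tauto) (by tauto), add_zero] at this
    simpa using this.symm
  have h2 : D.m (fun A _ C _ => D.Full A ∧ D.Full C) = 0 := by
    rw [D.m_horiz fun A C => D.Full A ∧ D.Full C]
    exact D.tr.cnt_bad (by rwa [dist_comm] at f0) (by tauto) fun A B h => Or.inl (hc A h.1)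
  rw [D.m_split _ fun _ _ C E => D.Full C ∧ D.Full E, D.m_disj (Q := fun A B C E =>
    (D.Full A ∧ D.Full B) ∧ ¬(D.Full C ∧ D.Full E)) (by tauto), add_zero] at h1
  rw [D.m_split _ fun _ B _ E => D.Full B ∧ D.Full E, D.m_disj (Q := fun A B C E =>
    (D.Full A ∧ D.Full C) ∧ ¬(D.Full B ∧ D.Full E)) (by tauto), add_zero] at h2
  have e : (fun A B C E => (D.Full A ∧ D.Full B) ∧ D.Full C ∧ D.Full E) =
      fun A B C E => (D.Full A ∧ D.Full C) ∧ D.Full B ∧ D.Full E := by
    funext A B C E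
    exact propext (by tauto)
  rw [e, h2] at h1
  exact absurd h1 (by decide)

end Data

end Pool.Agent.Work.MP_8493f1_gt
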