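import Mathlib.Data.ZMod.Basic
import Mathlib.Algebra.BigOperators.Intervals
import Mathlib.Algebra.CharP.Two
import Mathlib.Tactic

/-! Mod 2 counting of sign changes on a band and on a strip. -/

set_option autoImplicit false

namespace Pool.Agent.Work.MP_8493f1_gt

open Finset

theorem z2_cases (x : ZMod 2) : x = 0 ∨ x = 1 := by
  revert x; decide

theorem z2_self (x : ZMod 2) : x + x = 0 := by
  revert x; decide

/-- Strip lemma: two neighbouring sign sequences have the same weighted count. -/
theorem strip (n : ℕ) (α β u v : ℕ → ZMod 2)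
    (h : ∀ k < n, (α k = α (k + 1) ∧ α k = β k ∧ α k = β (k + 1)) ∨
      (u k = u (k + 1) ∧ u k = v k))
    (he : α n + β n = α 0 + β 0) (hu : u n = u 0) :
    ∑ k ∈ range n, (α k + α (k + 1)) * u k = ∑ k ∈ range n, (β k + β (k + 1)) * v k := by
  have key : ∀ m ≤ n, ∑ k ∈ range m, (α k + α (k + 1)) * u k =
      ∑ k ∈ range m, (β k + β (k + 1)) * v k + (α 0 + β 0) * u 0 + (α m + β m) * u m := by
    intro m
    induction m with
    | zero => intro _; simp only [range_zero, sum_empty, zero_add]; exact (z2_self _).symm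
    | succ m ih =>
      intro hm
      rw [sum_range_succ, sum_range_succ, ih (by omega)]
      rcases h m (by omega) with ⟨h1, h2, h3⟩ | ⟨h1, h2⟩
      · rw [← h1, ← h2, ← h3, z2_self]; ring
      · rw [← h1, ← h2]
        have h2' : (2 : ZMod 2) = 0 := by decide
        linear_combination (α m * u m - β (m + 1) * u m) * h2'
  rw [key n le_rfl, he, hu, add_assoc, z2_self, add_zero]

/-- A weight is admissible if it is constant on every unit square on which the sign is not. -/
def Adm (s w : ℕ → ℕ → ZMod 2) : Prop :=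
  ∀ j k, (s j (k + 1) = s j (k + 2) ∧ s j (k + 1) = s (j + 1) k ∧ s j (k + 1) = s (j + 1) (k + 1)) ∨
    (w j (k + 1) = w j (k + 2) ∧ w j (k + 1) = w (j + 1) k ∧ w j (k + 1) = w (j + 1) (k + 1))

/-- Weighted number of sign changes on a vertical segment. -/
def chi (s w : ℕ → ℕ → ZMod 2) (j k : ℕ) : ZMod 2 :=
  ∑ l ∈ range k, (s j l + s j (l + 1)) * w j l

theorem chi_succ (s w : ℕ → ℕ → ZMod 2) (j k : ℕ) :
    chi s w j (k + 1) = chi s w j k + (s j k + s j (k + 1)) * w j k := by
  simp [chi, sum_range_succ]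

theorem chi_horiz {s w : ℕ → ℕ → ZMod 2} (h0 : ∀ j, s j 0 = 0) (h1 : ∀ j, s j 1 = 0)
    (hw : Adm s w) (j k : ℕ) :
    chi s w (j + 1) k = chi s w j (k + 1) + (s j (k + 1) + s (j + 1) k) * w j (k + 1) := by
  induction k with
  | zero => simp [chi, h0, h1]
  | succ k ih =>
    rw [chi_succ, ih, chi_succ s w j (k + 1)]
    have h2' : (2 : ZMod 2) = 0 := by decide
    rcases hw j k with ⟨a1, a2, a3⟩ | ⟨a1, a2, a3⟩
    · rw [← a1, ← a2, ← a3, z2_self]; ring
    · rw [← a1, ← a2]
      linear_combination (s (j + 1) k * w j (k + 1) - s j (k + 2) * w j (k + 1)) * h2'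

theorem chi_top {s w : ℕ → ℕ → ZMod 2} {n : ℕ} (h0 : ∀ j, s j 0 = 0) (h1 : ∀ j, s j 1 = 0)
    (hn : ∀ j, s j n = 1) (hn' : ∀ j, s j (n + 1) = 1) (hw : Adm s w) (j : ℕ) :
    chi s w j (n + 1) = chi s w 0 (n + 1) := by
  induction j with
  | zero => rfl
  | succ j ih =>
    rw [chi_succ, chi_horiz h0 h1 hw, ih, hn, hn', hn', z2_self]; ring

theorem chi_hsum {s w : ℕ → ℕ → ZMod 2} (h0 : ∀ j, s j 0 = 0) (h1 : ∀ j, s j 1 = 0)
    (hw : Adm s w) (N : ℕ) :
    chi s w 0 N = ∑ l ∈ range N, (s l (N - l) + s (l + 1) (N - (l + 1))) * w l (N - l) := by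
  have key : ∀ m ≤ N, chi s w m (N - m) = chi s w 0 N +
      ∑ l ∈ range m, (s l (N - l) + s (l + 1) (N - (l + 1))) * w l (N - l) := by
    intro m
    induction m with
    | zero => simp
    | succ m ih =>
      intro hm
      have e : N - m = N - (m + 1) + 1 := by omega
      rw [chi_horiz h0 h1 hw, sum_range_succ, ← e, ih (by omega)]
      ring
  have := key N le_rfl
  rw [Nat.sub_self] at this
  have h3 : chi s w N 0 = 0 := by simp [chi]
  rw [h3] at this
  have h2' : (2 : ZMod 2) = 0 := by decide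
  linear_combination -this -
    (∑ l ∈ range N, (s l (N - l) + s (l + 1) (N - (l + 1))) * w l (N - l)) * h2'

/-- A weight disjoint from its half turn has even count. -/
theorem chi_disjoint {s w : ℕ → ℕ → ZMod 2} {n : ℕ} (h0 : ∀ j, s j 0 = 0) (h1 : ∀ j, s j 1 = 0)
    (hn : ∀ j, s j n = 1) (hn' : ∀ j, s j (n + 1) = 1) (hw : Adm s w)
    (hs : ∀ j k, s (j + (n + 1)) k = s j k)
    (hp : ∀ j k, w (j + (n + 1) + (n + 1)) k = w j k)
    (hd : ∀ j k, w j k * w (j + (n + 1)) k = 0) :
    chi s w 0 (n + 1) = 0 := by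
  set N := n + 1 with hN
  have h2' : (2 : ZMod 2) = 0 := by decide
  let w1 : ℕ → ℕ → ZMod 2 := fun j k => w j k * chi s w (j + N) k
  have hper : ∀ j k, chi s w (j + N + N) k = chi s w j k := by
    intro j k
    simp only [chi, hp, hs]
  have hw1 : Adm s w1 := by
    intro j k
    rcases hw j k with a | ⟨a1, a2, a3⟩
    · exact Or.inl a
    · right
      rcases z2_cases (w j (k + 1)) with z | z
      · simp only [w1, ← a1, ← a2, ← a3, z, zero_mul, and_self]
      · have b1 : w (j + N) (k + 1) = 0 := by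
          have := hd j (k + 1); rwa [z, one_mul] at this
        have b2 : w (j + 1 + N) k = 0 := by
          have := hd (j + 1) k; rwa [← a2, z, one_mul] at this
        have e : j + 1 + N = j + N + 1 := by omega
        have c2 : chi s w (j + 1 + N) k = chi s w (j + N) (k + 1) := by
          rw [e, chi_horiz h0 h1 hw, b1]; ring
        refine ⟨?_, ?_, ?_⟩
        · simp only [w1]
          rw [← a1, chi_succ s w (j + N) (k + 1), b1]; ring
        · simp only [w1]
          rw [← a2, c2]
        · simp only [w1]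
          rw [← a3, chi_succ s w (j + 1 + N) k, b2, c2]; ring
  have hz : ∀ k, chi s w 0 k + chi s w1 0 k + chi s w1 N k =
      chi s w 0 k * (1 + chi s w N k) := by
    intro k
    induction k with
    | zero => simp [chi]
    | succ k ih =>
      rw [chi_succ, chi_succ s w1 0, chi_succ s w1 N, chi_succ s w N]
      have e1 : s N k = s 0 k := by simpa using hs 0 k
      have e2 : s N (k + 1) = s 0 (k + 1) := by simpa using hs 0 (k + 1)
      have e3 : chi s w (N + N) k = chi s w 0 k := by simpa using hper 0 k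
      have e4 : w 0 k * w N k = 0 := by simpa using hd 0 k
      simp only [w1, zero_add, e1, e2, e3]
      linear_combination ih - (s 0 k + s 0 (k + 1)) ^ 2 * e4
  have := hz N
  rw [chi_top h0 h1 hn hn' hw1 N, chi_top h0 h1 hn hn' hw N, add_assoc, z2_self, add_zero] at this
  rcases z2_cases (chi s w 0 (n + 1)) with z | z
  · exact z
  · rw [z] at this
    exact absurd this (by decide)

end Pool.Agent.Work.MP_8493f1_gt
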