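import Mathlib.Topology.MetricSpace.Thickening
import Mathlib.Topology.Separation.Regular
import Mathlib.Topology.Order.Compact
import Pool.Agent.Work.MP_8493f1_gt.Band

/-! The surjective span is at least half the symmetric span. -/

set_option autoImplicit false

namespace Pool.Agent.Work.MP_8493f1_gt

open Set Metric Filter Topology

theorem sep_pos {M : Type*} [MetricSpace M] {A B : Set M} (hA : IsCompact A) (hB : IsClosed B)
    (h : Disjoint A B) : ∃ δ > 0, ∀ a ∈ A, ∀ b ∈ B, δ ≤ dist a b := by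
  obtain ⟨δ, hδ, hs⟩ := hA.exists_thickening_subset_open hB.isOpen_compl h.subset_compl_right
  refine ⟨δ, hδ, fun a ha b hb => not_lt.1 fun hlt => hs ?_ hb⟩
  exact mem_thickening_iff.2 ⟨a, ha, by rwa [dist_comm]⟩

theorem exists_piece {M : Type*} [MetricSpace M] {Z F : Set M} (hZ : IsCompact Z)
    (hF : IsClosed F) {z : M} (hz : z ∈ Z) (h : Disjoint (connectedComponentIn Z z) F) :
    ∃ A : Set M, z ∈ A ∧ ∃ δ > 0, ∀ a ∈ A, ∀ b, (b ∈ Z ∧ b ∉ A) ∨ b ∈ F → δ ≤ dist a b := by
  have : CompactSpace Z := isCompact_iff_compactSpace.1 hZ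
  have hK : IsCompact ((↑) ⁻¹' F : Set Z) := (hF.preimage continuous_subtype_val).isCompact
  obtain ⟨u, hu⟩ := hK.elim_finite_subfamily_closed
    (fun s : {s : Set Z // IsClopen s ∧ (⟨z, hz⟩ : Z) ∈ s} => (s : Set Z)) (fun s => s.2.1.1) (by
      rw [← connectedComponent_eq_iInter_isClopen, eq_empty_iff_forall_notMem]
      rintro w ⟨hw1, hw2⟩
      rw [connectedComponentIn_eq_image hz] at h
      exact disjoint_left.1 h (mem_image_of_mem _ hw2) hw1)
  set U : Set Z := ⋂ s ∈ u, (s : Set Z) with hU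
  have hUc : IsClopen U := isClopen_biInter_finset fun s _ => s.2.1
  have h1 : IsCompact ((↑) '' U : Set M) := hUc.1.isCompact.image continuous_subtype_val
  have h2 : IsCompact ((↑) '' Uᶜ : Set M) := hUc.compl.1.isCompact.image continuous_subtype_val
  obtain ⟨δ, hδ, hs⟩ := sep_pos h1 (h2.isClosed.union hF) (by
    rw [disjoint_left]
    rintro _ ⟨w, hw, rfl⟩ (⟨w', hw', e⟩ | hb)
    · exact hw' (Subtype.ext e ▸ hw)
    · exact (eq_empty_iff_forall_notMem.1 hu) w ⟨hb, hw⟩)
  refine ⟨(↑) '' U, ⟨⟨z, hz⟩, mem_iInter₂.2 fun s _ => s.2.2, rfl⟩, δ, hδ, fun a ha b hb => ?_⟩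
  refine hs a ha b ?_
  rcases hb with ⟨hb1, hb2⟩ | hb
  · exact Or.inl ⟨⟨b, hb1⟩, fun hc => hb2 ⟨_, hc, rfl⟩, rfl⟩
  · exact Or.inr hb

/-- If every component of a compact set misses one of the closed sets `F i`, a neighbourhood
of the set has a finite, uniformly locally constant labelling each of whose classes misses
one of them. -/
theorem exists_labels {M ι : Type*} [MetricSpace M] {Z : Set M} (hZ : IsCompact Z)
    {F : ι → Set M} (hF : ∀ i, IsClosed (F i))
    (h : ∀ z ∈ Z, ∃ i, Disjoint (connectedComponentIn Z z) (F i)) :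
    ∃ δ > 0, ∃ (t : Finset M) (ℓ : M → t → Prop),
      (∀ x ∈ thickening δ Z, ∀ y ∈ thickening δ Z, dist x y ≤ δ → ℓ x = ℓ y) ∧
      ∀ x ∈ thickening δ Z, ∃ i, ∀ y ∈ thickening δ Z, ℓ y = ℓ x → y ∉ F i := by
  classical
  have h' : ∀ z ∈ Z, ∃ (i : ι) (A : Set M), z ∈ A ∧ ∃ δ > 0, ∀ a ∈ A, ∀ b,
      (b ∈ Z ∧ b ∉ A) ∨ b ∈ F i → δ ≤ dist a b := fun z hz => by
    obtain ⟨i, hi⟩ := h z hz
    exact ⟨i, exists_piece hZ (hF i) hz hi⟩
  choose! i A hA d hd hs using h'
  obtain ⟨t, ht, hc⟩ := hZ.elim_nhds_subcover (fun z => ball z (d z))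
    fun z hz => ball_mem_nhds z (hd z hz)
  obtain ⟨η, hη, hle⟩ : ∃ η > 0, ∀ z ∈ t, η ≤ d z := by
    clear hc
    induction t using Finset.induction_on with
    | empty => exact ⟨1, one_pos, by simp⟩
    | insert z t _ ih =>
      obtain ⟨η, h1, h2⟩ := ih fun x hx => ht x (Finset.mem_insert_of_mem hx)
      refine ⟨min η (d z), lt_min h1 (hd z (ht z (Finset.mem_insert_self _ _))), fun x hx => ?_⟩
      rcases Finset.mem_insert.1 hx with rfl | hx
      · exact min_le_right _ _
      · exact (min_le_left _ _).trans (h2 x hx)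
  have hp : ∀ x ∈ thickening (η / 3) Z, ∃ z ∈ Z, dist x z < η / 3 := fun x hx =>
    mem_thickening_iff.1 hx
  choose! pt hpt hpd using hp
  refine ⟨η / 3, by positivity, t, fun x z => pt x ∈ A z, fun x hx y hy hxy => ?_, fun x hx => ?_⟩
  · have hlt : dist (pt x) (pt y) < η := by
      have := dist_triangle4 (pt x) x y (pt y)
      have := hpd x hx
      have := hpd y hy
      rw [dist_comm (pt x) x] at *
      linarith
    funext z
    have hz := ht z z.2
    have := hle z z.2
    refine propext ⟨fun h1 => by_contra fun h2 => ?_, fun h1 => by_contra fun h2 => ?_⟩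
    · linarith [hs z hz _ h1 _ (Or.inl ⟨hpt y hy, h2⟩)]
    · linarith [hs z hz _ h1 _ (Or.inl ⟨hpt x hx, h2⟩), dist_comm (pt x) (pt y)]
  · obtain ⟨z, hz, hb⟩ := mem_iUnion₂.1 (hc (hpt x hx))
    have hz' := ht z hz
    have h1 : pt x ∈ A z := by
      by_contra h2
      have := hs z hz' _ (hA z hz') _ (Or.inl ⟨hpt x hx, h2⟩)
      rw [mem_ball, dist_comm] at hb
      linarith
    refine ⟨i z hz', fun y hy e hyF => ?_⟩
    have h2 : pt y ∈ A z := (congrFun e ⟨z, hz⟩).mpr h1
    have := hs z hz' _ h2 _ (Or.inr hyF)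
    have := hpd y hy
    have := hle z hz
    linarith [dist_comm y (pt y)]

theorem exists_chain {M : Type*} [MetricSpace M] {C : Set M} (hC : IsPreconnected C) {x y : M}
    (hx : x ∈ C) (hy : y ∈ C) {η : ℝ} (hη : 0 < η) :
    ∃ (n : ℕ) (f : ℕ → M), f 0 = x ∧ f (n + 1) = y ∧
      ∀ k ≤ n, f k ∈ C ∧ dist (f k) (f (k + 1)) ≤ η := by
  have h : Relation.ReflTransGen (fun a b => a ∈ C ∧ dist a b ≤ η) x y := by
    refine hC.induction₂' _ (fun a ha => ?_) (fun _ _ _ _ _ _ => Relation.ReflTransGen.trans) hx hy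
    filter_upwards [self_mem_nhdsWithin, mem_nhdsWithin_of_mem_nhds (closedBall_mem_nhds a hη)]
      with b hb hd
    exact ⟨.single ⟨ha, by rwa [dist_comm]⟩, .single ⟨hb, hd⟩⟩
  clear hy
  induction h with
  | refl => exact ⟨0, fun _ => x, rfl, rfl, fun _ _ => ⟨hx, by simpa using hη.le⟩⟩
  | @tail b c _ hbc ih =>
    obtain ⟨n, f, h0, h1, h2⟩ := ih
    refine ⟨n + 1, fun k => if k ≤ n + 1 then f k else c, by simpa using h0, by simp,
      fun k hk => ?_⟩
    rcases hk.lt_or_eq with hk | rfl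
    · simpa [hk.le, Nat.succ_le_of_lt hk] using h2 k (by omega)
    · simpa [h1] using hbc

variable {X : Type*} [MetricSpace X]

theorem exists_loop {C : Set (X × X)} (hC : IsPreconnected C) {x y : X} (h1 : (x, y) ∈ C)
    (h2 : (y, x) ∈ C) {a : ℝ} (ha : ∀ p ∈ C, a ≤ dist p.1 p.2) {η : ℝ} (hη : 0 < η) :
    ∃ (n : ℕ) (c : ℕ → X), (∀ i, c (i + (n + 1) + (n + 1)) = c i) ∧
      (∀ i, dist (c i) (c (i + 1)) ≤ η) ∧ ∀ i, a ≤ dist (c i) (c (i + (n + 1))) := by
  obtain ⟨n, f, f0, f1, hf⟩ := exists_chain hC h1 h2 hη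
  let g : ℕ → X × X := fun k => Prod.swap^[k / (n + 1)] (f (k % (n + 1)))
  have g1 : ∀ k, g (k + (n + 1)) = (g k).swap := fun k => by
    simp only [g, Nat.add_div_right k (Nat.succ_pos n), Nat.add_mod_right,
      Function.iterate_succ_apply']
  have g2 : ∀ k ≤ n + 1, g k = f k := fun k hk => by
    rcases hk.lt_or_eq with hk | rfl
    · simp only [g, Nat.div_eq_of_lt hk, Nat.mod_eq_of_lt hk, Function.iterate_zero, id]
    · simp [g, f0, f1]
  have g3 : ∀ k, a ≤ dist (g k).1 (g k).2 ∧ dist (g k) (g (k + 1)) ≤ η := fun k => by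
    induction k using Nat.strong_induction_on with
    | _ k ih =>
      by_cases hk : k ≤ n
      · rw [g2 k (by omega), g2 (k + 1) (by omega)]
        exact ⟨ha _ (hf k hk).1, (hf k hk).2⟩
      · obtain ⟨j, rfl⟩ : ∃ j, k = j + (n + 1) := ⟨k - (n + 1), by omega⟩
        have := ih j (by omega)
        rw [show j + (n + 1) + 1 = j + 1 + (n + 1) by omega, g1, g1]
        refine ⟨by simpa [dist_comm] using this.1, ?_⟩
        simpa [Prod.dist_eq, and_comm] using this.2
  refine ⟨n, fun k => (g k).1, fun i => by simp only [g1, Prod.swap_swap], fun i => ?_, fun i => ?_⟩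
  · exact (le_max_left _ _).trans (g3 i).2
  · simpa only [g1, Prod.fst_swap] using (g3 i).1

/-- A connected set of pairs at distance at least `a` that contains a pair and its flip gives a
connected set of pairs at distance at least `a / 2` with both projections onto. -/
theorem surj_of_flip [CompactSpace X] [ConnectedSpace X] {C : Set (X × X)}
    (hC : IsPreconnected C) {x y : X} (h1 : (x, y) ∈ C) (h2 : (y, x) ∈ C) {a : ℝ}
    (ha : ∀ p ∈ C, a ≤ dist p.1 p.2) :
    ∃ D : Set (X × X), IsConnected D ∧ Prod.fst '' D = univ ∧ Prod.snd '' D = univ ∧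
      ∀ p ∈ D, a / 2 ≤ dist p.1 p.2 := by
  rcases le_or_gt a 0 with h0 | h0
  · exact ⟨univ, isConnected_univ, by simp, by simp,
      fun p _ => by linarith [dist_nonneg (x := p.1) (y := p.2)]⟩
  by_contra hcon
  let Z : Set (X × X) := {p | a / 2 ≤ dist p.1 p.2}
  have hd : Continuous fun p : X × X => dist p.1 p.2 := by fun_prop
  have hZ : IsCompact Z := (isClosed_le continuous_const hd).isCompact
  let F : X ⊕ X → Set (X × X) := Sum.elim (fun x => {p | p.1 = x}) fun y => {p | p.2 = y}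
  have hF : ∀ i, IsClosed (F i) := by
    rintro (x | y)
    · exact isClosed_eq continuous_fst continuous_const
    · exact isClosed_eq continuous_snd continuous_const
  obtain ⟨δ, hδ, t, ℓ, l1, l2⟩ := exists_labels hZ hF fun z hz => by
    by_contra hn
    push Not at hn
    refine hcon ⟨connectedComponentIn Z z, isConnected_connectedComponentIn_iff.2 hz,
      eq_univ_of_forall fun x => ?_, eq_univ_of_forall fun y => ?_,
      fun p hp => connectedComponentIn_subset Z z hp⟩
    · obtain ⟨p, hp, e⟩ := not_disjoint_iff.1 (hn (Sum.inl x))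
      exact ⟨p, hp, e⟩
    · obtain ⟨p, hp, e⟩ := not_disjoint_iff.1 (hn (Sum.inr y))
      exact ⟨p, hp, e⟩
  obtain ⟨r, hr, hrZ⟩ : ∃ r < a / 2, ∀ x y : X, r ≤ dist x y → (x, y) ∈ thickening δ Z := by
    rcases (thickening δ Z)ᶜ.eq_empty_or_nonempty with he | hne
    · exact ⟨0, by linarith, fun x y _ => by_contra fun hn => (he ▸ hn : (x, y) ∈ (∅ : Set _))⟩
    · obtain ⟨q, hq, hmax⟩ :=
        isOpen_thickening.isClosed_compl.isCompact.exists_isMaxOn hne hd.continuousOn
      have hq' : dist q.1 q.2 < a / 2 :=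
        not_le.1 fun hle => hq (self_subset_thickening hδ Z hle)
      refine ⟨(dist q.1 q.2 + a / 2) / 2, by linarith, fun x y hxy => by_contra fun hn => ?_⟩
      have : dist x y ≤ dist q.1 q.2 := hmax hn
      linarith
  let η := min δ (min ((a - 2 * r) / 12) (a / 12))
  have hη : 0 < η := lt_min hδ (lt_min (by linarith) (by linarith))
  have e1 : η ≤ δ := min_le_left _ _
  have e2 : η ≤ (a - 2 * r) / 12 := (min_le_right _ _).trans (min_le_left _ _)
  have e3 : η ≤ a / 12 := (min_le_right _ _).trans (min_le_right _ _)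
  obtain ⟨n, c, c1, c2, c3⟩ := exists_loop hC h1 h2 ha hη
  let D : Data X (t → Prop) :=
    { n := n, c := c, a := a, η := η, r := r, L := fun x y => ℓ (x, y), hη := hη,
      ha := by linarith, hr := by linarith, per := c1, step := c2, far := c3,
      lab := fun x y x' y' a1 a2 a3 a4 => l1 _ (hrZ _ _ a1) _ (hrZ _ _ a2)
        (max_le (a3.trans e1) (a4.trans e1)) }
  obtain ⟨A, hA1, hA2⟩ := D.exists_full
  obtain ⟨y0, b1, b2⟩ := hA1 x
  obtain ⟨i, hi⟩ := l2 _ (hrZ _ _ b1)
  rcases i with u | v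
  · obtain ⟨w, b3, b4⟩ := hA1 u
    exact hi _ (hrZ _ _ b3) (b4.trans b2.symm) rfl
  · obtain ⟨w, b3, b4⟩ := hA2 v
    exact hi _ (hrZ w v (by rwa [dist_comm])) (b4.trans b2.symm) rfl

end Pool.Agent.Work.MP_8493f1_gt
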