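import Mathlib.Order.Zorn
import Mathlib.Order.Preorder.Finite
import Pool.Agent.Work.MP_8493f1_gt.Sym

/-! Consequences of zero symmetric span: weak confluence, unicoherence, no triods. -/

set_option autoImplicit false

namespace Pool.Agent.Work.MP_8493f1_gt

open Set Metric Filter Topology

theorem compact_component {M : Type*} [MetricSpace M] {Z : Set M} (hZ : IsCompact Z) {z : M}
    (hz : z ∈ Z) : IsCompact (connectedComponentIn Z z) := by
  have : CompactSpace Z := isCompact_iff_compactSpace.1 hZ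
  rw [connectedComponentIn_eq_image hz]
  exact isClosed_connectedComponent.isCompact.image continuous_subtype_val

theorem fiber_conn {A B : Type*} [MetricSpace A] [MetricSpace B] {S : Set (A × B)}
    (hS : IsCompact S) (h1 : IsPreconnected (Prod.fst '' S))
    (h2 : ∀ a, IsPreconnected {b | (a, b) ∈ S}) : IsPreconnected S := by
  rw [isPreconnected_iff_subset_of_fully_disjoint_closed hS.isClosed]
  intro u v hu hv hs huv
  have key : ∀ p ∈ S, ∀ q ∈ S, p.1 = q.1 → p ∈ u → q ∈ v → False := by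
    rintro ⟨a, b⟩ hp ⟨a', b'⟩ hq (rfl : a = a') hpu hqv
    have hc : Continuous fun b : B => (a, b) := by fun_prop
    rcases isPreconnected_iff_subset_of_disjoint_closed.1 (h2 a) _ _ (hu.preimage hc)
      (hv.preimage hc) (fun b hb => hs hb) (eq_empty_iff_forall_notMem.2
        fun b hb => disjoint_left.1 huv hb.2.1 hb.2.2) with h | h
    · exact disjoint_left.1 huv (h hq) hqv
    · exact disjoint_left.1 huv hpu (h hp)
  rcases isPreconnected_iff_subset_of_disjoint_closed.1 h1 _ _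
    ((hS.inter_right hu).image continuous_fst).isClosed
    ((hS.inter_right hv).image continuous_fst).isClosed
    (by
      rintro _ ⟨p, hp, rfl⟩
      rcases hs hp with h | h
      · exact Or.inl ⟨p, ⟨hp, h⟩, rfl⟩
      · exact Or.inr ⟨p, ⟨hp, h⟩, rfl⟩)
    (eq_empty_iff_forall_notMem.2 (by
      rintro a ⟨-, ⟨p, hp, e1⟩, ⟨q, hq, e2⟩⟩
      exact key p hp.1 q hq.1 (e1.trans e2.symm) hp.2 hq.2)) with h | h
  · left
    intro q hq
    obtain ⟨p, hp, e⟩ := h ⟨q, hq, rfl⟩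
    exact (hs hq).resolve_right (key p hp.1 q hq e hp.2)
  · right
    intro p hp
    obtain ⟨q, hq, e⟩ := h ⟨p, hp, rfl⟩
    exact (hs hp).resolve_left fun hpu => key p hp q hq.1 e.symm hpu hq.2

/-- No continuum of pairs of distinct points contains a pair and its flip. -/
def NoFlip (X : Type*) [MetricSpace X] : Prop :=
  ∀ S : Set (X × X), IsCompact S → IsPreconnected S → (∀ p ∈ S, p.1 ≠ p.2) →
    ∀ x y, (x, y) ∈ S → (y, x) ∈ S → False

variable {X : Type*} [MetricSpace X]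

theorem exists_far {S : Set (X × X)} (hS : IsCompact S) (h : ∀ p ∈ S, p.1 ≠ p.2) :
    ∃ a > 0, ∀ p ∈ S, a ≤ dist p.1 p.2 := by
  rcases S.eq_empty_or_nonempty with rfl | hne
  · exact ⟨1, one_pos, by simp⟩
  · have hd : Continuous fun p : X × X => dist p.1 p.2 := by fun_prop
    obtain ⟨q, hq, hm⟩ := hS.exists_isMinOn hne hd.continuousOn
    exact ⟨_, dist_pos.2 (h q hq), fun p hp => hm hp⟩

theorem weak_confluent (hN : NoFlip X) {M : Type*} [MetricSpace M] {C : Set M} (hC : IsCompact C)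
    (hC' : IsPreconnected C) {f : M → X} (hf : Continuous f) {K : Set X} (hK : IsCompact K)
    (hK' : IsConnected K) (hKC : K ⊆ f '' C) :
    ∃ D ⊆ C, IsCompact D ∧ IsConnected D ∧ f '' D = K := by
  classical
  by_contra hcon
  have hE : IsCompact (C ∩ f ⁻¹' K) := hC.inter_right (hK.isClosed.preimage hf)
  obtain ⟨δ, hδ, t, ℓ, l1, l2⟩ := exists_labels (F := fun y : K => f ⁻¹' {y.1}) hE
    (fun y => isClosed_singleton.preimage hf) fun z hz => by
      by_contra hn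
      push Not at hn
      have hsub := connectedComponentIn_subset (C ∩ f ⁻¹' K) z
      refine hcon ⟨_, hsub.trans inter_subset_left, compact_component hE hz,
        isConnected_connectedComponentIn_iff.2 hz, subset_antisymm ?_ fun y hy => ?_⟩
      · rintro _ ⟨c, hc, rfl⟩
        exact (hsub hc).2
      · obtain ⟨c, hc, e⟩ := not_disjoint_iff.1 (hn ⟨y, hy⟩)
        exact ⟨c, hc, e⟩
  obtain ⟨ρ, hρ, hnear⟩ : ∃ ρ > 0, ∀ c ∈ C, infDist (f c) K ≤ ρ →
      c ∈ thickening δ (C ∩ f ⁻¹' K) := by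
    obtain ⟨ρ, hρ, hs⟩ := sep_pos ((hC.diff isOpen_thickening (t := thickening δ (C ∩ f ⁻¹' K))).image
      hf) hK.isClosed (by
        rw [disjoint_left]
        rintro _ ⟨c, hc, rfl⟩ hk
        exact hc.2 (self_subset_thickening hδ _ ⟨hc.1, hk⟩))
    refine ⟨ρ / 2, by positivity, fun c hc hle => by_contra fun hn => ?_⟩
    obtain ⟨k, hk, e⟩ := hK.exists_infDist_eq_dist hK'.nonempty (f c)
    linarith [hs _ ⟨c, ⟨hc, hn⟩, rfl⟩ k hk]
  have hi : Continuous fun c => infDist (f c) K := (continuous_infDist_pt K).comp hf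
  have hEn : IsCompact (C ∩ {c | infDist (f c) K ≤ ρ}) :=
    hC.inter_right (isClosed_le hi continuous_const)
  let P : (t → Prop) → Set M := fun A => (C ∩ {c | infDist (f c) K ≤ ρ}) ∩ {c | ℓ c = A}
  have hP : ∀ A, IsCompact (P A) := fun A => by
    refine hEn.of_isClosed_subset (isClosed_of_closure_subset fun c hc => ?_) inter_subset_left
    have h1 : c ∈ C ∩ {c | infDist (f c) K ≤ ρ} :=
      closure_minimal inter_subset_left hEn.isClosed hc
    obtain ⟨c', hc', hd⟩ := Metric.mem_closure_iff.1 hc δ hδ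
    exact ⟨h1, (l1 c (hnear c h1.1 h1.2) c' (hnear c' hc'.1.1 hc'.1.2) hd.le).trans hc'.2⟩
  have hmiss : ∀ A, ∃ y ∈ K, y ∉ f '' P A := fun A => by
    rcases (P A).eq_empty_or_nonempty with he | ⟨c, hc⟩
    · obtain ⟨y, hy⟩ := hK'.nonempty
      exact ⟨y, hy, by simp [he]⟩
    · obtain ⟨y, hy⟩ := l2 c (hnear c hc.1.1 hc.1.2)
      refine ⟨y, y.2, ?_⟩
      rintro ⟨c', hc', e⟩
      exact hy c' (hnear c' hc'.1.1 hc'.1.2) (hc'.2.trans hc.2.symm) e
  choose Y0 hY0 hY0' using hmiss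
  obtain ⟨A0, hA0⟩ := finite_univ.exists_maximalFor (fun A => f '' P A ∩ K) univ univ_nonempty
  obtain ⟨c1, hc1, e1⟩ := hKC (hY0 A0)
  have hc1P : c1 ∈ P (ℓ c1) :=
    ⟨⟨hc1, by simp only [mem_ofPred_eq, e1, infDist_zero_of_mem (hY0 A0), hρ.le]⟩, rfl⟩
  obtain ⟨y1, hy1, hy1'⟩ : ∃ y1 ∈ f '' P A0 ∩ K, y1 ∉ f '' P (ℓ c1) ∩ K := by
    by_contra hn
    push Not at hn
    exact hY0' A0 (hA0.2 (mem_univ _) hn ⟨⟨c1, hc1P, e1⟩, hY0 A0⟩).1
  have hne : A0 ≠ ℓ c1 := fun e => hy1' (e ▸ hy1)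
  let Y := Function.update Y0 (ℓ c1) y1
  have hY : ∀ A, Y A ∈ K ∧ Y A ∉ f '' P A := fun A => by
    by_cases e : A = ℓ c1
    · subst e
      simp only [Y, Function.update_self]
      exact ⟨hy1.2, fun h => hy1' ⟨h, hy1.2⟩⟩
    · simp only [Y, Function.update_of_ne e]
      exact ⟨hY0 A, hY0' A⟩
  let S : Set (M × X) := (C ∩ {c | ρ ≤ infDist (f c) K}) ×ˢ K ∪ ⋃ A, P A ×ˢ {Y A}
  have hS : IsCompact S := ((hC.inter_right (isClosed_le continuous_const hi)).prod hK).union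
    (isCompact_iUnion fun A => (hP A).prod isCompact_singleton)
  have hmem : ∀ A, ∀ c ∈ P A, (c, Y A) ∈ S := fun A c hc =>
    Or.inr (mem_iUnion.2 ⟨A, hc, rfl⟩)
  have hS1 : Prod.fst '' S = C := by
    refine subset_antisymm ?_ fun c hc => ?_
    · rintro _ ⟨p, hp | hp, rfl⟩
      · exact hp.1.1
      · obtain ⟨A, hA⟩ := mem_iUnion.1 hp
        exact hA.1.1.1
    · rcases le_total (infDist (f c) K) ρ with h | h
      · exact ⟨_, hmem (ℓ c) c ⟨⟨hc, h⟩, rfl⟩, rfl⟩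
      · exact ⟨(c, y1), Or.inl ⟨⟨hc, h⟩, hy1.2⟩, rfl⟩
  have hS2 : IsPreconnected S := fiber_conn hS (hS1.symm ▸ hC') fun c => by
    by_cases h : c ∈ C ∩ {c | ρ ≤ infDist (f c) K}
    · have : {b | (c, b) ∈ S} = K := by
        refine subset_antisymm ?_ fun b hb => Or.inl ⟨h, hb⟩
        rintro b (hb | hb)
        · exact hb.2
        · obtain ⟨A, hA⟩ := mem_iUnion.1 hb
          exact (show b = Y A from hA.2) ▸ (hY A).1
      exact this.symm ▸ hK'.isPreconnected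
    · refine (subsingleton_of_subset_singleton (a := Y (ℓ c)) ?_).isPreconnected
      rintro b (hb | hb)
      · exact absurd hb.1 h
      · obtain ⟨A, hA⟩ := mem_iUnion.1 hb
        exact (show ℓ c = A from hA.1.2).symm ▸ hA.2
  have hg : Continuous fun q : M × X => (f q.1, q.2) := by fun_prop
  obtain ⟨⟨c0, hc0, e0⟩, -⟩ := hy1
  refine hN _ (hS.image hg) (hS2.image _ hg.continuousOn) ?_ y1 (Y0 A0)
    ⟨_, hmem A0 c0 hc0, by simp only [e0, Y, Function.update_of_ne hne]⟩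
    ⟨_, hmem _ c1 hc1P, by simp only [e1, Y, Function.update_self]⟩
  rintro _ ⟨⟨c, b⟩, hp | hp, rfl⟩ (e : f c = b)
  · have h1 : ρ ≤ infDist (f c) K := hp.1.2
    rw [e, infDist_zero_of_mem hp.2] at h1
    linarith
  · obtain ⟨A, hA⟩ := mem_iUnion.1 hp
    exact (hY A).2 ⟨c, hA.1, e.trans hA.2⟩

theorem unicoherent (hN : NoFlip X) {A Y : Set X} (hA : IsCompact A) (hA' : IsPreconnected A)
    (hY : IsCompact Y) (hY' : IsPreconnected Y) : IsPreconnected (A ∩ Y) := by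
  have hAY := hA.inter_right hY.isClosed
  rw [isPreconnected_iff_subset_of_fully_disjoint_closed hAY.isClosed]
  intro u v hu hv hs huv
  by_contra hcon
  rw [not_or, not_subset, not_subset] at hcon
  obtain ⟨⟨p, hp, hpu⟩, q, hq, hqv⟩ := hcon
  have hpv := (hs hp).resolve_left hpu
  have hqu := (hs hq).resolve_right hqv
  obtain ⟨U, V, hU, hV, h1, h2, h3⟩ := normal_separation hu hv huv
  obtain ⟨U', hU', h4, h5⟩ := normal_exists_closure_subset hu hU h1
  obtain ⟨V', hV', h6, h7⟩ := normal_exists_closure_subset hv hV h2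
  have hd : ∀ c, c ∈ closure U' → c ∈ closure V' → False := fun c a b =>
    disjoint_left.1 h3 (h5 a) (h7 b)
  let S : Set (X × X) := (A \ (U' ∪ V')) ×ˢ Y ∪ (A ∩ closure U') ×ˢ {p} ∪ (A ∩ closure V') ×ˢ {q}
  have hS : IsCompact S := (((hA.diff (hU'.union hV')).prod hY).union
    ((hA.inter_right isClosed_closure).prod isCompact_singleton)).union
    ((hA.inter_right isClosed_closure).prod isCompact_singleton)
  have hS1 : Prod.fst '' S = A := by
    refine subset_antisymm ?_ fun c hc => ?_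
    · rintro _ ⟨z, (hz | hz) | hz, rfl⟩ <;> exact hz.1.1
    · by_cases a : c ∈ U'
      · exact ⟨(c, p), Or.inl (Or.inr ⟨⟨hc, subset_closure a⟩, rfl⟩), rfl⟩
      by_cases b : c ∈ V'
      · exact ⟨(c, q), Or.inr ⟨⟨hc, subset_closure b⟩, rfl⟩, rfl⟩
      · exact ⟨(c, p), Or.inl (Or.inl ⟨⟨hc, fun h => h.elim a b⟩, hp.2⟩), rfl⟩
  refine hN S hS (fiber_conn hS (hS1.symm ▸ hA') fun c => ?_) ?_ p q
    (Or.inr ⟨⟨hp.1, subset_closure (h6 hpv)⟩, rfl⟩)
    (Or.inl (Or.inr ⟨⟨hq.1, subset_closure (h4 hqu)⟩, rfl⟩))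
  · by_cases h : c ∈ A \ (U' ∪ V')
    · have : {b | (c, b) ∈ S} = Y := by
        refine subset_antisymm ?_ fun b hb => Or.inl (Or.inl ⟨h, hb⟩)
        rintro b ((hb | hb) | hb)
        · exact hb.2
        · exact (show b = p from hb.2) ▸ hp.2
        · exact (show b = q from hb.2) ▸ hq.2
      exact this.symm ▸ hY'
    · refine Set.Subsingleton.isPreconnected ?_
      rintro b ((hb | hb) | hb) b' ((hb' | hb') | hb')
      · exact absurd hb.1 h
      · exact absurd hb.1 h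
      · exact absurd hb.1 h
      · exact absurd hb'.1 h
      · exact (show b = p from hb.2).trans (show b' = p from hb'.2).symm
      · exact (hd c hb.1.2 hb'.1.2).elim
      · exact absurd hb'.1 h
      · exact (hd c hb'.1.2 hb.1.2).elim
      · exact (show b = q from hb.2).trans (show b' = q from hb'.2).symm
  · rintro ⟨c, b⟩ ((hb | hb) | hb) (rfl : c = b)
    · exact hb.1.2 ((hs ⟨hb.1.1, hb.2⟩).imp (fun h => h4 h) fun h => h6 h)
    · exact hd c hb.1.2 ((show c = p from hb.2).symm ▸ subset_closure (h6 hpv))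
    · exact hd c ((show c = q from hb.2).symm ▸ subset_closure (h4 hqu)) hb.1.2

theorem no_triod (hN : NoFlip X) {Y R1 R2 R3 : Set X} (hY : IsCompact Y ∧ IsPreconnected Y)
    (h1 : IsCompact R1 ∧ IsPreconnected R1) (h2 : IsCompact R2 ∧ IsPreconnected R2)
    (h3 : IsCompact R3 ∧ IsPreconnected R3) (m1 : (R1 ∩ Y).Nonempty) (m2 : (R2 ∩ Y).Nonempty)
    (m3 : (R3 ∩ Y).Nonempty) {a1 a2 a3 : X} (i1 : a1 ∈ R1) (i2 : a2 ∈ R2) (i3 : a3 ∈ R3)
    (n1 : a1 ∉ R2 ∪ Y ∪ R3) (n2 : a2 ∉ R3 ∪ Y ∪ R1) (n3 : a3 ∉ R1 ∪ Y ∪ R2) : False := by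
  have key : ∀ {R R' : Set X}, IsCompact R ∧ IsPreconnected R → IsCompact R' ∧ IsPreconnected R' →
      (R ∩ Y).Nonempty → (R' ∩ Y).Nonempty →
      IsCompact (R ∪ Y ∪ R') ∧ IsPreconnected (R ∪ Y ∪ R') := by
    intro R R' a b m ⟨z, hz⟩
    exact ⟨(a.1.union hY.1).union b.1, (a.2.union' m hY.2).union z (Or.inr hz.2) hz.1 b.2⟩
  have k1 := key h2 h3 m2 m3
  have k2 := key h3 h1 m3 m1
  have k3 := key h1 h2 m1 m2
  refine hN ({a1} ×ˢ (R2 ∪ Y ∪ R3) ∪ (R1 ∪ Y ∪ R2) ×ˢ {a3} ∪ {a2} ×ˢ (R3 ∪ Y ∪ R1))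
    (((isCompact_singleton.prod k1.1).union (k3.1.prod isCompact_singleton)).union
      (isCompact_singleton.prod k2.1)) ?_ ?_ a1 a2
    (Or.inl (Or.inl ⟨rfl, Or.inl (Or.inl i2)⟩)) (Or.inr ⟨rfl, Or.inr i1⟩)
  · refine IsPreconnected.union (a2, a3) (Or.inr ⟨Or.inr i2, rfl⟩) ⟨rfl, Or.inl (Or.inl i3)⟩ ?_
      (isPreconnected_singleton.prod k2.2)
    exact IsPreconnected.union (a1, a3) ⟨rfl, Or.inr i3⟩ ⟨Or.inl (Or.inl i1), rfl⟩
      (isPreconnected_singleton.prod k1.2) (k3.2.prod isPreconnected_singleton)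
  · rintro ⟨c, b⟩ ((hb | hb) | hb) (rfl : c = b)
    · exact n1 ((show c = a1 from hb.1) ▸ hb.2)
    · exact n3 ((show c = a3 from hb.2) ▸ hb.1)
    · exact n2 ((show c = a2 from hb.1) ▸ hb.2)

end Pool.Agent.Work.MP_8493f1_gt
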