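import Mathlib.Topology.MetricSpace.Basic
import Mathlib.Topology.LocallyConstant.Basic
import Pool.Agent.Work.MP_8493f1_gt.Comb

/-! Counting sign changes of a doubly odd function along a symmetric loop. -/

set_option autoImplicit false

namespace Pool.Agent.Work.MP_8493f1_gt

open Finset Metric Filter Topology

variable {X : Type*} [MetricSpace X]

/-- The comparison function of two weighted pairs. -/
noncomputable def Psi (p p' : X) (l : ℝ) (q q' : X) : ℝ :=
  min (dist p q) (dist p' q' + l) - min (dist p q') (dist p' q + l)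

theorem Psi_swap (p p' : X) (l : ℝ) (q q' : X) : Psi p p' l q' q = -Psi p p' l q q' := by
  simp [Psi]

theorem Psi_swap' (p p' q q' : X) : Psi p' p 0 q q' = -Psi p p' 0 q q' := by
  simp only [Psi, add_zero, neg_sub]
  rw [min_comm (dist p' q), min_comm (dist p' q')]

theorem Psi_comm (p p' q q' : X) : Psi p p' 0 q q' = Psi q q' 0 p p' := by
  simp only [Psi, add_zero]
  rw [dist_comm q p, dist_comm q' p', dist_comm q p', dist_comm q' p, min_comm (dist p' q)]

theorem dist_lip {p q p1 q1 : X} {η : ℝ} (h1 : dist p p1 ≤ η) (h2 : dist q q1 ≤ η) :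
    |dist p q - dist p1 q1| ≤ 2 * η := by
  have := dist_dist_dist_le p q p1 q1
  rw [Real.dist_eq] at this
  linarith

theorem Psi_lip {p p' q q' p1 p1' q1 q1' : X} {l l1 η : ℝ} (h1 : dist p p1 ≤ η)
    (h2 : dist p' p1' ≤ η) (h3 : |l - l1| ≤ η) (h4 : dist q q1 ≤ η) (h5 : dist q' q1' ≤ η) :
    |Psi p p' l q q' - Psi p1 p1' l1 q1 q1'| ≤ 6 * η := by
  have a5 := abs_le.1 h3
  have hη : 0 ≤ η := dist_nonneg.trans h1
  have m : ∀ {a b c d : ℝ}, |a - c| ≤ 2 * η → |b - d| ≤ 2 * η →
      |min a (b + l) - min c (d + l1)| ≤ 3 * η := fun ha hb =>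
    (abs_min_sub_min_le_max _ _ _ _).trans (max_le (by linarith only [ha, hη])
      (abs_le.2 ⟨by linarith only [(abs_le.1 hb).1, a5.1], by
        linarith only [(abs_le.1 hb).2, a5.2]⟩))
  have b1 := abs_le.1 (m (dist_lip h1 h4) (dist_lip h2 h5))
  have b2 := abs_le.1 (m (dist_lip h1 h5) (dist_lip h2 h4))
  rw [Psi, Psi, abs_le]
  constructor <;> linarith only [b1.1, b1.2, b2.1, b2.2]

theorem Psi_far {p p' q q' : X} {l a δ : ℝ} (hq : a ≤ dist q q') (hp : a ≤ dist p p' + l)
    (hl : 0 ≤ l) (h : |Psi p p' l q q'| ≤ δ) :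
    (a - δ) / 2 ≤ dist p q ∧ (a - δ) / 2 ≤ dist p q' := by
  have t1 := dist_triangle_left q q' p
  have t2 := dist_triangle_left q q' p'
  have t3 := dist_triangle_right p p' q
  have t4 := dist_triangle_right p p' q'
  have := abs_le.1 h
  simp only [Psi, min_def] at this
  split_ifs at this <;> constructor <;> linarith [this.1, this.2]

/-- Sign as an element of the field with two elements. -/
noncomputable def sg (t : ℝ) : ZMod 2 := if 0 < t then 1 else 0

/-- A weak sign of a real number. -/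
def WS (b : ZMod 2) (t : ℝ) : Prop := (b = 1 → 0 ≤ t) ∧ (b = 0 → t ≤ 0)

theorem ws_sg (t : ℝ) : WS (sg t) t := by
  unfold sg WS
  split_ifs with h
  · exact ⟨fun _ => h.le, fun h' => absurd h' (by decide)⟩
  · exact ⟨fun h' => absurd h' (by decide), fun _ => not_lt.1 h⟩

theorem ws_neg {b : ZMod 2} {t : ℝ} (h : WS b t) : WS (1 + b) (-t) := by
  rcases z2_cases b with rfl | rfl
  · exact ⟨fun _ => by linarith [h.2 rfl], fun h' => absurd h' (by decide)⟩
  · exact ⟨fun h' => absurd h' (by decide), fun _ => by linarith [h.1 rfl]⟩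

theorem ws_ne {b b' : ZMod 2} {t t' δ : ℝ} (h : WS b t) (h' : WS b' t') (hd : |t - t'| ≤ δ)
    (hne : b ≠ b') : |t| ≤ δ := by
  have := abs_le.1 hd
  rw [abs_le]
  rcases z2_cases b with rfl | rfl <;> rcases z2_cases b' with rfl | rfl
  · exact absurd rfl hne
  · constructor <;> linarith [h.2 rfl, h'.1 rfl, this.1, this.2]
  · constructor <;> linarith [h.1 rfl, h'.2 rfl, this.1, this.2]
  · exact absurd rfl hne

theorem ws_four {b1 b2 b3 b4 : ZMod 2} {t1 t2 t3 t4 δ : ℝ} (h1 : WS b1 t1) (h2 : WS b2 t2)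
    (h3 : WS b3 t3) (h4 : WS b4 t4) (d2 : |t1 - t2| ≤ δ) (d3 : |t1 - t3| ≤ δ)
    (d4 : |t1 - t4| ≤ δ) :
    (b1 = b2 ∧ b1 = b3 ∧ b1 = b4) ∨
      (|t1| ≤ 2 * δ ∧ |t2| ≤ 2 * δ ∧ |t3| ≤ 2 * δ ∧ |t4| ≤ 2 * δ) := by
  by_cases h : b1 = b2 ∧ b1 = b3 ∧ b1 = b4
  · exact Or.inl h
  right
  have h0 : |t1| ≤ δ := by
    by_contra hc
    exact h ⟨by_contra fun e => hc (ws_ne h1 h2 d2 e), by_contra fun e => hc (ws_ne h1 h3 d3 e),
      by_contra fun e => hc (ws_ne h1 h4 d4 e)⟩
  have e0 := abs_le.1 h0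
  have e2 := abs_le.1 d2
  have e3 := abs_le.1 d3
  have e4 := abs_le.1 d4
  refine ⟨?_, ?_, ?_, ?_⟩ <;> rw [abs_le] <;> constructor <;>
    linarith [e0.1, e0.2, e2.1, e2.2, e3.1, e3.2, e4.1, e4.2]

open Classical in
/-- Indicator with values in the field with two elements. -/
noncomputable def ind (P : Prop) : ZMod 2 := if P then 1 else 0

theorem ind_congr {P Q : Prop} (h : P ↔ Q) : ind P = ind Q := by rw [propext h]

theorem ind_false {P : Prop} (h : ¬P) : ind P = 0 := by simp [ind, h]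

theorem ind_true {P : Prop} (h : P) : ind P = 1 := by simp [ind, h]

theorem ind_split (P Q : Prop) : ind P = ind (P ∧ Q) + ind (P ∧ ¬Q) := by
  by_cases hP : P <;> by_cases hQ : Q <;> simp [ind, hP, hQ]

/-- The data: a symmetric loop with small steps and a locally constant labelling. -/
structure Data (X : Type*) [MetricSpace X] (Λ : Type*) where
  n : ℕ
  c : ℕ → X
  a : ℝ
  η : ℝ
  r : ℝ
  L : X → X → Λ
  hη : 0 < η
  ha : 6 * η < a
  hr : r ≤ (a - 12 * η) / 2
  per : ∀ i, c (i + (n + 1) + (n + 1)) = c i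
  step : ∀ i, dist (c i) (c (i + 1)) ≤ η
  far : ∀ i, a ≤ dist (c i) (c (i + (n + 1)))
  lab : ∀ x y x' y', r ≤ dist x y → r ≤ dist x' y' → dist x x' ≤ η → dist y y' ≤ η →
    L x y = L x' y'

namespace Data

variable {Λ : Type*} (D : Data X Λ)

/-- The same data with the transposed labelling. -/
def tr : Data X Λ :=
  { D with
    L := fun x y => D.L y x
    lab := fun x y x' y' h1 h2 h3 h4 =>
      D.lab y x y' x' (by rwa [dist_comm]) (by rwa [dist_comm]) h4 h3 }

/-- Values of the comparison function along the loop. -/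
noncomputable def t (p p' : X) (l : ℝ) (k : ℕ) : ℝ := Psi p p' l (D.c k) (D.c (k + (D.n + 1)))

/-- Signs along half the loop. -/
noncomputable def al (p p' : X) (l : ℝ) (k : ℕ) : ZMod 2 :=
  if k < D.n + 1 then sg (D.t p p' l k) else 1 + sg (D.t p p' l 0)

/-- Weight of a point of the loop. -/
noncomputable def u (R : Λ → Λ → Prop) (p : X) (k : ℕ) : ZMod 2 :=
  ind (R (D.L p (D.c k)) (D.L p (D.c (k + (D.n + 1)))))

/-- Weighted number of sign changes. -/
noncomputable def cnt (R : Λ → Λ → Prop) (p p' : X) (l : ℝ) : ZMod 2 :=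
  ∑ k ∈ range (D.n + 1), (D.al p p' l k + D.al p p' l (k + 1)) * D.u R p k

theorem ws_al (p p' : X) (l : ℝ) {k : ℕ} (hk : k ≤ D.n + 1) :
    WS (D.al p p' l k) (D.t p p' l k) := by
  unfold al
  split_ifs with h
  · exact ws_sg _
  · have e : k = D.n + 1 := by omega
    have : D.t p p' l k = -D.t p p' l 0 := by
      have h2 := D.per 0
      simp only [zero_add] at h2
      simp only [t, e, zero_add, h2]
      exact Psi_swap _ _ _ _ _
    rw [this]
    exact ws_neg (ws_sg _)

theorem step' (i : ℕ) : dist (D.c (i + (D.n + 1))) (D.c (i + 1 + (D.n + 1))) ≤ D.η := by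
  have := D.step (i + (D.n + 1))
  rwa [show i + (D.n + 1) + 1 = i + 1 + (D.n + 1) by omega] at this

theorem t_far {p p' : X} {l : ℝ} {k : ℕ} (hp : D.a ≤ dist p p' + l) (hl : 0 ≤ l)
    (h : |D.t p p' l k| ≤ 2 * (6 * D.η)) :
    D.r ≤ dist p (D.c k) ∧ D.r ≤ dist p (D.c (k + (D.n + 1))) := by
  have := Psi_far (D.far k) hp hl h
  have hr := D.hr
  constructor <;> linarith [this.1, this.2]

theorem cnt_step {R : Λ → Λ → Prop} (hR : ∀ A B, R A B → R B A) {p q p' : X} {l m : ℝ}
    (hp : D.a ≤ dist p p' + l) (hl : 0 ≤ l) (hq : D.a ≤ dist q p' + m) (hm : 0 ≤ m)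
    (h1 : dist p q ≤ D.η) (h2 : |l - m| ≤ D.η) : D.cnt R p p' l = D.cnt R q p' m := by
  have z : ∀ x : X, dist x x ≤ D.η := fun x => by simpa using D.hη.le
  have z' : |l - l| ≤ D.η := by simpa using D.hη.le
  refine strip (D.n + 1) _ _ _ _ (fun k hk => ?_) ?_ ?_
  · rcases ws_four (D.ws_al p p' l hk.le) (D.ws_al p p' l hk) (D.ws_al q p' m hk.le)
      (D.ws_al q p' m hk) (Psi_lip (z _) (z _) z' (D.step k) (D.step' k))
      (Psi_lip h1 (z _) h2 (z _) (z _)) (Psi_lip h1 (z _) h2 (D.step k) (D.step' k)) with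
      h | ⟨e1, e2, e3, -⟩
    · exact Or.inl h
    · right
      have f1 := D.t_far hp hl e1
      have f2 := D.t_far hp hl e2
      have f3 := D.t_far hq hm e3
      simp only [u]
      rw [← D.lab _ _ _ _ f1.1 f2.1 (z _) (D.step k), ← D.lab _ _ _ _ f1.2 f2.2 (z _) (D.step' k),
        ← D.lab _ _ _ _ f1.1 f3.1 h1 (z _), ← D.lab _ _ _ _ f1.2 f3.2 h1 (z _)]
      exact ⟨rfl, rfl⟩
  · simp only [al, lt_irrefl, if_false, Nat.zero_lt_succ, if_true]
    have h2' : (2 : ZMod 2) = 0 := by decide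
    linear_combination h2'
  · have h2 := D.per 0
    simp only [zero_add] at h2
    simp only [u, zero_add, h2]
    exact ind_congr ⟨hR _ _, hR _ _⟩

theorem cnt_move [PreconnectedSpace X] {R : Λ → Λ → Prop} (hR : ∀ A B, R A B → R B A)
    {p p' : X} (hp : D.a ≤ dist p p') (x : X) :
    ∃ l, D.a ≤ l ∧ D.cnt R p p' 0 = D.cnt R x p' l := by
  have hη := D.hη
  have h1 : ∀ m : ℕ, D.cnt R p p' 0 = D.cnt R p p' (m * D.η) := by
    intro m
    induction m with
    | zero => simp
    | succ m ih =>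
      rw [ih]
      have : (0 : ℝ) ≤ m * D.η := by positivity
      refine D.cnt_step hR (by linarith) this (by push_cast; linarith) (by positivity)
        (by simpa using hη.le) ?_
      push_cast
      rw [abs_le]; constructor <;> linarith
  obtain ⟨m, hm⟩ := exists_nat_ge (D.a / D.η)
  have hl : D.a ≤ m * D.η := by rwa [div_le_iff₀ hη] at hm
  have h0 : (0 : ℝ) ≤ m * D.η := by positivity
  refine ⟨m * D.η, hl, (h1 m).trans ?_⟩
  have hlc : IsLocallyConstant fun y => D.cnt R y p' (m * D.η) := by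
    rw [IsLocallyConstant.iff_eventually_eq]
    intro y
    filter_upwards [closedBall_mem_nhds y hη] with w hw
    exact D.cnt_step hR (by linarith [dist_nonneg (x := w) (y := p')]) h0
      (by linarith [dist_nonneg (x := y) (y := p')]) h0 hw (by simpa using hη.le)
  exact hlc.apply_eq_of_preconnectedSpace p x

theorem cnt_miss [PreconnectedSpace X] {R : Λ → Λ → Prop} (hR : ∀ A B, R A B → R B A)
    {p p' : X} (hp : D.a ≤ dist p p') {A0 : Λ} (hA : ∀ A B, R A B → A = A0 ∨ B = A0)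
    {x : X} (hx : ∀ y, D.r ≤ dist x y → D.L x y ≠ A0) : D.cnt R p p' 0 = 0 := by
  obtain ⟨l, hl, e⟩ := D.cnt_move hR hp x
  have hη := D.hη
  have ha := D.ha
  have z : ∀ x : X, dist x x ≤ D.η := fun x => by simpa using D.hη.le
  rw [e]
  refine sum_eq_zero fun k hk => ?_
  have hk' := mem_range.1 hk
  by_cases h : D.al x p' l k = D.al x p' l (k + 1)
  · rw [h, z2_self, zero_mul]
  · have h1 := ws_ne (D.ws_al x p' l hk'.le) (D.ws_al x p' l hk')
      (Psi_lip (z _) (z _) (by simpa using hη.le) (D.step k) (D.step' k)) h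
    have f := D.t_far (p := x) (p' := p') (l := l) (k := k)
      (by linarith [dist_nonneg (x := x) (y := p')]) (by linarith) (by linarith)
    rw [u, ind_false, mul_zero]
    intro hh
    rcases hA _ _ hh with e | e
    · exact hx _ f.1 e
    · exact hx _ f.2 e

theorem cnt_split (R S : Λ → Λ → Prop) (p p' : X) (l : ℝ) :
    D.cnt R p p' l = D.cnt (fun A B => R A B ∧ S A B) p p' l +
      D.cnt (fun A B => R A B ∧ ¬S A B) p p' l := by
  simp only [cnt, ← sum_add_distrib, ← mul_add, u, ← ind_split]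

/-- A label is first-full if every point is the first coordinate of a far pair with it. -/
def Full (A : Λ) : Prop := ∀ x, ∃ y, D.r ≤ dist x y ∧ D.L x y = A

theorem cnt_bad [PreconnectedSpace X] [Finite Λ] {p p' : X} (hp : D.a ≤ dist p p')
    {R : Λ → Λ → Prop} (hR : ∀ A B, R A B → R B A)
    (hb : ∀ A B, R A B → ¬D.Full A ∨ ¬D.Full B) : D.cnt R p p' 0 = 0 := by
  classical
  have key : ∀ T : Finset Λ, (∀ A ∈ T, ¬D.Full A) → ∀ R : Λ → Λ → Prop, (∀ A B, R A B → R B A) →
      (∀ A B, R A B → A ∈ T ∨ B ∈ T) → D.cnt R p p' 0 = 0 := by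
    intro T
    induction T using Finset.induction_on with
    | empty =>
      intro _ R _ h
      refine sum_eq_zero fun k _ => ?_
      rw [u, ind_false, mul_zero]
      intro hh
      simpa using h _ _ hh
    | insert A0 T _ ih =>
      intro hT R hR h
      rw [D.cnt_split R fun A B => A = A0 ∨ B = A0]
      obtain ⟨x, hx⟩ : ∃ x, ∀ y, D.r ≤ dist x y → D.L x y ≠ A0 := by
        have := hT A0 (mem_insert_self _ _)
        simpa [Full] using this
      rw [D.cnt_miss (fun A B h => ⟨hR _ _ h.1, h.2.symm⟩) hp (fun A B h => h.2) hx,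
        ih (fun A hA => hT A (mem_insert_of_mem hA)) _
          (fun A B h => ⟨hR _ _ h.1, fun h' => h.2 h'.symm⟩) ?_, add_zero]
      intro A B ⟨h1, h2⟩
      rcases h A B h1 with h3 | h3 <;> rw [mem_insert] at h3 <;> tauto
  have := Fintype.ofFinite Λ
  exact key (univ.filter fun A => ¬D.Full A) (by simp) R hR (by simpa using hb)

end Data

end Pool.Agent.Work.MP_8493f1_gt
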