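import Pool.Agent.Work.MP_8493f1_gt.H82Log

/-! A short chord sweeps across a simple closed curve that carries a symmetric near loop, and the
winding number turns the sweep into a separator. -/

set_option autoImplicit false

namespace Pool.Agent.Work.MP_8493f1_gt

open Set Metric Filter Topology unitInterval Real

theorem per_int {γ : ℝ → ℂ} (per : Function.Periodic γ 1) (x : ℝ) (m : ℤ) : γ (x + m) = γ x := by
  simpa using per.int_mul m x

theorem exists_dirlog {γ : ℝ → ℂ} (hγ : Continuous γ) (per : Function.Periodic γ 1)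
    (inj : ∀ s t, γ s = γ t → ∃ k : ℤ, t = s + k) :
    ∃ (M : ℝ × ℝ → ℂ) (c : ℂ), Complex.exp c = -1 ∧ ∀ p : ℝ × ℝ, γ p.1 ≠ γ p.2 →
      ContinuousAt M p ∧ Complex.exp (M p) = γ p.2 - γ p.1 ∧
        ∀ k : ℤ, M (p.1 + k, p.2 + k) = M p + k * (2 * c) := by
  obtain ⟨Y, hY⟩ : ∃ Y : Set (ℝ × ℝ), Y = univ ×ˢ Ioo 0 1 := ⟨_, rfl⟩
  have mY : ∀ p, p ∈ Y ↔ 0 < p.2 ∧ p.2 < 1 := fun p => by simp [hY]
  have cY : Convex ℝ Y := by rw [hY]; exact convex_univ.prod (convex_Ioo 0 1)
  have oY : IsOpen Y := by rw [hY]; exact isOpen_univ.prod isOpen_Ioo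
  have p0 : ((0, 1 / 2) : ℝ × ℝ) ∈ Y := by rw [mY]; norm_num
  have hne : ∀ p ∈ Y, γ (p.1 + p.2) - γ p.1 ≠ 0 := fun p hp e => by
    obtain ⟨k, hk⟩ := inj _ _ (sub_eq_zero.1 e).symm
    rw [mY, add_left_cancel hk] at hp
    have a : (0 : ℤ) < k := by exact_mod_cast hp.1
    have b : k < (1 : ℤ) := by exact_mod_cast hp.2
    omega
  obtain ⟨L, L1, L2⟩ := log_convex cY p0 (F := fun p => γ (p.1 + p.2) - γ p.1) (by fun_prop) hne
  obtain ⟨τ, hτ⟩ : ∃ τ : ℝ × ℝ → ℝ × ℝ, τ = fun p => (p.1 + p.2, 1 - p.2) := ⟨_, rfl⟩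
  have τY : ∀ p ∈ Y, τ p ∈ Y := fun p hp => by
    rw [mY] at hp ⊢
    rw [hτ]
    constructor <;> linarith [hp.1, hp.2]
  have ex : ∀ p ∈ Y, Complex.exp (L (τ p) - L p) = -1 := fun p hp => by
    rw [Complex.exp_sub, L2 _ (τY p hp), L2 p hp, div_eq_iff (hne p hp), hτ]
    dsimp only
    rw [show p.1 + p.2 + (1 - p.2) = p.1 + 1 by ring, per]
    ring
  have cst : ∀ p ∈ Y, L (τ p) - L p = L (τ (0, 1 / 2)) - L (0, 1 / 2) := fun p hp =>
    const_of_exp cY.isPreconnected (g := fun p => L (τ p) - L p)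
      ((L1.comp (by rw [hτ]; fun_prop) τY).sub L1) ex hp p0
  refine ⟨fun p => L (p.1, Int.fract (p.2 - p.1)), _, ex _ p0, fun p hp => ?_⟩
  have e : γ (p.1 + Int.fract (p.2 - p.1)) = γ p.2 := by
    rw [← per_int per _ ⌊p.2 - p.1⌋, add_assoc, Int.fract_add_floor, add_sub_cancel]
  have nz : Int.fract (p.2 - p.1) ≠ 0 := fun z => hp (by rw [← e, z, add_zero])
  have m : ∀ s : ℝ, (s, Int.fract (p.2 - p.1)) ∈ Y := fun s =>
    (mY _).2 ⟨(Int.fract_nonneg _).lt_of_ne nz.symm, Int.fract_lt_one _⟩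
  refine ⟨?_, by rw [L2 _ (m _), e], fun k => ?_⟩
  · have c1 : ContinuousAt (fun q : ℝ × ℝ => Int.fract (q.2 - q.1)) p :=
      ContinuousAt.comp (f := fun q : ℝ × ℝ => q.2 - q.1)
        (continuousAt_fract fun z => nz (by rw [Int.fract, sub_eq_zero]; exact z)) (by fun_prop)
    exact ContinuousAt.comp (f := fun q : ℝ × ℝ => (q.1, Int.fract (q.2 - q.1)))
      (L1.continuousAt (oY.mem_nhds (m _))) (continuousAt_fst.prodMk c1)
  · simp only [add_sub_add_right_eq_sub]
    refine add_int (f := fun s => L (s, Int.fract (p.2 - p.1))) (fun s => ?_) p.1 k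
    have a := cst _ (m s)
    have b := cst _ (τY _ (m s))
    have t : τ (τ (s, Int.fract (p.2 - p.1))) = (s + 1, Int.fract (p.2 - p.1)) := by
      rw [hτ]; ext <;> simp
    rw [t] at b
    linear_combination a + b

theorem join_line {N : Set (ℝ × ℝ)} {f : ℝ → ℝ × ℝ} (hf : Continuous f) (h : ∀ u, f u ∈ N)
    (u v : ℝ) : JoinedIn N (f u) (f v) :=
  ((joinedIn_univ.2 (PathConnectedSpace.joined u v)).map hf).mono
    (by rintro _ ⟨x, -, rfl⟩; exact h x)

theorem norm_le_of_neg {A B : ℂ} {t : ℝ} (ht : 0 ≤ t) (h : B = -(t : ℂ) * A) :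
    ‖A‖ ≤ ‖A - B‖ := by
  have : A - B = ((1 + t : ℝ) : ℂ) * A := by rw [h]; push_cast; ring
  rw [this, norm_mul, Complex.norm_real, Real.norm_eq_abs, abs_of_nonneg (by linarith)]
  nlinarith [norm_nonneg A]

theorem join_top {γ : ℝ → ℂ} (hγ : Continuous γ) (per : Function.Periodic γ 1)
    (inj : ∀ s t, γ s = γ t → ∃ k : ℤ, t = s + k) {a : ℝ → ℝ} (ha : Continuous a) {k : ℤ}
    (hk : Odd k) (a2 : ∀ u, a (u + 2) = a u + k) {r : ℝ} (hr : 0 < r)
    (near : ∀ u, ‖γ (a u) - γ (a (u + 1))‖ < r) :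
    JoinedIn {p : ℝ × ℝ | ‖γ (a p.2) - γ (a p.1)‖ < 4 * r} (0, 0) (0, 2) := by
  classical
  obtain ⟨M, c, hc, hM⟩ := exists_dirlog hγ per inj
  have g2 : ∀ u, γ (a (u + 2)) = γ (a u) := fun u => by rw [a2, per_int per]
  have g11 : ∀ u, γ (a (u + 1 + 1)) = γ (a u) := fun u => by
    rw [add_assoc, one_add_one_eq_two, g2]
  obtain ⟨A, hA⟩ : ∃ A : ℝ × ℝ → ℂ, A = fun p => γ (a p.2) - γ (a p.1) := ⟨_, rfl⟩
  have Ac : Continuous A := by rw [hA]; fun_prop
  have A2 : ∀ p, A (p + (1, 1) + (1, 1)) = A p := fun p => by simp [hA, g11]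
  have A1 : ∀ p, ‖A p - A (p + (1, 1))‖ < 2 * r := fun p => by
    have : A p - A (p + (1, 1)) =
        (γ (a p.2) - γ (a (p.2 + 1))) - (γ (a p.1) - γ (a (p.1 + 1))) := by
      simp only [hA, Prod.fst_add, Prod.snd_add]; ring
    rw [this]
    linarith [norm_sub_le (γ (a p.2) - γ (a (p.2 + 1))) (γ (a p.1) - γ (a (p.1 + 1))),
      near p.1, near p.2]
  obtain ⟨D, hD⟩ : ∃ D : ℝ × ℝ → ℝ, D = fun p => min ‖A p‖ ‖A (p + (1, 1))‖ := ⟨_, rfl⟩
  have Dc : Continuous D := by rw [hD]; fun_prop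
  have Dp : Function.Periodic D ((1, 1) : ℝ × ℝ) := fun p => by simp only [hD, A2, min_comm]
  have D1 : ∀ p, D p ≤ ‖A p‖ := fun p => by rw [hD]; exact min_le_left _ _
  have D2 : ∀ p, D p ≤ ‖A (p + (1, 1))‖ := fun p => by rw [hD]; exact min_le_right _ _
  obtain ⟨N, hN⟩ : ∃ N : Set (ℝ × ℝ), N = {p | D p < 2 * r} := ⟨_, rfl⟩
  have mN : ∀ p, p ∈ N ↔ D p < 2 * r := fun p => by rw [hN]; rfl
  have diag : ∀ u v : ℝ, JoinedIn N (u, u) (v, v) :=
    join_line (f := fun u => (u, u)) (by fun_prop) fun u => by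
      have := D1 (u, u)
      simp only [hA, sub_self, norm_zero] at this
      rw [mN]; linarith
  have top : ∀ u v : ℝ, JoinedIn N (u, u + 1) (v, v + 1) :=
    join_line (f := fun u => (u, u + 1)) (by fun_prop) fun u => by
      have := D1 (u, u + 1)
      simp only [hA] at this
      rw [norm_sub_rev] at this
      rw [mN]; linarith [near u]
  have main : JoinedIn N (0, 0) (0, 0 + 1) := by
    by_contra hn
    obtain ⟨lam, hl⟩ : ∃ lam : ℝ × ℝ → ℝ,
        lam = fun p => if JoinedIn N (0, 0) p then -1 else 1 := ⟨_, rfl⟩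
    have l1 : ∀ p, lam p = 1 ∨ lam p = -1 := fun p => by rw [hl]; dsimp only; split_ifs <;> simp
    have l2 : ∀ p, lam (p + (1, 1)) = lam p := fun p => by
      have : JoinedIn N (0, 0) (p + (1, 1)) ↔ JoinedIn N (0, 0) p := by
        constructor
        · intro h
          have := (h.map (f := fun x => x - ((1, 1) : ℝ × ℝ)) (by fun_prop)).mono (V := N)
            (by rintro _ ⟨x, hx, rfl⟩; rwa [mN, Dp.sub_eq, ← mN])
          rw [add_sub_cancel_right] at this
          exact (diag 0 (0 - 1)).trans this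
        · intro h
          exact (diag 0 (0 + 1)).trans
            ((h.map (f := fun x => x + ((1, 1) : ℝ × ℝ)) (by fun_prop)).mono (V := N)
              (by rintro _ ⟨x, hx, rfl⟩; rwa [mN, Dp, ← mN]))
      simp only [hl, this]
    have gc : Continuous fun p => lam p * max (2 * r - D p) 0 :=
      sign_cont (N := N) (by rw [hN]; exact isOpen_lt Dc continuous_const) (by fun_prop)
        (fun p hp => max_eq_right (by rw [mN] at hp; linarith [not_lt.1 hp]))
        (fun p => by rcases l1 p with e | e <;> simp [e])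
        (fun p q h => by
          have : JoinedIn N (0, 0) p ↔ JoinedIn N (0, 0) q :=
            ⟨fun e => e.trans h, fun e => e.trans h.symm⟩
          simp only [hl, this])
    obtain ⟨E, hE⟩ : ∃ E : ℝ × ℝ → ℂ,
        E = fun p => (M (a (p.1 + 1), a (p.2 + 1)) - M (a p.1, a p.2)) / 2 := ⟨_, rfl⟩
    have ne1 : ∀ p, 0 < D p → γ (a p.1) ≠ γ (a p.2) := fun p h e => by
      have := D1 p
      simp only [hA, e, sub_self, norm_zero] at this
      linarith
    have ne2 : ∀ p, 0 < D p → γ (a (p.1 + 1)) ≠ γ (a (p.2 + 1)) := fun p h =>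
      ne1 (p + (1, 1)) (by rwa [Dp])
    refine odd_dual gc (ψ := fun p => max (D p - r) 0 *
      (Complex.exp (E p) + Complex.exp (-E p)).re) ?_ (fun p hp hz => ?_)
      (fun p => by rw [l2, Dp]) (fun p => ?_) (fun u => ?_) fun u => ?_
    · rw [continuous_iff_continuousAt]
      intro p
      by_cases hp : 0 < D p
      · have c1 : ContinuousAt (fun q : ℝ × ℝ => M (a q.1, a q.2)) p :=
          ContinuousAt.comp (f := fun q : ℝ × ℝ => (a q.1, a q.2))
            (hM (a p.1, a p.2) (ne1 p hp)).1 (by fun_prop)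
        have c2 : ContinuousAt (fun q : ℝ × ℝ => M (a (q.1 + 1), a (q.2 + 1))) p :=
          ContinuousAt.comp (f := fun q : ℝ × ℝ => (a (q.1 + 1), a (q.2 + 1)))
            (hM (a (p.1 + 1), a (p.2 + 1)) (ne2 p hp)).1 (by fun_prop)
        have c3 : ContinuousAt E p := by rw [hE]; exact (c2.sub c1).div_const 2
        fun_prop
      · refine (continuousAt_const (y := (0 : ℝ))).congr ?_
        filter_upwards [(isOpen_lt Dc continuous_const).mem_nhds
          (show D p < r by linarith [not_lt.1 hp])] with q hq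
        rw [max_eq_right (by linarith [show D q < r from hq]), zero_mul]
    · have h2 : 2 * r ≤ D p := by
        by_contra h
        rw [max_eq_left (by linarith [not_le.1 h])] at hp
        rcases l1 p with e | e <;> rw [e] at hp <;> linarith [not_le.1 h]
      rw [max_eq_left (by linarith), mul_eq_zero] at hz
      have h3 := hz.resolve_left (by linarith)
      rw [Complex.add_re, Complex.exp_re, Complex.exp_re, Complex.neg_im, Real.cos_neg,
        ← add_mul, mul_eq_zero] at h3
      have h4 : (Complex.exp (E p)).re = 0 := by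
        rw [Complex.exp_re, h3.resolve_left (by positivity), mul_zero]
      have h5 : Complex.exp (E p) = (Complex.exp (E p)).im * Complex.I :=
        Complex.ext (by simp [h4]) (by simp)
      have x1 := (hM (a p.1, a p.2) (ne1 p (by linarith))).2.1
      have x2 := (hM (a (p.1 + 1), a (p.2 + 1)) (ne2 p (by linarith))).2.1
      have h6 : A (p + (1, 1)) = Complex.exp (E p) * Complex.exp (E p) * A p := by
        simp only [hA, Prod.fst_add, Prod.snd_add]
        rw [← x1, ← x2, ← Complex.exp_add, ← Complex.exp_add, hE]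
        congr 1; ring
      have h7 := norm_le_of_neg (A := A p) (B := A (p + (1, 1)))
        (t := (Complex.exp (E p)).im ^ 2) (sq_nonneg _) (by
          rw [h6]
          generalize (Complex.exp (E p)).im = y at h5
          rw [h5]
          push_cast
          linear_combination (y : ℂ) ^ 2 * A p * Complex.I_mul_I)
      linarith [A1 p, D1 p]
    · rw [Dp]
      by_cases hp : 0 < D p
      · have x := (hM (a p.1, a p.2) (ne1 p hp)).2.2 k
        have e : E (p + (1, 1)) = k * c - E p := by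
          simp only [hE, Prod.fst_add, Prod.snd_add, add_assoc, one_add_one_eq_two, a2]
          rw [x]; ring
        have k1 : Complex.exp (k * c) = -1 := by rw [Complex.exp_int_mul, hc, hk.neg_one_zpow]
        have k2 : Complex.exp (-(k * c)) = -1 := by rw [Complex.exp_neg, k1]; norm_num
        rw [e, show -(k * c - E p) = -(k * c) + E p by ring, sub_eq_add_neg (k * c),
          Complex.exp_add, Complex.exp_add, k1, k2]
        simp only [Complex.add_re, neg_mul, one_mul, Complex.neg_re]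
        ring
      · rw [max_eq_right (by linarith [not_lt.1 hp])]; ring
    · have := (mN _).1 (diag u u).source_mem
      rw [max_eq_left (by linarith), hl]
      simp only [diag 0 u, if_true]
      linarith
    · have := (mN _).1 (top u u).source_mem
      have j : ¬JoinedIn N (0, 0) (u, u + 1) := fun h => hn (h.trans (top u 0))
      rw [max_eq_left (by linarith), hl]
      simp only [j, if_false]
      linarith
  have back := (main.map (f := fun p : ℝ × ℝ => (p.2, p.1 + 2)) (by fun_prop)).mono (V := N) (by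
    rintro _ ⟨x, hx, rfl⟩
    rw [mN] at hx ⊢
    have e : x.1 + 2 + 1 = x.1 + 1 + 2 := by ring
    simp only [hD, hA, Prod.fst_add, Prod.snd_add, e, g2] at hx ⊢
    rwa [norm_sub_rev, norm_sub_rev (γ (a (x.1 + 1)))])
  have t := top 0 1
  norm_num at main back t
  refine ((main.trans t).trans back.symm).mono fun p hp => ?_
  rw [mN, hD, min_lt_iff] at hp
  change ‖γ (a p.2) - γ (a p.1)‖ < 4 * r
  have e : γ (a p.2) - γ (a p.1) = A p := by rw [hA]
  rw [e]
  rcases hp with h | h
  · linarith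
  · linarith [norm_le_norm_sub_add (A p) (A (p + (1, 1))), A1 p]

theorem sepf_of_path {X : Type*} [MetricSpace X] [PreconnectedSpace X] {e : X → ℂ}
    (he : Continuous e) {γ : ℝ → ℂ} (hγ : Continuous γ) (per : Function.Periodic γ 1)
    (miss : ∀ t x, γ t ≠ e x) {x0 : X}
    (wind : ∀ l : ℝ → ℂ, Continuous l → (∀ t, Complex.exp (l t) = γ t - e x0) → l 1 ≠ l 0)
    {s t : I → ℝ} (hs : Continuous s) (ht : Continuous t) (h0 : t 0 = s 0) {k : ℤ} (hk : k ≠ 0)
    (h1 : t 1 = s 1 + k) :
    ∃ G : I × X → ℝ, Sepf G ∧ ∀ τ x, G (τ, x) = 0 → ‖γ (s τ) - e x‖ ≤ ‖γ (t τ) - γ (s τ)‖ := by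
  have ne : ∀ t x, γ t - e x ≠ 0 := fun t x => sub_ne_zero.2 (miss t x)
  obtain ⟨L, L1, L2⟩ := log_homotopy (Y := X × ℝ)
    (H := fun q => (γ (q.1 * q.2.2) - e q.2.1) / (γ 0 - e q.2.1))
    (Continuous.div (by fun_prop) (by fun_prop) fun q => ne _ _)
    (fun q => div_ne_zero (ne _ _) (ne _ _)) (l := fun _ => 0) continuous_const
    (fun y => by simp [div_self (ne _ _)])
  simp only [Set.Icc.coe_one, one_mul] at L2
  have ex : ∀ q : X × ℝ, Complex.exp (L (q.1, q.2 + 1) - L q) = 1 := fun q => by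
    rw [Complex.exp_sub, L2, L2, per, div_self (div_ne_zero (ne _ _) (ne _ _))]
  have cst := fun q => const_of_exp' (g := fun q : X × ℝ => L (q.1, q.2 + 1) - L q) (by fun_prop)
    ex q (x0, 0)
  obtain ⟨n, hn⟩ := Complex.exp_eq_one_iff.1 (ex (x0, 0))
  have n0 : n ≠ 0 := by
    rintro rfl
    refine wind (fun t => L (x0, t) + Complex.log (γ 0 - e x0)) (by fun_prop) (fun t => ?_) ?_
    · rw [Complex.exp_add, L2, Complex.exp_log (ne _ _), div_mul_cancel₀ _ (ne _ _)]
    · simp only [zero_add, Int.cast_zero, zero_mul] at hn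
      linear_combination hn
  have sh : ∀ x u, L (x, u + k) = L (x, u) + k * (n * (2 * π * Complex.I)) := fun x u =>
    add_int (f := fun u => L (x, u)) (fun u => by
      have := cst (x, u)
      simp only [hn] at this
      linear_combination this) u k
  refine ⟨fun q => |(L (q.2, t q.1) - L (q.2, s q.1)).im| - π,
    ⟨by fun_prop, fun x => by simp [h0, pi_pos], fun x => ?_⟩, fun τ x hz => ?_⟩
  · have : (L (x, t 1) - L (x, s 1)).im = ((k * n : ℤ) : ℝ) * (2 * π) := by
      rw [h1, sh]; simp; ring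
    have b : (1 : ℝ) ≤ |((k * n : ℤ) : ℝ)| := by
      exact_mod_cast Int.one_le_abs (mul_ne_zero hk n0)
    simp only [this, abs_mul ((k * n : ℤ) : ℝ), abs_of_pos two_pi_pos]
    nlinarith [pi_pos]
  · obtain ⟨z, hz'⟩ : ∃ z, z = L (x, t τ) - L (x, s τ) := ⟨_, rfl⟩
    simp only [← hz'] at hz
    have a : Complex.exp z = -(Real.exp z.re : ℝ) := by
      rcases (abs_eq pi_pos.le).1 (sub_eq_zero.1 hz) with h | h <;>
        exact Complex.ext (by simp [Complex.exp_re, h]) (by simp [Complex.exp_im, h])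
    have b : γ (t τ) - e x = Complex.exp z * (γ (s τ) - e x) := by
      rw [hz', Complex.exp_sub, L2, L2]
      field_simp [ne]
    have := norm_le_of_neg (Real.exp_pos z.re).le (a ▸ b)
    rwa [sub_sub_sub_cancel_right, norm_sub_rev (γ (s τ)) (γ (t τ))] at this

end Pool.Agent.Work.MP_8493f1_gt
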