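import Pool.Agent.Work.MP_8493f1_gt.H82Band

/-! A simple closed lattice polygon that winds around a compact plane set and stays close to it. -/

set_option autoImplicit false

namespace Pool.Agent.Work.MP_8493f1_gt

open Set Metric Filter Topology unitInterval Real

/-- Neighbours in the square lattice. -/
def Adj4 (v w : ℤ × ℤ) : Prop :=
  w = v + (1, 0) ∨ w = v + (0, 1) ∨ v = w + (1, 0) ∨ v = w + (0, 1)

/-- Signed crossing of a lattice step with the horizontal ray from the centre of the unit square. -/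
def cr (v w : ℤ × ℤ) : ℤ :=
  if 1 ≤ v.1 ∧ 1 ≤ w.1 then
    (if v.2 = 0 ∧ w.2 = 1 then 1 else if v.2 = 1 ∧ w.2 = 0 then -1 else 0) else 0

theorem Adj4.symm {v w : ℤ × ℤ} (h : Adj4 v w) : Adj4 w v := by
  unfold Adj4 at *; tauto

theorem cr_swap (v w : ℤ × ℤ) : cr w v = -cr v w := by
  unfold cr; split_ifs <;> omega

/-- Steps in the cyclic cover of the lattice graph on a set of vertices. -/
def Step (R : Set (ℤ × ℤ)) (p q : (ℤ × ℤ) × ℤ) : Prop :=
  p.1 ∈ R ∧ q.1 ∈ R ∧ Adj4 p.1 q.1 ∧ q.2 = p.2 + cr p.1 q.1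

theorem Step.symm {R : Set (ℤ × ℤ)} {p q : (ℤ × ℤ) × ℤ} (h : Step R p q) : Step R q p :=
  ⟨h.2.1, h.1, h.2.2.1.symm, by rw [h.2.2.2, cr_swap p.1 q.1]; ring⟩

theorem sum_shift {S : Finset (ℤ × ℤ)} {f : ℤ × ℤ → ℤ} (d : ℤ × ℤ)
    (h : ∀ q, ¬(q ∈ S ↔ q - d ∈ S) → f q = 0) : ∑ q ∈ S, f (q + d) = ∑ q ∈ S, f q := by
  have m : ∀ q, q ∈ S.image (· + d) ↔ q - d ∈ S := fun q => by
    rw [Finset.mem_image]
    exact ⟨fun ⟨x, hx, e⟩ => by rwa [← e, add_sub_cancel_right], fun e => ⟨_, e, by simp⟩⟩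
  rw [← Finset.sum_image (s := S) (g := (· + d)) (f := f) fun x _ y _ e => add_right_cancel e]
  refine (Finset.sum_subset (Finset.subset_union_left (s₂ := S)) fun x hx hx' => ?_).trans
    (Finset.sum_subset Finset.subset_union_right fun x hx hx' => ?_).symm
  · exact h x fun e => hx' ((m x).2 (e.1 ((Finset.mem_union.1 hx).resolve_left hx')))
  · exact h x fun e => hx' (e.2 ((m x).1 ((Finset.mem_union.1 hx).resolve_right hx')))

private theorem cr_hz (a b j : ℤ) : cr (a, j) (b, j) = 0 := by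
  simp only [cr]
  split_ifs <;> omega

private theorem cr_vt (i j : ℤ) : cr (i, j) (i, j + 1) = if 1 ≤ i ∧ j = 0 then 1 else 0 := by
  simp only [cr]
  split_ifs <;> omega

private theorem cr_square (q : ℤ × ℤ) :
    cr (q + (1, 0)) (q + (1, 0) + (0, 1)) - cr q (q + (0, 1)) + cr q (q + (1, 0)) -
      cr (q + (0, 1)) (q + (1, 0) + (0, 1)) = if q = (0, 0) then 1 else 0 := by
  obtain ⟨i, j⟩ := q
  simp only [Prod.mk_add_mk, add_zero, cr_hz, cr_vt, Prod.mk.injEq]
  split_ifs <;> omega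

theorem exists_loop_cover {R : Set (ℤ × ℤ)} {S : Finset (ℤ × ℤ)} (h0 : (0, 0) ∈ S)
    (hH : ∀ q, ¬(q ∈ S ↔ q - (0, 1) ∈ S) → q ∈ R ∧ q + (1, 0) ∈ R)
    (hV : ∀ q, ¬(q ∈ S ↔ q - (1, 0) ∈ S) → q ∈ R ∧ q + (0, 1) ∈ R) :
    ∃ v m m', m ≠ m' ∧ Relation.ReflTransGen (Step R) (v, m) (v, m') := by
  by_contra hn
  push Not at hn
  have sy : ∀ {p q}, Relation.ReflTransGen (Step R) p q → Relation.ReflTransGen (Step R) q p :=
    fun h => by
      induction h with
      | refl => exact .refl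
      | tail _ s ih => exact .head s.symm ih
  obtain ⟨b, hb⟩ : ∃ b : ℤ × ℤ → ℤ × ℤ, b = fun v => Classical.epsilon fun x =>
      ∃ m m', Relation.ReflTransGen (Step R) (x, m) (v, m') := ⟨_, rfl⟩
  have tr : ∀ {p q : (ℤ × ℤ) × ℤ} (t : ℤ), Relation.ReflTransGen (Step R) p q →
      Relation.ReflTransGen (Step R) (p.1, p.2 + t) (q.1, q.2 + t) := fun t h =>
    h.lift (fun p => (p.1, p.2 + t)) fun p q s =>
      ⟨s.1, s.2.1, s.2.2.1, by dsimp only; rw [s.2.2.2]; ring⟩
  have b1 : ∀ v, ∃ m, Relation.ReflTransGen (Step R) (b v, 0) (v, m) := fun v => by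
    obtain ⟨m, m', h⟩ := Classical.epsilon_spec (p := fun x =>
      ∃ m m', Relation.ReflTransGen (Step R) (x, m) (v, m')) ⟨v, 0, 0, .refl⟩
    have := tr (-m) h
    rw [hb]
    exact ⟨_, by simpa using this⟩
  choose α hα using b1
  have key : ∀ v w, v ∈ R → w ∈ R → Adj4 v w → α w = α v + cr v w := fun v w hv hw a => by
    have e : b v = b w := by
      rw [hb]
      dsimp only
      congr 1
      funext x
      refine propext ⟨fun ⟨m, m', h⟩ => ⟨m, m' + cr v w, h.tail ⟨hv, hw, a, rfl⟩⟩,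
        fun ⟨m, m', h⟩ => ⟨m, m' + cr w v, h.tail ⟨hw, hv, a.symm, rfl⟩⟩⟩
    by_contra ne
    refine hn w _ _ ne ((sy (hα w)).trans ?_)
    rw [← e]
    exact (hα v).tail ⟨hv, hw, a, rfl⟩
  have s1 := sum_shift (S := S) (f := fun q => α (q + (1, 0)) - α q - cr q (q + (1, 0))) (0, 1)
    fun q hq => by rw [key q _ (hH q hq).1 (hH q hq).2 (Or.inl rfl)]; ring
  have s2 := sum_shift (S := S) (f := fun q => α (q + (0, 1)) - α q - cr q (q + (0, 1))) (1, 0)
    fun q hq => by rw [key q _ (hV q hq).1 (hV q hq).2 (Or.inr (Or.inl rfl))]; ring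
  have s3 : ∑ q ∈ S, (if q = ((0, 0) : ℤ × ℤ) then (1 : ℤ) else 0) = 0 := by
    rw [← sub_eq_zero, ← Finset.sum_sub_distrib] at s1 s2
    have s4 := sub_eq_zero.2 (s1.trans s2.symm)
    rw [← Finset.sum_sub_distrib] at s4
    refine Eq.trans (Finset.sum_congr rfl fun q _ => ?_) s4
    rw [add_right_comm q (0, 1) (1, 0)]
    linarith only [cr_square q]
  rw [Finset.sum_ite_eq' S, if_pos h0] at s3
  exact one_ne_zero s3

theorem walk_of_rtg {V : Type*} {B : V → V → Prop} {p q : V} (h : Relation.ReflTransGen B p q) :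
    ∃ (n : ℕ) (u : ℕ → V), u 0 = p ∧ u n = q ∧ ∀ k < n, B (u k) (u (k + 1)) := by
  induction h with
  | refl => exact ⟨0, fun _ => p, rfl, rfl, fun k hk => absurd hk (by omega)⟩
  | @tail x y _ s ih =>
    obtain ⟨n, u, u0, un, hu⟩ := ih
    refine ⟨n + 1, fun k => if k ≤ n then u k else y, by simp [u0], by simp, fun k hk => ?_⟩
    rcases (Nat.lt_succ_iff.1 hk).eq_or_lt with e | e
    · subst e; simpa [un] using s
    · simp only [e.le, Nat.succ_le_of_lt e, if_true]; exact hu k e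

theorem exists_simple {V : Type*} {B : V × ℤ → V × ℤ → Prop}
    (h : ∃ v m m', m ≠ m' ∧ Relation.ReflTransGen B (v, m) (v, m')) :
    ∃ (n : ℕ) (u : ℕ → V × ℤ), (u n).1 = (u 0).1 ∧ (u n).2 ≠ (u 0).2 ∧
      (∀ k < n, B (u k) (u (k + 1))) ∧ ∀ i < n, ∀ j < n, (u i).1 = (u j).1 → i = j := by
  classical
  have ex : ∃ n : ℕ, ∃ u : ℕ → V × ℤ, (u n).1 = (u 0).1 ∧ (u n).2 ≠ (u 0).2 ∧
      ∀ k < n, B (u k) (u (k + 1)) := by
    obtain ⟨v, m, m', ne, h⟩ := h
    obtain ⟨n, u, u0, un, hu⟩ := walk_of_rtg h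
    exact ⟨n, u, by rw [u0, un], by rw [u0, un]; exact ne.symm, hu⟩
  obtain ⟨u, u1, u2, u3⟩ := Nat.find_spec ex
  have key : ∀ i j, i < j → j < Nat.find ex → (u i).1 ≠ (u j).1 := fun i j hij hj e => by
    by_cases e2 : (u i).2 = (u j).2
    · have e3 : u i = u j := Prod.ext e e2
      have f : ∀ k, i ≤ k → (if k ≤ i then u k else u (k + (j - i))) = u (k + (j - i)) := by
        intro k hk
        split_ifs with c
        · rw [le_antisymm c hk, e3]; congr 1; omega
        · rfl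
      have g : Nat.find ex - (j - i) + (j - i) = Nat.find ex := by omega
      refine Nat.find_min ex (m := Nat.find ex - (j - i)) (by omega)
        ⟨fun k => if k ≤ i then u k else u (k + (j - i)), ?_, ?_, fun k hk => ?_⟩
      · dsimp only
        rw [f _ (show i ≤ Nat.find ex - (j - i) by omega), g, if_pos (Nat.zero_le i), u1]
      · dsimp only
        rwa [f _ (show i ≤ Nat.find ex - (j - i) by omega), g, if_pos (Nat.zero_le i)]
      · by_cases c : k < i
        · simp only [c.le, Nat.succ_le_of_lt c, if_true]; exact u3 k (by omega)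
        · simp only [f k (by omega), f (k + 1) (by omega)]
          rw [add_right_comm]
          exact u3 _ (by omega)
    · have g : i + (j - i) = j := by omega
      exact Nat.find_min ex (m := j - i) (by omega) ⟨fun k => u (i + k), by simp [g, e],
        by simpa [g] using Ne.symm e2, fun k hk => u3 _ (by omega)⟩
  refine ⟨_, u, u1, u2, u3, fun i hi j hj e => ?_⟩
  rcases lt_trichotomy i j with c | c | c
  · exact absurd e (key i j c hj)
  · exact c
  · exact absurd e.symm (key j i c hi)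

theorem exists_cycle {R : Set (ℤ × ℤ)}
    (h : ∃ v m m', m ≠ m' ∧ Relation.ReflTransGen (Step R) (v, m) (v, m')) :
    ∃ (n : ℕ) (V : ℤ → ℤ × ℤ) (m : ℕ → ℤ), 3 ≤ n ∧ (∀ k, V k ∈ R) ∧ (∀ k, Adj4 (V k) (V (k + 1))) ∧
      (∀ k l, V k = V l ↔ (n : ℤ) ∣ l - k) ∧ m n ≠ m 0 ∧
      ∀ k < n, m (k + 1) = m k + cr (V k) (V (k + 1)) := by
  obtain ⟨n, u, u1, u2, u3, u4⟩ := exists_simple h
  have n3 : 3 ≤ n := by
    by_contra c
    obtain rfl | rfl | rfl : n = 0 ∨ n = 1 ∨ n = 2 := by omega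
    · exact u2 rfl
    · have := (u3 0 (by omega)).2.2.2
      rw [zero_add, u1] at this
      have s := cr_swap (u 0).1 (u 0).1
      omega
    · have a := (u3 0 (by omega)).2.2.2
      have b := (u3 1 (by omega)).2.2.2
      rw [show 1 + 1 = 2 from rfl, u1, cr_swap] at b
      rw [zero_add] at a
      omega
  have np : (0 : ℤ) < n := by omega
  have lt : ∀ k : ℤ, (k % n).toNat < n := fun k => by
    have := Int.emod_lt_of_pos k np
    omega
  have nx : ∀ k : ℤ, (u (((k + 1) % n).toNat)).1 = (u ((k % n).toNat + 1)).1 := fun k => by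
    have a := Int.emod_lt_of_pos k np
    have b := Int.emod_nonneg k np.ne'
    rw [← Int.emod_add_emod]
    rcases (show k % n + 1 ≤ n by omega).eq_or_lt with c | c
    · rw [c, Int.emod_self, show (k % n).toNat + 1 = n by omega, u1]; rfl
    · rw [Int.emod_eq_of_lt (by omega) c]; congr 2; omega
  refine ⟨n, fun k => (u (k % n).toNat).1, fun k => (u k).2, n3, fun k => (u3 _ (lt k)).1,
    fun k => by dsimp only; rw [nx]; exact (u3 _ (lt k)).2.2.1, fun k l => ?_, u2, fun k hk => ?_⟩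
  · rw [← Int.modEq_iff_dvd]
    refine ⟨fun e => ?_, fun e => by dsimp only; rw [show k % n = l % n from e]⟩
    have := u4 _ (lt k) _ (lt l) e
    have a := Int.emod_nonneg k np.ne'
    have b := Int.emod_nonneg l np.ne'
    change k % n = l % n
    omega
  · simp only [nx]
    rw [Int.emod_eq_of_lt (by omega) (by omega), Int.toNat_natCast]
    exact (u3 k hk).2.2.2

theorem int_three {m : ℤ} {x : ℝ} (h : (m : ℝ) = x) (h1 : -2 < x) (h2 : x < 2) :
    m = -1 ∨ m = 0 ∨ m = 1 := by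
  have a : (-2 : ℤ) < m := by exact_mod_cast h ▸ h1
  have b : m < (2 : ℤ) := by exact_mod_cast h ▸ h2
  omega

private theorem meet_line {a p q : ℤ} (hp : p = -1 ∨ p = 0 ∨ p = 1) (hq : q = -1 ∨ q = 0 ∨ q = 1)
    {s t : ℝ} (s0 : 0 ≤ s) (s1 : s < 1) (t0 : 0 ≤ t) (t1 : t < 1)
    (e : (a : ℝ) + s * p = t * q) : a = 0 ∨ (p = -a ∧ q = a ∧ p ≠ 0) := by
  rcases hp with rfl | rfl | rfl <;> rcases hq with rfl | rfl | rfl <;> push_cast at e <;>
    rcases int_three (m := a) rfl (by linarith) (by linarith) with rfl | rfl | rfl <;>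
    first
      | omega
      | (exfalso; push_cast at e; linarith)

theorem edge_meet {v w v' w' : ℤ × ℤ} (h : Adj4 v w) (h' : Adj4 v' w') {s t : ℝ} (s0 : 0 ≤ s)
    (s1 : s < 1) (t0 : 0 ≤ t) (t1 : t < 1)
    (e1 : (v.1 : ℝ) + s * (w.1 - v.1) = v'.1 + t * (w'.1 - v'.1))
    (e2 : (v.2 : ℝ) + s * (w.2 - v.2) = v'.2 + t * (w'.2 - v'.2)) :
    v = v' ∨ (v = w' ∧ w = v') := by
  have nf : ∀ {v w : ℤ × ℤ}, Adj4 v w →
      (w.1 - v.1 = -1 ∨ w.1 - v.1 = 0 ∨ w.1 - v.1 = 1) ∧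
      (w.2 - v.2 = -1 ∨ w.2 - v.2 = 0 ∨ w.2 - v.2 = 1) ∧
      (w.1 - v.1 = 0 ∨ w.2 - v.2 = 0) := fun {v w} h => by
    simp only [Adj4, Prod.ext_iff, Prod.fst_add, Prod.snd_add] at h
    omega
  obtain ⟨a1, a2, a3⟩ := nf h
  obtain ⟨b1, b2, b3⟩ := nf h'
  have c1 := meet_line (a := v.1 - v'.1) a1 b1 s0 s1 t0 t1 (by push_cast; linarith only [e1])
  have c2 := meet_line (a := v.2 - v'.2) a2 b2 s0 s1 t0 t1 (by push_cast; linarith only [e2])
  simp only [Prod.ext_iff]
  clear a1 a2 b1 b2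
  omega

/-- Position of a lattice vertex relative to the centre of the unit square, mesh `η`. -/
noncomputable def pos (η : ℝ) (v : ℤ × ℤ) : ℂ := ⟨η * (v.1 - 1 / 2), η * (v.2 - 1 / 2)⟩

theorem pos_adj {η : ℝ} (hη : 0 < η) {v w : ℤ × ℤ} (h : Adj4 v w) : ‖pos η w - pos η v‖ ≤ η := by
  refine (Complex.norm_le_abs_re_add_abs_im _).trans ?_
  rcases h with rfl | rfl | rfl | rfl <;>
    simp only [pos, Complex.sub_re, Complex.sub_im, Prod.fst_add, Prod.snd_add, ← mul_sub] <;>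
    push_cast <;> ring_nf <;> simp [abs_of_pos hη]

theorem log_on {l z : ℝ → ℂ} (hl : Continuous l) (hz : Continuous z) {c : ℂ}
    (h : ∀ t ∈ Icc (0 : ℝ) 1, Complex.exp (l t) = c * z t)
    (hs : ∀ t ∈ Icc (0 : ℝ) 1, z t ∈ Complex.slitPlane) :
    l 1 - Complex.log (z 1) = l 0 - Complex.log (z 0) :=
  const_of_exp isPreconnected_Icc (g := fun t => l t - Complex.log (z t))
    (hl.continuousOn.sub (hz.continuousOn.clog hs)) (c := c)
    (fun t ht => by
      rw [Complex.exp_sub, h t ht, Complex.exp_log (Complex.slitPlane_ne_zero (hs t ht)),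
        mul_div_cancel_right₀ _ (Complex.slitPlane_ne_zero (hs t ht))])
    (right_mem_Icc.2 zero_le_one) (left_mem_Icc.2 zero_le_one)

theorem edge_log_pos {η : ℝ} (hη : 0 < η) {v w : ℤ × ℤ} (h : w = v + (1, 0) ∨ w = v + (0, 1))
    {l : ℝ → ℂ} (hl : Continuous l)
    (he : ∀ t ∈ Icc (0 : ℝ) 1, Complex.exp (l t) = pos η v + t * (pos η w - pos η v)) :
    l 1 - Complex.log (-pos η w) =
      l 0 - Complex.log (-pos η v) + cr v w * (2 * π * Complex.I) := by
  have half : ∀ m : ℤ, η * ((m : ℝ) - 1 / 2) ≠ 0 := fun m e => by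
    have : ((2 * m : ℤ) : ℝ) = (1 : ℤ) := by
      have := (mul_eq_zero.1 e).resolve_left hη.ne'
      push_cast; linarith
    have := Int.cast_injective this
    omega
  obtain ⟨i, j⟩ := v
  by_cases c : w = (i, j) + (0, 1) ∧ 1 ≤ i ∧ j = 0
  · obtain ⟨rfl, hi, rfl⟩ := c
    have hi' : (1 : ℝ) ≤ i := by exact_mod_cast hi
    have k := log_on hl (z := fun t => pos η (i, 0) + t * (pos η ((i, 0) + (0, 1)) - pos η (i, 0)))
      (by fun_prop) (c := 1) (fun t ht => by rw [he t ht, one_mul]) fun t _ => Or.inl (by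
        simp [pos]; nlinarith)
    have a : Complex.log (-pos η ((i, 0) + (0, 1))) =
        Complex.log (pos η ((i, 0) + (0, 1))) - π * Complex.I := by
      rw [Complex.log, Complex.log, norm_neg,
        Complex.arg_neg_eq_arg_sub_pi_of_im_pos (by simp [pos]; linarith)]
      push_cast; ring
    have b : Complex.log (-pos η (i, 0)) = Complex.log (pos η (i, 0)) + π * Complex.I := by
      rw [Complex.log, Complex.log, norm_neg,
        Complex.arg_neg_eq_arg_add_pi_of_im_neg (by simp [pos]; linarith)]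
      push_cast; ring
    have d : cr (i, 0) ((i, 0) + (0, 1)) = 1 := by simp [cr, hi]
    rw [a, b, d]
    simp only [Complex.ofReal_one, Complex.ofReal_zero, one_mul, zero_mul, add_zero,
      add_sub_cancel] at k
    push_cast
    linear_combination k
  · have k := log_on hl (z := fun t => -(pos η (i, j) + t * (pos η w - pos η (i, j))))
      (by fun_prop) (c := -1) (fun t ht => by rw [he t ht]; ring) fun t ht => by
        rcases h with rfl | rfl
        · exact Or.inr (by simpa [pos] using half j)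
        · by_cases hi : 1 ≤ i
          · have hj : j ≠ 0 := fun e => c ⟨rfl, hi, e⟩
            refine Or.inr ?_
            have e : (-(pos η (i, j) + t * (pos η ((i, j) + (0, 1)) - pos η (i, j)))).im =
                -(η * (j - 1 / 2 + t)) := by simp [pos]; ring
            rw [e, neg_ne_zero]
            refine mul_ne_zero hη.ne' ?_
            rcases lt_or_gt_of_ne hj with f | f
            · have : (j : ℝ) ≤ -1 := by exact_mod_cast (show j ≤ -1 by omega)
              linarith [ht.2]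
            · have : (1 : ℝ) ≤ j := by exact_mod_cast f
              linarith [ht.1]
          · have : (i : ℝ) ≤ 0 := by exact_mod_cast (show i ≤ 0 by omega)
            exact Or.inl (by simp [pos]; nlinarith)
    have d : cr (i, j) w = 0 := by
      rcases h with rfl | rfl
      · simp only [cr, Prod.mk_add_mk]; split_ifs <;> omega
      · simp only [cr, Prod.mk_add_mk, true_and] at c ⊢; split_ifs <;> omega
    rw [d]
    simp only [Complex.ofReal_one, Complex.ofReal_zero, one_mul, zero_mul, add_zero,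
      add_sub_cancel] at k
    push_cast
    linear_combination k

theorem edge_log {η : ℝ} (hη : 0 < η) {v w : ℤ × ℤ} (h : Adj4 v w)
    {l : ℝ → ℂ} (hl : Continuous l)
    (he : ∀ t ∈ Icc (0 : ℝ) 1, Complex.exp (l t) = pos η v + t * (pos η w - pos η v)) :
    l 1 - Complex.log (-pos η w) =
      l 0 - Complex.log (-pos η v) + cr v w * (2 * π * Complex.I) := by
  rcases or_assoc.2 h with h | h
  · exact edge_log_pos hη h hl he
  · have := edge_log_pos hη h (l := fun t => l (1 - t)) (by fun_prop) fun t ht => by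
      rw [he _ ⟨by linarith [ht.2], by linarith [ht.1]⟩]; push_cast; ring
    simp only [sub_self, sub_zero, cr_swap v w] at this
    push_cast at this
    linear_combination -this

theorem exists_polygon {η : ℝ} (hη : 0 < η) {R : Set (ℤ × ℤ)}
    (h : ∃ v m m', m ≠ m' ∧ Relation.ReflTransGen (Step R) (v, m) (v, m')) :
    ∃ γ : ℝ → ℂ, Continuous γ ∧ Function.Periodic γ 1 ∧
      (∀ s t, γ s = γ t → ∃ k : ℤ, t = s + k) ∧ (∀ t, ∃ v ∈ R, ‖γ t - pos η v‖ ≤ η) ∧
      ∀ l : ℝ → ℂ, Continuous l → (∀ t, Complex.exp (l t) = γ t) → l 1 ≠ l 0 := by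
  obtain ⟨n, V, m, n3, hR, hA, hV, hm, hc⟩ := exists_cycle h
  have np : (0 : ℝ) < n := by exact_mod_cast (show 0 < n by omega)
  obtain ⟨g, hg⟩ : ∃ g : ℤ → ℝ → ℂ,
      g = fun (k : ℤ) (t : ℝ) => pos η (V k) + t * (pos η (V (k + 1)) - pos η (V k)) := ⟨_, rfl⟩
  obtain ⟨Q, hQ⟩ : ∃ Q : ℝ → ℂ, Q = fun t => g ⌊t⌋ (Int.fract t) := ⟨_, rfl⟩
  have Qc : Continuous Q := by
    rw [hQ]
    exact glue (fun k => by rw [hg]; fun_prop) fun k => by simp [hg]
  have Qe : ∀ (k : ℤ), ∀ t ∈ Icc (0 : ℝ) 1, Q (k + t) = g k t := fun k t ht => by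
    rw [hQ]
    dsimp only
    rw [Int.floor_intCast_add, Int.fract_intCast_add]
    rcases ht.2.eq_or_lt with rfl | e
    · simp [hg]
    · rw [Int.floor_eq_zero_iff.2 ⟨ht.1, e⟩, Int.fract_eq_self.2 ⟨ht.1, e⟩, add_zero]
  refine ⟨fun t => Q (n * t), by fun_prop, fun t => ?_, fun s t e => ?_, fun t => ?_,
    fun l hl he e => ?_⟩
  · have a : ∀ k : ℤ, V (k + n) = V k := fun k => (hV _ _).2 ⟨-1, by ring⟩
    simp only [hQ, mul_add, mul_one, Int.floor_add_natCast, Int.fract_add_natCast, hg]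
    rw [add_right_comm ⌊n * t⌋, a, a]
  · obtain ⟨x, hx⟩ : ∃ x, x = (n : ℝ) * s := ⟨_, rfl⟩
    obtain ⟨y, hy⟩ : ∃ y, y = (n : ℝ) * t := ⟨_, rfl⟩
    simp only [← hx, ← hy, hQ, hg] at e
    have e1 := congrArg Complex.re e
    have e2 := congrArg Complex.im e
    simp only [pos, Complex.add_re, Complex.add_im, Complex.re_ofReal_mul, Complex.im_ofReal_mul,
      Complex.sub_re, Complex.sub_im] at e1 e2
    rcases edge_meet (hA ⌊x⌋) (hA ⌊y⌋) (Int.fract_nonneg x) (Int.fract_lt_one x)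
      (Int.fract_nonneg y) (Int.fract_lt_one y)
      (mul_left_cancel₀ hη.ne' (by linear_combination e1))
      (mul_left_cancel₀ hη.ne' (by linear_combination e2)) with c | c
    · obtain ⟨k, hk⟩ := (hV _ _).1 c
      have c' : V (⌊x⌋ + 1) = V (⌊y⌋ + 1) := (hV _ _).2 ⟨k, by rw [← hk]; ring⟩
      have ne : pos η (V (⌊y⌋ + 1)) - pos η (V ⌊y⌋) ≠ 0 := fun z => by
        have z1 := congrArg Complex.re (sub_eq_zero.1 z)
        have z2 := congrArg Complex.im (sub_eq_zero.1 z)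
        simp only [pos, mul_eq_mul_left_iff, hη.ne', or_false, sub_left_inj, Int.cast_inj] at z1 z2
        have := Int.le_of_dvd (by omega) ((hV _ _).1 (Prod.ext z1 z2).symm)
        omega
      rw [c, c', add_right_inj, mul_left_inj' ne, Complex.ofReal_inj] at e
      refine ⟨k, mul_left_cancel₀ np.ne' ?_⟩
      have hk' : (⌊y⌋ : ℝ) - ⌊x⌋ = n * k := by exact_mod_cast hk
      rw [mul_add, ← hx, ← hy]
      linarith [Int.floor_add_fract x, Int.floor_add_fract y]
    · have := Int.le_of_dvd (by omega) (dvd_sub ((hV _ _).1 c.1) ((hV _ _).1 c.2))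
      omega
  · refine ⟨_, hR ⌊n * t⌋, ?_⟩
    simp only [hQ, hg, add_sub_cancel_left, norm_mul, Complex.norm_real, Real.norm_eq_abs]
    rw [abs_of_nonneg (Int.fract_nonneg _)]
    exact (mul_le_of_le_one_left (norm_nonneg _) (Int.fract_lt_one _).le).trans
      (pos_adj hη (hA _))
  · have key : ∀ k ≤ n, l (k / n) - Complex.log (-pos η (V k)) - m k * (2 * π * Complex.I) =
        l 0 - Complex.log (-pos η (V 0)) - m 0 * (2 * π * Complex.I) := by
      intro k hk
      induction k with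
      | zero => simp
      | succ k ih =>
        have := edge_log hη (hA k) (l := fun t => l ((k + t) / n)) (by fun_prop) fun t ht => by
          rw [he]
          dsimp only
          rw [mul_div_cancel₀ _ np.ne', ← Int.cast_natCast, Qe k t ht, hg]
        rw [← ih (by omega), hc k (by omega)]
        simp only [add_zero] at this
        push_cast
        linear_combination this
    have := key n le_rfl
    rw [div_self np.ne', e, (hV n 0).2 ⟨-1, by ring⟩, sub_right_inj,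
      mul_left_inj' Complex.two_pi_I_ne_zero] at this
    exact hm (by exact_mod_cast this)

theorem exists_curve {K : Set ℂ} (hK : IsCompact K) (h0 : (0 : ℂ) ∈ K) {δ : ℝ} (hδ : 0 < δ) :
    ∃ γ : ℝ → ℂ, Continuous γ ∧ Function.Periodic γ 1 ∧
      (∀ s t, γ s = γ t → ∃ k : ℤ, t = s + k) ∧ (∀ t, γ t ∉ K ∧ ∃ x ∈ K, ‖γ t - x‖ ≤ δ) ∧
      ∀ l : ℝ → ℂ, Continuous l → (∀ t, Complex.exp (l t) = γ t) → l 1 ≠ l 0 := by
  obtain ⟨η, hη, rfl⟩ : ∃ η : ℝ, 0 < η ∧ δ = 6 * η := ⟨δ / 6, by positivity, by ring⟩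
  obtain ⟨B, hB⟩ := hK.isBounded.exists_norm_le
  obtain ⟨T, hT⟩ := exists_nat_ge ((B + 3 * η) / η + 1)
  rw [← le_sub_iff_add_le, div_le_iff₀ hη] at hT
  have fin : {q : ℤ × ℤ | ∃ x ∈ K, ‖pos η q - x‖ ≤ 3 * η}.Finite := by
    have b : ∀ m : ℤ, |η * (m - 1 / 2)| ≤ B + 3 * η → m ∈ Icc (-(T : ℤ)) T := fun m hm => by
      have := abs_le.1 (hm.trans hT)
      have a1 : (-(T : ℝ)) ≤ m := le_of_mul_le_mul_left (by linarith only [hη, this, this.1]) hη
      have a2 : (m : ℝ) ≤ T := le_of_mul_le_mul_left (by linarith only [hη, this, this.2]) hη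
      exact ⟨by exact_mod_cast a1, by exact_mod_cast a2⟩
    refine ((finite_Icc (-(T : ℤ)) T).prod (finite_Icc (-(T : ℤ)) T)).subset ?_
    rintro q ⟨x, hx, hq⟩
    have : ‖pos η q‖ ≤ B + 3 * η := by linarith [norm_le_norm_sub_add (pos η q) x, hB x hx]
    exact ⟨b _ ((Complex.abs_re_le_norm _).trans this), b _ ((Complex.abs_im_le_norm _).trans this)⟩
  have tri : ∀ {v w : ℤ × ℤ}, Adj4 v w → ∀ x, ‖pos η w - x‖ ≤ ‖pos η v - x‖ + η :=
    fun {v w} h x => by
      linarith [norm_sub_le_norm_sub_add_norm_sub (pos η w) (pos η v) x, pos_adj hη h]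
  have good : ∀ q p w : ℤ × ℤ, Adj4 q p → Adj4 q w → ¬(q ∈ fin.toFinset ↔ p ∈ fin.toFinset) →
      ((∃ x ∈ K, ‖pos η q - x‖ ≤ 5 * η) ∧ ∀ x ∈ K, η < ‖pos η q - x‖) ∧
        (∃ x ∈ K, ‖pos η w - x‖ ≤ 5 * η) ∧ ∀ x ∈ K, η < ‖pos η w - x‖ := by
    intro q p w h1 h2 h
    simp only [Finite.mem_toFinset, mem_ofPred_eq] at h
    have a : (∃ x ∈ K, ‖pos η q - x‖ ≤ 4 * η) ∧ ∀ x ∈ K, 2 * η < ‖pos η q - x‖ := by
      by_cases c : ∃ x ∈ K, ‖pos η q - x‖ ≤ 3 * η
      · have d : ¬∃ x ∈ K, ‖pos η p - x‖ ≤ 3 * η := fun d => h ⟨fun _ => d, fun _ => c⟩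
        push Not at d
        obtain ⟨x, hx, e⟩ := c
        exact ⟨⟨x, hx, by linarith⟩, fun y hy => by linarith [d y hy, tri h1 y]⟩
      · obtain ⟨x, hx, e⟩ : ∃ x ∈ K, ‖pos η p - x‖ ≤ 3 * η := by
          by_contra d
          exact h ⟨fun e => absurd e c, fun e => absurd e d⟩
        push Not at c
        exact ⟨⟨x, hx, by linarith [tri h1.symm x]⟩, fun y hy => by linarith [c y hy]⟩
    obtain ⟨⟨x, hx, e⟩, f⟩ := a
    exact ⟨⟨⟨x, hx, by linarith⟩, fun y hy => by linarith [f y hy]⟩,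
      ⟨x, hx, by linarith [tri h2 x]⟩, fun y hy => by linarith [f y hy, tri h2.symm y]⟩
  obtain ⟨γ, g1, g2, g3, g4, g5⟩ := exists_polygon hη (exists_loop_cover
    (R := {q | (∃ x ∈ K, ‖pos η q - x‖ ≤ 5 * η) ∧ ∀ x ∈ K, η < ‖pos η q - x‖})
    (S := fin.toFinset)
    (fin.mem_toFinset.2 ⟨0, h0, by
      refine (Complex.norm_le_abs_re_add_abs_im _).trans ?_
      simp [pos, abs_mul, abs_of_pos hη]; linarith⟩)
    (fun q => good q _ _ (Or.inr (Or.inr (Or.inr (by simp)))) (Or.inl rfl))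
    fun q => good q _ _ (Or.inr (Or.inr (Or.inl (by simp)))) (Or.inr (Or.inl rfl)))
  refine ⟨γ, g1, g2, g3, fun t => ?_, g5⟩
  obtain ⟨v, ⟨⟨x, hx, e⟩, f⟩, hv⟩ := g4 t
  refine ⟨fun h => ?_, x, hx, by linarith [norm_sub_le_norm_sub_add_norm_sub (γ t) (pos η v) x]⟩
  have := f _ h
  rw [norm_sub_rev] at this
  linarith

end Pool.Agent.Work.MP_8493f1_gt
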