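import Mathlib.Analysis.Convex.PathConnected
import Mathlib.Topology.Connected.LocallyPathConnected
import Mathlib.Topology.Algebra.Order.Floor
import Pool.Agent.Work.MP_8493f1_gt.H97Main

/-! Continuous logarithms and two parity lemmas in the parameter plane. -/

set_option autoImplicit false

namespace Pool.Agent.Work.MP_8493f1_gt

open Set Metric Filter Topology unitInterval Real

theorem log_homotopy {Y : Type*} [TopologicalSpace Y] {H : I × Y → ℂ} (hH : Continuous H)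
    (hne : ∀ p, H p ≠ 0) {l : Y → ℂ} (hl : Continuous l)
    (h0 : ∀ y, Complex.exp (l y) = H (0, y)) :
    ∃ L : Y → ℂ, Continuous L ∧ ∀ y, Complex.exp (L y) = H (1, y) := by
  have H0 : ∀ y, (⟨fun p => ⟨H p, hne p⟩, hH.subtype_mk _⟩ : C(I × Y, {z : ℂ // z ≠ 0})) (0, y) =
      (fun z : ℂ => (⟨_, z.exp_ne_zero⟩ : {z : ℂ // z ≠ 0})) ((⟨l, hl⟩ : C(Y, ℂ)) y) :=
    fun y => Subtype.ext (h0 y).symm
  refine ⟨fun y => Complex.isCoveringMap_exp.liftHomotopy _ _ H0 (1, y), by fun_prop, fun y => ?_⟩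
  exact congrArg Subtype.val
    (congrFun (Complex.isCoveringMap_exp.liftHomotopy_lifts _ _ H0) (1, y))

theorem log_convex {Y : Set (ℝ × ℝ)} (hY : Convex ℝ Y) {p0 : ℝ × ℝ} (hp : p0 ∈ Y)
    {F : ℝ × ℝ → ℂ} (hF : ContinuousOn F Y) (hne : ∀ p ∈ Y, F p ≠ 0) :
    ∃ L : ℝ × ℝ → ℂ, ContinuousOn L Y ∧ ∀ p ∈ Y, Complex.exp (L p) = F p := by
  classical
  have hm : ∀ q : I × Y, (1 - (q.1 : ℝ)) • p0 + (q.1 : ℝ) • (q.2 : ℝ × ℝ) ∈ Y := fun q =>
    hY hp q.2.2 (sub_nonneg.2 q.1.2.2) q.1.2.1 (by ring)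
  have hH : Continuous fun q : I × Y => F ((1 - (q.1 : ℝ)) • p0 + (q.1 : ℝ) • (q.2 : ℝ × ℝ)) :=
    hF.comp_continuous (by fun_prop) hm
  obtain ⟨L, L1, L2⟩ := log_homotopy hH (fun q => hne _ (hm q))
    (l := fun _ => Complex.log (F p0)) continuous_const
    (fun y => by simp [Complex.exp_log (hne p0 hp)])
  refine ⟨fun p => if h : p ∈ Y then L ⟨p, h⟩ else 0, ?_, fun p h => ?_⟩
  · rw [continuousOn_iff_continuous_domRestrict]
    refine L1.congr fun p => ?_
    simp [p.2]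
  · simp [h, L2]

theorem log_plane {F : ℝ × ℝ → ℂ} (hF : Continuous F) (hne : ∀ p, F p ≠ 0) :
    ∃ L : ℝ × ℝ → ℂ, Continuous L ∧ ∀ p, Complex.exp (L p) = F p := by
  obtain ⟨L, L1, L2⟩ := log_convex convex_univ (mem_univ 0) hF.continuousOn fun p _ => hne p
  exact ⟨L, continuousOn_univ.1 L1, fun p => L2 p (mem_univ p)⟩

theorem const_of_exp {Y : Type*} [TopologicalSpace Y] {s : Set Y} (hs : IsPreconnected s)
    {g : Y → ℂ} (hg : ContinuousOn g s) {c : ℂ} (h : ∀ y ∈ s, Complex.exp (g y) = c) {a b : Y}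
    (ha : a ∈ s) (hb : b ∈ s) : g a = g b :=
  Complex.isCoveringMap_exp.constOn_of_comp hs hg
    (fun x hx y hy => Subtype.ext ((h x hx).trans (h y hy).symm)) ha hb

theorem const_of_exp' {Y : Type*} [TopologicalSpace Y] [PreconnectedSpace Y]
    {g : Y → ℂ} (hg : Continuous g) {c : ℂ} (h : ∀ y, Complex.exp (g y) = c) (a b : Y) :
    g a = g b :=
  const_of_exp isPreconnected_univ hg.continuousOn (fun y _ => h y) (mem_univ a) (mem_univ b)

theorem glue {Y : Type*} [TopologicalSpace Y] {g : ℤ → ℝ → Y} (hg : ∀ k, Continuous (g k))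
    (h : ∀ k, g k 1 = g (k + 1) 0) : Continuous fun t : ℝ => g ⌊t⌋ (Int.fract t) := by
  have key : ∀ k : ℤ, ContinuousOn (fun t : ℝ => g ⌊t⌋ (Int.fract t)) (Icc (k : ℝ) (k + 1)) := by
    intro k
    have c : Continuous fun t : ℝ => g k (t - k) := (hg k).comp (by fun_prop)
    refine c.continuousOn.congr fun t ht => ?_
    rcases ht.2.eq_or_lt with e | e
    · have e' : t = ((k + 1 : ℤ) : ℝ) := by rw [e]; push_cast; ring
      have e2 : t - k = 1 := by rw [e]; ring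
      simp only [e2, h k]
      rw [e', Int.floor_intCast, Int.fract_intCast]
    · have f : ⌊t⌋ = k := Int.floor_eq_iff.2 ⟨ht.1, e⟩
      simp only [Int.fract, f]
  rw [continuous_iff_continuousAt]
  intro t
  have u := (key (⌊t⌋ - 1)).union_of_isClosed (key ⌊t⌋) isClosed_Icc isClosed_Icc
  refine u.continuousAt (mem_of_superset
    (Ioo_mem_nhds (a := (⌊t⌋ : ℝ) - 1) (b := (⌊t⌋ : ℝ) + 1)
      (by linarith [Int.floor_le t]) (Int.lt_floor_add_one t)) fun s hs => ?_)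
  rcases le_total s ⌊t⌋ with e | e
  · exact Or.inl ⟨by push_cast; exact hs.1.le, by push_cast; linarith⟩
  · exact Or.inr ⟨e, hs.2.le⟩

theorem add_int {f : ℝ → ℂ} {c : ℂ} (h : ∀ t, f (t + 1) = f t + c) (t : ℝ) (k : ℤ) :
    f (t + k) = f t + k * c := by
  induction k using Int.induction_on with
  | zero => simp
  | succ n ih =>
    push_cast at ih ⊢
    rw [← add_assoc, h, ih]; ring
  | pred n ih =>
    have := h (t + (-(n : ℝ) - 1))
    rw [show t + (-(n : ℝ) - 1) + 1 = t + -(n : ℝ) by ring] at this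
    push_cast at ih ⊢
    rw [ih] at this
    linear_combination -this

theorem sign_cont {N : Set (ℝ × ℝ)} (hN : IsOpen N) {d lam : ℝ × ℝ → ℝ} (hd : Continuous d)
    (h0 : ∀ p ∉ N, d p = 0) (h1 : ∀ p, |lam p| ≤ 1)
    (h2 : ∀ p q, JoinedIn N p q → lam p = lam q) : Continuous fun p => lam p * d p := by
  rw [continuous_iff_continuousAt]
  intro p
  by_cases hp : p ∈ N
  · have c : ContinuousAt (fun q => lam p * d q) p := (continuous_const.mul hd).continuousAt
    refine c.congr ?_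
    filter_upwards [pathComponentIn_mem_nhds (hN.mem_nhds hp)] with q hq
    rw [h2 p q hq]
  · have t : Tendsto (fun q => |d q|) (𝓝 p) (𝓝 0) := by
      have := (hd.abs.tendsto p)
      rwa [h0 p hp, abs_zero] at this
    rw [ContinuousAt, h0 p hp, mul_zero]
    refine squeeze_zero_norm (fun q => ?_) t
    rw [Real.norm_eq_abs, abs_mul]
    exact mul_le_of_le_one_left (abs_nonneg _) (h1 q)

theorem mid_value {y : ℝ → ℝ} (hy : Continuous y) {m : ℝ} (h : y 1 + y 0 = 2 * m) :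
    ∃ u, y u = m := by
  rcases le_total (y 0) m with e | e
  · exact intermediate_value_univ 0 1 hy ⟨e, by linarith⟩
  · exact intermediate_value_univ 1 0 hy ⟨by linarith, e⟩

/-- A separator of an annulus cannot trivialise the connected double cover. -/
theorem odd_dual {g ψ : ℝ × ℝ → ℝ} (hg : Continuous g) (hψ : Continuous ψ)
    (hne : ∀ p, g p = 0 → ψ p ≠ 0) (g1 : ∀ p, g (p + (1, 1)) = g p)
    (ψ1 : ∀ p, ψ (p + (1, 1)) = -ψ p) (b : ∀ u, g (u, u) < 0) (t : ∀ u, 0 < g (u, u + 1)) :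
    False := by
  obtain ⟨F, hF⟩ : ∃ F : ℝ × ℝ → ℂ, F = fun p => (g p : ℂ) + (ψ p : ℂ) * Complex.I := ⟨_, rfl⟩
  have Fre : ∀ p, (F p).re = g p := fun p => by simp [hF]
  have Fim : ∀ p, (F p).im = ψ p := fun p => by simp [hF]
  have Fne : ∀ p, F p ≠ 0 := fun p e => hne p (by rw [← Fre, e]; rfl) (by rw [← Fim, e]; rfl)
  have Fs : ∀ p, F (p + (1, 1)) = (starRingEnd ℂ) (F p) := fun p =>
    Complex.ext (by simp [Fre, g1]) (by simp [Fim, ψ1])
  obtain ⟨L, L1, L2⟩ := log_plane (F := F) (by rw [hF]; fun_prop) Fne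
  have c := const_of_exp' (g := fun p => L (p + (1, 1)) - (starRingEnd ℂ) (L p)) (by fun_prop)
    (c := 1) fun p => by
      rw [Complex.exp_sub, Complex.exp_conj, L2, L2, Fs, div_self]
      exact (map_ne_zero _).2 (Fne p)
  have key : ∀ p, (L (p + (1, 1))).im + (L p).im =
      2 * (((L ((0 : ℝ × ℝ) + (1, 1))).im + (L 0).im) / 2) := fun p => by
    have := congrArg Complex.im (c p 0)
    simp only [Complex.sub_im, Complex.conj_im] at this
    linarith
  have e1 : ∀ p, g p = Real.exp (L p).re * Real.cos (L p).im := fun p => by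
    rw [← Fre, ← L2, Complex.exp_re]
  obtain ⟨u, hu⟩ := mid_value (y := fun u => (L (u, u)).im) (by fun_prop)
    (by simpa using key (0, 0))
  obtain ⟨v, hv⟩ := mid_value (y := fun u => (L (u, u + 1)).im) (by fun_prop)
    (by simpa using key (0, 1))
  have b' := b u
  have t' := t v
  rw [e1] at b' t'
  have a1 := neg_of_mul_neg_right b' (Real.exp_pos _).le
  have a2 := (mul_pos_iff_of_pos_left (Real.exp_pos _)).1 t'
  rw [hu] at a1
  rw [hv] at a2
  linarith

/-- An odd function with zeros in the near set forces a symmetric near component. -/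
theorem exists_join {d φ : ℝ × ℝ → ℝ} (hd : Continuous d) (hφ : Continuous φ) {r : ℝ} (hr : 0 < r)
    (ds : ∀ s t, d (t, s + 1) = d (s, t)) (d0 : ∀ s, d (s, s) = 0)
    (φs : ∀ s t, φ (t, s + 1) = -φ (s, t)) (φ0 : ∀ s, φ (s, s) = 0)
    (hz : ∀ p, φ p = 0 → d p < r) :
    ∃ (p : ℝ × ℝ) (j : ℤ), JoinedIn {p | d p < r} p (p.2 + j, p.1 + 1 + j) := by
  classical
  by_contra hn
  push Not at hn
  obtain ⟨N, hN⟩ : ∃ N : Set (ℝ × ℝ), N = {p | d p < r} := ⟨_, rfl⟩
  rw [← hN] at hn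
  have mN : ∀ p, p ∈ N ↔ d p < r := fun p => by rw [hN]; rfl
  obtain ⟨sw, hsw⟩ : ∃ sw : ℝ × ℝ → ℝ × ℝ, sw = fun p => (p.2, p.1 + 1) := ⟨_, rfl⟩
  have swc : Continuous sw := by rw [hsw]; fun_prop
  have swsw : ∀ p, sw (sw p) = p + (1, 1) := fun p => by rw [hsw]; rfl
  have dsw : ∀ p, d (sw p) = d p := fun p => by rw [hsw]; exact ds p.1 p.2
  have per : Function.Periodic d ((1, 1) : ℝ × ℝ) := fun p => by rw [← swsw, dsw, dsw]
  have jsw : ∀ p q, JoinedIn N p q → JoinedIn N (sw p) (sw q) := fun p q h =>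
    (h.map swc).mono (by rintro _ ⟨x, hx, rfl⟩; rwa [mN, dsw, ← mN])
  have jt : ∀ (j : ℤ) p q, JoinedIn N p q →
      JoinedIn N (p + j • ((1, 1) : ℝ × ℝ)) (q + j • ((1, 1) : ℝ × ℝ)) := fun j p q h =>
    (h.map (f := fun x => x + j • ((1, 1) : ℝ × ℝ)) (by fun_prop)).mono
      (by rintro _ ⟨x, hx, rfl⟩; rwa [mN, per.zsmul j x, ← mN])
  obtain ⟨cl, hcl⟩ : ∃ cl : ℝ × ℝ → Set (ℝ × ℝ),
      cl = fun p => {q | ∃ j : ℤ, JoinedIn N p (q + j • ((1, 1) : ℝ × ℝ))} := ⟨_, rfl⟩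
  have c1 : ∀ p q, JoinedIn N p q → cl p = cl q := fun p q h => by
    rw [hcl]
    exact Set.ext fun x => ⟨fun ⟨j, e⟩ => ⟨j, h.symm.trans e⟩, fun ⟨j, e⟩ => ⟨j, h.trans e⟩⟩
  have c2 : ∀ p, cl (sw (sw p)) = cl p := fun p => by
    rw [swsw, hcl]
    refine Set.ext fun x => ⟨fun ⟨j, e⟩ => ⟨j + -1, ?_⟩, fun ⟨j, e⟩ => ⟨j + 1, ?_⟩⟩
    · have := jt (-1) _ _ e
      rwa [add_assoc, add_assoc, ← add_zsmul, neg_one_zsmul, add_neg_cancel, add_zero] at this
    · have := jt 1 _ _ e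
      rwa [add_assoc, ← add_zsmul, one_zsmul] at this
  have c3 : ∀ p ∈ N, cl p ≠ cl (sw p) := fun p hp e => by
    have : sw p ∈ cl (sw p) := by
      rw [hcl]
      exact ⟨0, by rw [zero_zsmul, add_zero]; exact JoinedIn.refl (by rwa [mN, dsw, ← mN])⟩
    rw [← e, hcl] at this
    obtain ⟨j, hj⟩ := this
    refine hn p j ?_
    convert hj using 1
    rw [hsw]; ext <;> simp
  obtain ⟨lam, hl⟩ : ∃ lam : ℝ × ℝ → ℝ,
      lam = fun p => if WellOrderingRel (cl p) (cl (sw p)) then 1 else -1 := ⟨_, rfl⟩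
  have l1 : ∀ p, lam p = 1 ∨ lam p = -1 := fun p => by rw [hl]; dsimp only; split_ifs <;> simp
  have l2 : ∀ p ∈ N, lam (sw p) = -lam p := fun p hp => by
    rw [hl]
    dsimp only
    rw [c2]
    rcases trichotomous_of WellOrderingRel (cl p) (cl (sw p)) with e | e | e
    · rw [if_pos e, if_neg (asymm e)]
    · exact absurd e (c3 p hp)
    · rw [if_pos e, if_neg (asymm e), neg_neg]
  have ψc : Continuous fun p => lam p * max (r - d p) 0 :=
    sign_cont (N := N) (by rw [hN]; exact isOpen_lt hd continuous_const) (by fun_prop)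
      (fun p hp => max_eq_right (by rw [mN] at hp; linarith [not_lt.1 hp]))
      (fun p => by rcases l1 p with e | e <;> simp [e])
      (fun p q h => by rw [hl]; dsimp only; rw [c1 p q h, c1 _ _ (jsw p q h)])
  obtain ⟨F, hF⟩ : ∃ F : ℝ × ℝ → ℂ,
      F = fun p => ((lam p * max (r - d p) 0 : ℝ) : ℂ) + (φ p : ℂ) * Complex.I := ⟨_, rfl⟩
  have Fre : ∀ p, (F p).re = lam p * max (r - d p) 0 := fun p => by simp [hF]
  have Fim : ∀ p, (F p).im = φ p := fun p => by simp [hF]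
  have Fne : ∀ p, F p ≠ 0 := fun p e => by
    have a := hz p (by rw [← Fim, e]; rfl)
    have b := Fre p
    rw [e, max_eq_left (by linarith), Complex.zero_re] at b
    rcases l1 p with c | c <;> rw [c] at b <;> linarith
  have Fs : ∀ p, F (sw p) = -F p := fun p => by
    refine Complex.ext ?_ ?_
    · rw [Complex.neg_re, Fre, Fre, dsw]
      by_cases hp : p ∈ N
      · rw [l2 p hp]; ring
      · rw [mN] at hp
        rw [max_eq_right (by linarith [not_lt.1 hp])]; ring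
    · rw [Complex.neg_im, Fim, Fim, hsw]; exact φs p.1 p.2
  have Fc : Continuous F := by
    rw [hF]
    exact (Complex.continuous_ofReal.comp ψc).add (by fun_prop)
  obtain ⟨L, L1, L2⟩ := log_plane Fc Fne
  have ex : ∀ p, Complex.exp (L (sw p) - L p) = -1 := fun p => by
    rw [Complex.exp_sub, L2, L2, Fs, neg_div, div_self (Fne p)]
  have k1 := const_of_exp' (g := fun p => L (sw p) - L p) (by fun_prop) ex (sw (0, 0)) (0, 0)
  have k2 := const_of_exp' (g := fun u : ℝ => L (u, u) + L (u, u)) (by fun_prop)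
    (c := (r : ℂ) ^ 2) (fun u => by
      have : F (u, u) = (lam (u, u) * r : ℝ) :=
        Complex.ext (by rw [Fre, d0, sub_zero, max_eq_left hr.le]; simp) (by simp [Fim, φ0])
      rw [Complex.exp_add, L2, this]
      rcases l1 (u, u) with e | e <;> rw [e] <;> push_cast <;> ring) 1 0
  have k3 : sw (sw (0, 0)) = (1, 1) := by rw [swsw]; simp
  simp only [k3] at k1 k2
  have k4 : L (sw (0, 0)) - L (0, 0) = 0 := by linear_combination (k2 - 2 * k1) / 4
  have := ex (0, 0)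
  rw [k4, Complex.exp_zero] at this
  norm_num at this

theorem exists_param {γ : ℝ → ℂ} (per : Function.Periodic γ 1) {r : ℝ} {p : ℝ × ℝ} {j : ℤ}
    (h : JoinedIn {p : ℝ × ℝ | ‖γ p.1 - γ p.2‖ < r} p (p.2 + j, p.1 + 1 + j)) :
    ∃ a : ℝ → ℝ, Continuous a ∧ (∀ u, a (u + 2) = a u + (2 * j + 1 : ℤ)) ∧
      ∀ u, ‖γ (a u) - γ (a (u + 1))‖ < r := by
  obtain ⟨n, hn⟩ := h
  have hn' : ∀ τ, ‖γ (n.extend τ).1 - γ (n.extend τ).2‖ < r := fun τ => hn (projIcc 0 1 zero_le_one τ)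
  have pz : ∀ (x : ℝ) (m : ℤ), γ (x + m) = γ x := fun x m => by simpa using per.int_mul m x
  obtain ⟨g, hg⟩ : ∃ g : ℤ → ℝ → ℝ, g = fun k τ =>
      if k % 2 = 0 then (n.extend τ).1 + ((k / 2 * (2 * j + 1) : ℤ) : ℝ)
      else (n.extend τ).2 + ((j + k / 2 * (2 * j + 1) : ℤ) : ℝ) := ⟨_, rfl⟩
  have nc := n.continuous_extend
  refine ⟨fun t => g ⌊t⌋ (Int.fract t), glue (fun k => ?_) fun k => ?_, fun u => ?_, fun u => ?_⟩
  · rw [hg]
    by_cases e : k % 2 = 0
    · simp only [e, if_true]; fun_prop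
    · simp only [e, if_false]; fun_prop
  · rw [hg]
    by_cases e : k % 2 = 0
    · have e1 : ¬(k + 1) % 2 = 0 := by omega
      have e2 : (k + 1) / 2 = k / 2 := by omega
      simp only [e, e1, e2, if_true, if_false, Path.extend_one, Path.extend_zero]
      push_cast; ring
    · have e1 : (k + 1) % 2 = 0 := by omega
      have e2 : (k + 1) / 2 = k / 2 + 1 := by omega
      simp only [e, e1, e2, if_true, if_false, Path.extend_one, Path.extend_zero]
      push_cast; ring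
  · have f1 : ⌊u + 2⌋ = ⌊u⌋ + 2 := by exact_mod_cast Int.floor_add_intCast u 2
    have f2 : Int.fract (u + 2) = Int.fract u := by exact_mod_cast Int.fract_add_intCast u 2
    have e1 : (⌊u⌋ + 2) % 2 = ⌊u⌋ % 2 := by omega
    have e2 : (⌊u⌋ + 2) / 2 = ⌊u⌋ / 2 + 1 := by omega
    simp only [f1, f2, hg, e1, e2]
    split_ifs <;> push_cast <;> ring
  · simp only [Int.floor_add_one, Int.fract_add_one, hg]
    by_cases e : ⌊u⌋ % 2 = 0
    · have e1 : ¬(⌊u⌋ + 1) % 2 = 0 := by omega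
      simp only [e, e1, if_true, if_false, pz]
      exact hn' _
    · have e1 : (⌊u⌋ + 1) % 2 = 0 := by omega
      simp only [e, e1, if_true, if_false, pz]
      rw [norm_sub_rev]
      exact hn' _

end Pool.Agent.Work.MP_8493f1_gt
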