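import Pool.Agent.Work.MP_8493f1_gt.H82Curve

/-! Plane continua with symmetric span zero have semispan zero. -/

set_option autoImplicit false

namespace Pool.Agent.Work.MP_8493f1_gt

open Set Metric Filter Topology unitInterval Real

variable {X : Type*} [MetricSpace X]

theorem exists_orient (hN : NoFlip X) {F : Set (X × X)} (hF : IsCompact F)
    (hs : ∀ p ∈ F, p.swap ∈ F) (hd : ∀ p ∈ F, p.1 ≠ p.2) :
    ∃ φ : X × X → ℤ, ContinuousOn φ F ∧ (∀ p, φ p.swap = -φ p) ∧ ∀ p ∈ F, φ p ≠ 0 := by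
  classical
  refine hF.induction_on (p := fun s => ∃ φ : X × X → ℤ, ContinuousOn φ F ∧
    (∀ p, φ p.swap = -φ p) ∧ ∀ p ∈ s, φ p ≠ 0)
    ⟨fun _ => 0, continuousOn_const, by simp, by simp⟩
    (fun s t h ⟨φ, a, b, c⟩ => ⟨φ, a, b, fun p hp => c p (h hp)⟩) ?_ fun z hz => ?_
  · rintro s t ⟨φ, a, b, c⟩ ⟨ψ, a', b', c'⟩
    refine ⟨fun p => if φ p = 0 then ψ p else φ p,
      (continuous_of_discreteTopology (f := fun q : ℤ × ℤ =>
        if q.1 = 0 then q.2 else q.1)).comp_continuousOn (a.prodMk a'), fun p => ?_,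
      fun p hp => ?_⟩
    · simp only [b, b', neg_eq_zero]
      split_ifs <;> rfl
    · dsimp only
      split_ifs with e
      · exact c' p (hp.resolve_left fun h => c p h e)
      · exact e
  · obtain ⟨A, zA, δ, hδ, hA⟩ := exists_piece hF (isClosed_singleton (x := z.swap)) hz
      (disjoint_singleton_right.2 fun h => hN _ (compact_component hF hz)
        isPreconnected_connectedComponentIn
        (fun p hp => hd p (connectedComponentIn_subset _ _ hp)) z.1 z.2
        (mem_connectedComponentIn hz) h)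
    have c : ContinuousOn (fun p => if p ∈ A then (1 : ℤ) else 0) F := fun p hp => by
      refine (continuousWithinAt_const (b := if p ∈ A then (1 : ℤ) else 0)).congr_of_eventuallyEq
        ?_ rfl
      filter_upwards [self_mem_nhdsWithin, mem_nhdsWithin_of_mem_nhds (ball_mem_nhds p hδ)]
        with q hq hq'
      have : q ∈ A ↔ p ∈ A := by
        constructor <;> intro h <;> by_contra h'
        · exact (hA q h p (Or.inl ⟨hp, h'⟩)).not_gt hq'
        · exact (hA p h q (Or.inl ⟨hq, h'⟩)).not_gt (mem_ball'.1 hq')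
      simp only [this]
    have c2 : ContinuousOn
        (fun p : X × X => (if p ∈ A then (1 : ℤ) else 0) - if p.swap ∈ A then 1 else 0) F :=
      c.sub (c.comp continuous_swap.continuousOn hs)
    have n : z.swap ∉ A := fun h => (hA _ h _ (Or.inr rfl)).not_gt (by simpa using hδ)
    exact ⟨_, (c2 z hz).eventually_ne (b₂ := 0) (by simp [zA, n]), _, c2, fun p => by simp,
      fun p hp => hp⟩

theorem exists_odd [CompactSpace X] (hN : NoFlip X) {e : X → ℂ} (he : Continuous e)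
    (inj : Function.Injective e) {r : ℝ} (hr : 0 < r) :
    ∃ δ > 0, ∃ Φ : ℂ × ℂ → ℝ, Continuous Φ ∧ (∀ z w, Φ (w, z) = -Φ (z, w)) ∧
      ∀ z w x y, ‖z - e x‖ ≤ δ → ‖w - e y‖ ≤ δ → Φ (z, w) = 0 → ‖z - w‖ < r := by
  obtain ⟨F, hF⟩ : ∃ F : Set (X × X), F = {p | r / 2 ≤ ‖e p.1 - e p.2‖} := ⟨_, rfl⟩
  have mF : ∀ p, p ∈ F ↔ r / 2 ≤ ‖e p.1 - e p.2‖ := fun p => by rw [hF]; rfl
  have cF : IsClosed F := by rw [hF]; exact isClosed_le continuous_const (by fun_prop)
  have sF : ∀ p ∈ F, p.swap ∈ F := fun p hp => by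
    rw [mF] at hp ⊢
    rwa [norm_sub_rev]
  obtain ⟨φ, f1, f2, f3⟩ := exists_orient hN cF.isCompact sF fun p hp h => by
    rw [mF, h, sub_self, norm_zero] at hp
    linarith
  have k : ∀ s : Set ℤ, IsCompact (Prod.map e e '' (F ∩ φ ⁻¹' s)) := fun s =>
    (f1.preimage_isClosed_of_isClosed cF (isClosed_discrete s)).isCompact.image (by fun_prop)
  have dj : Disjoint (Prod.map e e '' (F ∩ φ ⁻¹' Iio 0)) (Prod.map e e '' (F ∩ φ ⁻¹' Ioi 0)) :=
    (disjoint_image_iff (inj.prodMap inj)).2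
      (disjoint_left.2 fun p a b => lt_asymm (show φ p < 0 from a.2) b.2)
  obtain ⟨δ, hδ, dj'⟩ := dj.exists_cthickenings (k _) (k _).isClosed
  obtain ⟨u, u0, u1, -⟩ :=
    exists_continuous_zero_one_of_isClosed isClosed_cthickening isClosed_cthickening dj'
  refine ⟨min δ (r / 5), by positivity, fun q => u q - u q.swap, by fun_prop, fun z w => by simp,
    fun z w x y hx hy h => ?_⟩
  by_contra c
  rw [le_min_iff] at hx hy
  have m : (x, y) ∈ F := by
    rw [mF]
    have a := norm_sub_le_norm_sub_add_norm_sub z (e x) w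
    have b := norm_sub_le_norm_sub_add_norm_sub (e x) (e y) w
    rw [norm_sub_rev (e y)] at b
    linarith [hx.2, hy.2, not_lt.1 c]
  have t : ∀ (s : Set ℤ) z w x y, ‖z - e x‖ ≤ δ → ‖w - e y‖ ≤ δ → (x, y) ∈ F → φ (x, y) ∈ s →
      (z, w) ∈ cthickening δ (Prod.map e e '' (F ∩ φ ⁻¹' s)) := fun s z w x y a b c d =>
    mem_cthickening_of_dist_le _ (e x, e y) _ _ ⟨(x, y), ⟨c, d⟩, rfl⟩
      (by rw [Prod.dist_eq, dist_eq_norm, dist_eq_norm]; exact max_le a b)
  have s := f2 (x, y)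
  rw [Prod.swap_prod_mk] at s
  rcases lt_or_gt_of_ne (f3 _ m) with g | g
  · have a := u0 (t (Iio 0) z w x y hx.1 hy.1 m g)
    have b := u1 (t (Ioi 0) w z y x hy.1 hx.1 (sF _ m) (show 0 < φ (y, x) by omega))
    simp [a, b] at h
  · have a := u1 (t (Ioi 0) z w x y hx.1 hy.1 m g)
    have b := u0 (t (Iio 0) w z y x hy.1 hx.1 (sF _ m) (show φ (y, x) < 0 by omega))
    simp [a, b] at h

theorem sepf_of_plane [CompactSpace X] [ConnectedSpace X] (hN : NoFlip X) {e : X → ℂ}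
    (he : Continuous e) (inj : Function.Injective e) {r : ℝ} (hr : 0 < r) :
    ∃ G : I × X → ℝ, Sepf G ∧
      ∀ t x y, G (t, x) = 0 → G (t, y) = 0 → ‖e x - e y‖ < 8 * r := by
  obtain ⟨x0⟩ : Nonempty X := inferInstance
  wlog h0 : e x0 = 0 generalizing e
  · simpa using this (e := fun x => e x - e x0) (by fun_prop)
      (fun x y h => inj (sub_left_injective h)) (sub_self _)
  obtain ⟨δ, hδ, Φ, p1, p2, p3⟩ := exists_odd hN he inj hr
  obtain ⟨γ, g1, g2, g3, g4, g5⟩ := exists_curve (isCompact_range he) ⟨x0, h0⟩ hδ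
  obtain ⟨p, j, hj⟩ := exists_join (d := fun p => ‖γ p.1 - γ p.2‖)
    (φ := fun p => Φ (γ p.1, γ p.2)) (by fun_prop) (by fun_prop) hr
    (fun s t => by simp only [g2 s]; exact norm_sub_rev _ _) (fun s => by simp)
    (fun s t => by simp only [g2 s]; exact p2 _ _)
    (fun s => by have := p2 (γ s) (γ s); dsimp only; linarith) fun p hp => by
      obtain ⟨_, ⟨x, rfl⟩, hx⟩ := (g4 p.1).2
      obtain ⟨_, ⟨y, rfl⟩, hy⟩ := (g4 p.2).2
      exact p3 _ _ x y hx hy hp
  obtain ⟨a, a1, a2, a3⟩ := exists_param g2 hj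
  obtain ⟨Q, hQ⟩ := join_top g1 g2 g3 a1 (odd_two_mul_add_one j) a2 hr a3
  obtain ⟨G, G1, G2⟩ := sepf_of_path he g1 g2 (fun t x h => (g4 t).1 ⟨x, h.symm⟩) (x0 := x0)
    (by simpa [h0] using g5) (s := fun τ => a (Q τ).1) (t := fun τ => a (Q τ).2) (by fun_prop)
    (by fun_prop) (by simp) (k := 2 * j + 1) (by omega) (by simpa using a2 0)
  refine ⟨G, G1, fun t x y hx hy => ?_⟩
  have b : ‖γ (a (Q t).2) - γ (a (Q t).1)‖ < 4 * r := hQ t
  have c := norm_sub_le_norm_sub_add_norm_sub (e x) (γ (a (Q t).1)) (e y)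
  rw [norm_sub_rev (e x) (γ _)] at c
  linarith [G2 t x hx, G2 t y hy]

theorem plane_semi [CompactSpace X] [ConnectedSpace X] (hN : NoFlip X) {e : X → ℂ}
    (he : Continuous e) (inj : Function.Injective e) {C : Set (X × X)} (hC : IsConnected C)
    (hn : Prod.snd '' C ⊆ Prod.fst '' C) {ε : ℝ} (hε : 0 < ε) : ∃ p ∈ C, dist p.1 p.2 < ε := by
  have k : IsClosed {p : X × X | ε ≤ dist p.1 p.2} := isClosed_le continuous_const (by fun_prop)
  obtain ⟨δ, hδ, h⟩ := exists_far (k.isCompact.image (he.prodMap he)) (by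
    rintro _ ⟨p, hp, rfl⟩ c
    have : ε ≤ dist p.1 p.2 := hp
    rw [inj c, dist_self] at this
    linarith)
  obtain ⟨G, G1, G2⟩ := sepf_of_plane hN he inj (r := δ / 8) (by positivity)
  refine core' hN.hw G1 (fun t x y hx hy => not_le.1 fun c => ?_) hC hn
  have a := h _ ⟨(x, y), c, rfl⟩
  have b := G2 t x y hx hy
  rw [dist_eq_norm] at a
  change δ ≤ ‖e x - e y‖ at a
  linarith

end Pool.Agent.Work.MP_8493f1_gt
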