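import Pool.Agent.Work.MP_8493f1_gt.H97Lim

/-! In the product of a space without flips and the line, two continua whose projections are
nested in opposite directions meet. -/

set_option autoImplicit false

namespace Pool.Agent.Work.MP_8493f1_gt

open Set Metric Filter Topology

theorem noFlip_real : NoFlip ℝ := by
  intro S _ hS hd x y h1 h2
  have hc : Continuous fun p : ℝ × ℝ => p.1 - p.2 := by fun_prop
  have h0 : (0 : ℝ) ∈ (fun p : ℝ × ℝ => p.1 - p.2) '' S := by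
    have h := (hS.image _ hc.continuousOn).ordConnected
    rcases le_total x y with h' | h'
    · exact h.out ⟨_, h1, rfl⟩ ⟨_, h2, rfl⟩ ⟨by simpa using h', by simpa using h'⟩
    · exact h.out ⟨_, h2, rfl⟩ ⟨_, h1, rfl⟩ ⟨by simpa using h', by simpa using h'⟩
  obtain ⟨p, hp, e⟩ := h0
  exact hd p hp (sub_eq_zero.1 e)

variable {X : Type*} [MetricSpace X]

/-- A continuum inside a given set. -/
def Cont (Z A : Set (X × ℝ)) : Prop := A ⊆ Z ∧ IsCompact A ∧ IsConnected A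

theorem Cont.mono {Z Z' A : Set (X × ℝ)} (h : Cont Z A) (h' : Z ⊆ Z') : Cont Z' A :=
  ⟨h.1.trans h', h.2⟩

/-- A pair of continua violating the conclusion by a margin. -/
structure Bad (Z : Set (X × ℝ)) (δ : ℝ) (A R : Set (X × ℝ)) : Prop where
  a : Cont Z A
  r : Cont Z R
  p : Prod.fst '' R ⊆ Prod.fst '' A
  t : Prod.snd '' A ⊆ Prod.snd '' R
  d : ∀ a ∈ A, ∀ r ∈ R, δ ≤ dist a r

/-- Projections of first members of bad pairs. -/
def BadSet (Z : Set (X × ℝ)) (δ : ℝ) (B : Set X) : Prop :=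
  ∃ A R, Bad Z δ A R ∧ Prod.fst '' A = B

variable {Z : Set (X × ℝ)} {δ : ℝ}

theorem bad_min (hZ : IsCompact Z) {B : Set X} (h : BadSet Z δ B) :
    ∃ B', Minimal (BadSet Z δ) B' := by
  obtain ⟨D, -, h2⟩ := zorn_superset_nonempty {B | BadSet Z δ B} (fun c hcS hc hne => by
    have : Nonempty c := hne.to_subtype
    obtain ⟨U, hU⟩ := exists_ultra (fun i j : c => (j : Set X) ⊆ i)
      (fun i j => (hc.total j.2 i.2)) fun i j k a b => b.trans a
    choose A R hb he using fun i : c => hcS i.2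
    have a1 := fun i => (hb i).a.1
    have r1 := fun i => (hb i).r.1
    refine ⟨Prod.fst '' ULim U A, ⟨ULim U A, ULim U R, ⟨⟨?_, ?_, ?_⟩, ⟨?_, ?_, ?_⟩, ?_, ?_, ?_⟩,
      rfl⟩, fun s hs => ?_⟩
    · exact ulim_subset hZ.isClosed (Eventually.of_forall a1)
    · exact ulim_compact hZ a1 (fun i => (hb i).a.2.1) fun i => (hb i).a.2.2.nonempty
    · exact ulim_conn hZ a1 (fun i => (hb i).a.2.1) fun i => (hb i).a.2.2
    · exact ulim_subset hZ.isClosed (Eventually.of_forall r1)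
    · exact ulim_compact hZ r1 (fun i => (hb i).r.2.1) fun i => (hb i).r.2.2.nonempty
    · exact ulim_conn hZ r1 (fun i => (hb i).r.2.1) fun i => (hb i).r.2.2
    · exact ulim_image hZ a1 continuous_fst continuous_fst fun i => (hb i).p
    · exact ulim_image hZ r1 continuous_snd continuous_snd fun i => (hb i).t
    · rintro a ⟨y, hy, ha⟩ r ⟨z, hz, hr⟩
      exact ge_of_tendsto' (ha.dist hr) fun i => (hb i).d _ (hy i) _ (hz i)
    · have hcl : IsClosed s := by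
        have := ((hb ⟨s, hs⟩).a.2.1.image continuous_fst).isClosed
        rwa [he] at this
      rw [image_subset_iff]
      refine ulim_subset (hcl.preimage continuous_fst) ((hU ⟨s, hs⟩).mono fun j hj => ?_)
      rw [← image_subset_iff, he]
      exact hj) B h
  exact ⟨D, h2⟩

/-- Subcontinua of the projection of a continuum lift to subcontinua. -/
def HW (X : Type*) [MetricSpace X] : Prop :=
  ∀ A : Set (X × ℝ), IsCompact A → IsConnected A → ∀ K : Set X, IsCompact K → IsConnected K →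
    K ⊆ Prod.fst '' A → ∃ D ⊆ A, IsCompact D ∧ IsConnected D ∧ Prod.fst '' D = K

theorem NoFlip.hw (hN : NoFlip X) : HW X := fun _ hA hA' _ hK hK' h =>
  weak_confluent hN hA hA'.2 continuous_fst hK hK' h

/-- Hereditarily indecomposable spaces have the lifting property. -/
theorem hw_of_hi (h : ∀ A B : Set X, IsCompact A → IsConnected A → IsCompact B → IsConnected B →
    (A ∩ B).Nonempty → A ⊆ B ∨ B ⊆ A) : HW X := by
  intro A hA hA' K hK hK' hs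
  obtain ⟨x, hx⟩ := hK'.nonempty
  obtain ⟨p, hp, rfl⟩ := hs hx
  have hE : IsCompact (A ∩ Prod.fst ⁻¹' K) := hA.inter_right (hK.isClosed.preimage continuous_fst)
  have hpE : p ∈ A ∩ Prod.fst ⁻¹' K := ⟨hp, hx⟩
  have hsub := connectedComponentIn_subset (A ∩ Prod.fst ⁻¹' K) p
  have c1 := compact_component hE hpE
  have c2 := isConnected_connectedComponentIn_iff.2 hpE
  refine ⟨_, hsub.trans inter_subset_left, c1, c2, subset_antisymm ?_ fun y hy => by_contra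
    fun hn => ?_⟩
  · rintro _ ⟨c, hc, rfl⟩
    exact (hsub hc).2
  · obtain ⟨q, hq, rfl⟩ := hs hy
    obtain ⟨L, l1, l2, l3, l4, l5, l6⟩ := bump_avoid hA hA'.2 c1 c2 (hsub.trans inter_subset_left)
      (F := Prod.fst ⁻¹' {q.1}) (isClosed_singleton.preimage continuous_fst)
      (disjoint_left.2 fun c hc e => hn ⟨c, hc, e⟩) hq rfl
    have hpL := l3 (mem_connectedComponentIn hpE)
    rcases h _ K (l1.image continuous_fst) (l2.image _ continuous_fst.continuousOn) hK hK'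
      ⟨_, ⟨p, hpL, rfl⟩, hx⟩ with h1 | h1
    · exact l5 (subset_antisymm (l2.2.subset_connectedComponentIn hpL
        fun c hc => ⟨l4 hc, h1 ⟨c, hc, rfl⟩⟩) l3)
    · obtain ⟨c, hc, e⟩ := h1 hy
      exact disjoint_left.1 l6 hc e

theorem lift_fst (hN : HW X) {A : Set (X × ℝ)} (hA : Cont Z A) {K : Set X} (hK : IsCompact K)
    (hK' : IsConnected K) (h : K ⊆ Prod.fst '' A) : ∃ D, Cont A D ∧ Prod.fst '' D = K := by
  obtain ⟨D, d1, d2, d3, d4⟩ := hN A hA.2.1 hA.2.2 K hK hK' h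
  exact ⟨D, ⟨d1, d2, d3⟩, d4⟩

theorem Cont.fst {A : Set (X × ℝ)} (hA : Cont Z A) :
    IsCompact (Prod.fst '' A) ∧ IsConnected (Prod.fst '' A) :=
  ⟨hA.2.1.image continuous_fst, hA.2.2.image _ continuous_fst.continuousOn⟩

theorem bad_star (hN : HW X) {B : Set X} (hB : Minimal (BadSet Z δ) B) {A R : Set (X × ℝ)}
    (h : Bad Z δ A R) (e : Prod.fst '' A = B) :
    ∃ R1, Cont R R1 ∧ Prod.snd '' R1 = Prod.snd '' A ∧ Prod.fst '' R1 = B := by
  obtain ⟨D, d1, d2, d3, d4⟩ := weak_confluent noFlip_real h.r.2.1 h.r.2.2.2 continuous_snd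
    (h.a.2.1.image continuous_snd) (h.a.2.2.image _ continuous_snd.continuousOn) h.t
  have hD : Cont R D := ⟨d1, d2, d3⟩
  have hs : Prod.fst '' D ⊆ Prod.fst '' A := (image_mono d1).trans h.p
  obtain ⟨A', a1, a2⟩ := lift_fst hN h.a hD.fst.1 hD.fst.2 hs
  refine ⟨D, hD, d4, subset_antisymm (e ▸ hs) (hB.2 ⟨A', D, ⟨a1.mono h.a.1, hD.mono h.r.1,
    a2.superset, d4.symm ▸ image_mono a1.1, fun a ha r hr => h.d a (a1.1 ha) r (d1 hr)⟩, a2⟩
    (e ▸ hs))⟩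

theorem bad_both (hN : HW X) {B : Set X} (hB : Minimal (BadSet Z δ) B) :
    ∃ A R, Bad Z δ A R ∧ Prod.fst '' A = B ∧ Prod.fst '' R = B ∧
      Prod.snd '' A = Prod.snd '' R ∧ (∀ E, Cont A E → Prod.fst '' E = B → E = A) ∧
      ∀ E, Cont R E → Prod.fst '' E = B → E = R := by
  obtain ⟨A, R, h, e⟩ := hB.1
  obtain ⟨A1, a1, a2, a3, a4, a5⟩ := exists_min_onto h.a.2.1 h.a.2.2 (continuous_fst (Y := ℝ))
  rw [e] at a4 a5
  have h1 : Bad Z δ A1 R := ⟨⟨a1.trans h.a.1, a2, a3⟩, h.r, by rw [a4, ← e]; exact h.p,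
    (image_mono a1).trans h.t, fun a ha r hr => h.d a (a1 ha) r hr⟩
  obtain ⟨R1, b1, b2, b3⟩ := bad_star hN hB h1 a4
  obtain ⟨R2, c1, c2, c3, c4, c5⟩ := exists_min_onto b1.2.1 b1.2.2 (continuous_fst (Y := ℝ))
  rw [b3] at c4 c5
  have h2 : Bad Z δ R2 A1 := ⟨⟨(c1.trans b1.1).trans h.r.1, c2, c3⟩, h1.a, by rw [a4, c4],
    b2 ▸ image_mono c1, fun r hr a ha => dist_comm a r ▸ h1.d a ha r (b1.1 (c1 hr))⟩
  obtain ⟨A2, d1, d2, d3⟩ := bad_star hN hB h2 c4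
  obtain rfl := a5 A2 d1.1 d1.2.1 d1.2.2 d3
  exact ⟨R2, A2, h2, c4, a4, d2.symm, fun E hE => c5 E hE.1 hE.2.1 hE.2.2,
    fun E hE => a5 E hE.1 hE.2.1 hE.2.2⟩

/-- Adding a vertical segment above the top point. -/
theorem bad_seg {S : Set X} {T : Set ℝ} (hT : T.OrdConnected) {A R : Set (X × ℝ)}
    (hA : Cont (S ×ˢ T) A) (hR : Cont (S ×ˢ T) R) (e : Prod.fst '' A = Prod.fst '' R)
    (hd : ∀ a ∈ A, ∀ r ∈ R, δ ≤ dist a r) {p : X × ℝ} (hp : p ∈ A)
    (hlt : ∀ r ∈ R, r.2 < p.2 + δ) (hlow : ∃ a ∈ A, ∀ r ∈ R, a.2 ≤ r.2) :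
    BadSet (S ×ˢ T) δ (Prod.fst '' R) := by
  obtain ⟨q, hq, hq'⟩ := hR.2.1.exists_isMaxOn hR.2.2.nonempty continuous_snd.continuousOn
  have hmT : max p.2 q.2 ∈ T := by
    rcases max_cases p.2 q.2 with h | h <;> rw [h.1]
    exacts [(hA.1 hp).2, (hR.1 hq).2]
  have hco : IsConnected (A ∪ {p.1} ×ˢ Icc p.2 (max p.2 q.2)) :=
    ⟨hA.2.2.nonempty.inl, IsPreconnected.union p hp ⟨rfl, le_rfl, le_max_left _ _⟩ hA.2.2.2
      (isPreconnected_singleton.prod isPreconnected_Icc)⟩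
  refine ⟨R, A ∪ {p.1} ×ˢ Icc p.2 (max p.2 q.2), ⟨hR, ⟨union_subset hA.1 ?_,
    hA.2.1.union (isCompact_singleton.prod isCompact_Icc), hco⟩, ?_, ?_, ?_⟩, rfl⟩
  · rintro z ⟨h1, h2⟩
    exact ⟨(show z.1 = p.1 from h1).symm ▸ (hA.1 hp).1, hT.out (hA.1 hp).2 hmT h2⟩
  · rintro _ ⟨z, hz | hz, rfl⟩
    · exact e ▸ ⟨z, hz, rfl⟩
    · exact e ▸ ⟨p, hp, (show z.1 = p.1 from hz.1).symm⟩
  · rintro _ ⟨r, hr, rfl⟩
    obtain ⟨a, ha, ha'⟩ := hlow
    exact (hco.2.image _ continuous_snd.continuousOn).ordConnected.out ⟨a, Or.inl ha, rfl⟩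
      ⟨(p.1, max p.2 q.2), Or.inr ⟨rfl, le_max_left _ _, le_rfl⟩, rfl⟩
      ⟨ha' r hr, (hq' hr).trans (le_max_right _ _)⟩
  · rintro r hr z (hz | hz)
    · exact dist_comm z r ▸ hd z hz r hr
    · by_contra hn
      rw [not_le, Prod.dist_eq, max_lt_iff, show z.1 = p.1 from hz.1, Real.dist_eq, abs_lt] at hn
      have h1 := hd p hp r hr
      rw [Prod.dist_eq, le_max_iff, dist_comm, Real.dist_eq, le_abs] at h1
      have h2 := hlt r hr
      have h3 := hz.2.1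
      rcases h1 with h1 | h1 | h1 <;> linarith [hn.1, hn.2.1, hn.2.2]

theorem bad_low {S : Set X} {T : Set ℝ} (hT : T.OrdConnected) {A R : Set (X × ℝ)}
    (hA : Cont (S ×ˢ T) A) (hR : Cont (S ×ˢ T) R) (e : Prod.fst '' A = Prod.fst '' R)
    (hd : ∀ a ∈ A, ∀ r ∈ R, δ ≤ dist a r) {m : ℝ} (a1 : ∀ a ∈ A, a.2 ≤ m) (r1 : ∀ r ∈ R, r.2 ≤ m)
    (a2 : ∃ a ∈ A, m - δ < a.2) (r2 : ∃ r ∈ R, m - δ < r.2) :
    BadSet (S ×ˢ T) δ (Prod.fst '' R) := by
  obtain ⟨p, hp, hp'⟩ := hA.2.1.exists_isMaxOn hA.2.2.nonempty continuous_snd.continuousOn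
  obtain ⟨q, hq, hq'⟩ := hR.2.1.exists_isMaxOn hR.2.2.nonempty continuous_snd.continuousOn
  obtain ⟨p0, hp0, hp0'⟩ := hA.2.1.exists_isMinOn hA.2.2.nonempty continuous_snd.continuousOn
  obtain ⟨q0, hq0, hq0'⟩ := hR.2.1.exists_isMinOn hR.2.2.nonempty continuous_snd.continuousOn
  obtain ⟨a, ha, ha'⟩ := a2
  obtain ⟨r, hr, hr'⟩ := r2
  have h1 : a.2 ≤ p.2 := hp' ha
  have h2 : r.2 ≤ q.2 := hq' hr
  rcases le_total p0.2 q0.2 with h | h
  · exact bad_seg hT hA hR e hd hp (fun r hr => by linarith [r1 r hr])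
      ⟨p0, hp0, fun r hr => h.trans (hq0' hr)⟩
  · rw [← e]
    exact bad_seg hT hR hA e.symm (fun r hr a ha => dist_comm a r ▸ hd a ha r hr) hq
      (fun a ha => by linarith [a1 a ha])
      ⟨q0, hq0, fun a ha => h.trans (hp0' ha)⟩

theorem exists_max_image (hZ : IsCompact Z) {D : Set (X × ℝ)} (hD : Cont Z D) :
    ∃ K, Maximal (fun K => ∃ D, Cont Z D ∧ Prod.fst '' D = K) K := by
  obtain ⟨K, -, h2⟩ := zorn_subset_nonempty {K | ∃ D, Cont Z D ∧ Prod.fst '' D = K}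
    (fun c hcS hc hne => by
      have : Nonempty c := hne.to_subtype
      obtain ⟨U, hU⟩ := exists_ultra (fun i j : c => (i : Set X) ⊆ j)
        (fun i j => (hc.total i.2 j.2)) fun i j k a b => a.trans b
      choose A hb he using fun i : c => hcS i.2
      have a1 := fun i => (hb i).1
      refine ⟨Prod.fst '' ULim U A, ⟨ULim U A, ⟨?_, ?_, ?_⟩, rfl⟩, fun s hs x hx => ?_⟩
      · exact ulim_subset hZ.isClosed (Eventually.of_forall a1)
      · exact ulim_compact hZ a1 (fun i => (hb i).2.1) fun i => (hb i).2.2.nonempty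
      · exact ulim_conn hZ a1 (fun i => (hb i).2.1) fun i => (hb i).2.2
      · exact mem_image_ulim hZ a1 (fun i => (hb i).2.2.nonempty) continuous_fst
          ((hU ⟨s, hs⟩).mono fun j hj => (he j).symm ▸ hj hx)) _ ⟨D, hD, rfl⟩
  exact ⟨K, h2⟩

theorem not_bad (hN : HW X) {S : Set X} {T : Set ℝ} (hS : IsCompact S) (hT' : IsCompact T)
    (hT : T.OrdConnected) (hδ : 0 < δ) {B : Set X} : ¬BadSet (S ×ˢ T) δ B := by
  intro h0
  obtain ⟨B, hB⟩ := bad_min (hS.prod hT') h0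
  obtain ⟨A, R, h, e1, e2, e3, m1, m2⟩ := bad_both hN hB
  obtain ⟨p, hp, hp'⟩ := h.a.2.1.exists_isMaxOn h.a.2.2.nonempty continuous_snd.continuousOn
  obtain ⟨q, hq, hq'⟩ : p.2 ∈ Prod.snd '' R := e3 ▸ ⟨p, hp, rfl⟩
  have a1 : ∀ a ∈ A, a.2 ≤ p.2 := fun a ha => hp' ha
  have r1 : ∀ r ∈ R, r.2 ≤ p.2 := fun r hr => by
    obtain ⟨a, ha, e⟩ : r.2 ∈ Prod.snd '' A := e3 ▸ ⟨r, hr, rfl⟩
    exact e ▸ a1 a ha
  have hBc : IsCompact B ∧ IsConnected B := e1 ▸ h.a.fst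
  obtain ⟨W, hW⟩ : ∃ W, W = (A ∪ R) ∩ {z | z.2 ≤ p.2 - δ} := ⟨_, rfl⟩
  have hWc : IsCompact W :=
    hW ▸ (h.a.2.1.union h.r.2.1).inter_right (isClosed_le continuous_snd continuous_const)
  have low : ∀ K, IsCompact K → IsConnected K → K ⊆ B → K ≠ B →
      ∃ D, Cont W D ∧ Prod.fst '' D = K := fun K k1 k2 k3 k4 => by
    obtain ⟨A', b1, b2⟩ := lift_fst hN h.a k1 k2 (e1 ▸ k3)
    obtain ⟨R', c1, c2⟩ := lift_fst hN h.r k1 k2 (e2 ▸ k3)
    by_cases ha : ∃ a ∈ A', p.2 - δ < a.2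
    · by_cases hr : ∃ r ∈ R', p.2 - δ < r.2
      · have := bad_low hT (b1.mono h.a.1) (c1.mono h.r.1) (b2.trans c2.symm)
          (fun a ha r hr => h.d a (b1.1 ha) r (c1.1 hr)) (fun a ha => a1 a (b1.1 ha))
          (fun r hr => r1 r (c1.1 hr)) ha hr
        rw [c2] at this
        exact absurd (subset_antisymm k3 (hB.2 this k3)) k4
      · push Not at hr
        exact ⟨R', ⟨fun r hr' => hW ▸ ⟨Or.inr (c1.1 hr'), hr r hr'⟩, c1.2⟩, c2⟩
    · push Not at ha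
      exact ⟨A', ⟨fun r hr' => hW ▸ ⟨Or.inl (b1.1 hr'), ha r hr'⟩, b1.2⟩, b2⟩
  have nlow : ∀ D, Cont W D → Prod.fst '' D ≠ B := fun D hD e => by
    have hs : D ⊆ A ∪ R := hD.1.trans (hW ▸ inter_subset_left)
    have ht : ∀ z ∈ D, z.2 ≤ p.2 - δ := fun z hz => by
      have := hD.1 hz
      rw [hW] at this
      exact this.2
    rcases isPreconnected_iff_subset_of_disjoint_closed.1 hD.2.2.2 A R h.a.2.1.isClosed
      h.r.2.1.isClosed hs (eq_empty_iff_forall_notMem.2 fun z hz => by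
        have := h.d z hz.2.1 z hz.2.2
        rw [dist_self] at this
        linarith) with h1 | h1
    · obtain rfl := m1 D ⟨h1, hD.2⟩ e
      linarith [ht p hp]
    · obtain rfl := m2 D ⟨h1, hD.2⟩ e
      linarith [ht q hq]
  obtain ⟨D0, hD0, -⟩ := low {p.1} isCompact_singleton isConnected_singleton
    (singleton_subset_iff.2 (e1 ▸ ⟨p, hp, rfl⟩)) fun e => by
      have h1 : q.1 = p.1 := by
        have : q.1 ∈ B := e2 ▸ ⟨q, hq, rfl⟩
        rwa [← e] at this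
      have := h.d p hp q hq
      rw [Prod.ext h1 hq', dist_self] at this
      linarith
  obtain ⟨K, ⟨D, hD, rfl⟩, hK⟩ := exists_max_image hWc hD0
  have hsub : Prod.fst '' D ⊆ B := by
    rintro _ ⟨z, hz, rfl⟩
    have := hD.1 hz
    rw [hW] at this
    rcases this.1 with h1 | h1
    · exact e1 ▸ ⟨z, h1, rfl⟩
    · exact e2 ▸ ⟨z, h1, rfl⟩
  obtain ⟨L, l1, l2, l3, l4, l5, l6⟩ := bump hBc.1 hBc.2.2 hD.fst.1 hD.fst.2 hsub (nlow D hD)
  exact l5 (subset_antisymm (hK (low L l1 l2 l4 l6) l3) l3)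

/-- The meeting lemma. -/
theorem meet (hN : HW X) {A R : Set (X × ℝ)} (hA : IsCompact A) (hA' : IsConnected A)
    (hR : IsCompact R) (hR' : IsConnected R) (h1 : Prod.fst '' R ⊆ Prod.fst '' A)
    (h2 : Prod.snd '' A ⊆ Prod.snd '' R) : (A ∩ R).Nonempty := by
  by_contra hn
  obtain ⟨δ, hδ, hd⟩ := sep_pos hA hR.isClosed
    (disjoint_iff_inter_eq_empty.2 (not_nonempty_iff_eq_empty.1 hn))
  exact not_bad hN (hA.image continuous_fst) (hR.image continuous_snd)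
    (hR'.2.image _ continuous_snd.continuousOn).ordConnected hδ
    ⟨A, R, ⟨⟨fun z hz => ⟨⟨z, hz, rfl⟩, h2 ⟨z, hz, rfl⟩⟩, hA, hA'⟩,
      ⟨fun z hz => ⟨h1 ⟨z, hz, rfl⟩, ⟨z, hz, rfl⟩⟩, hR, hR'⟩, h1, h2, hd⟩, rfl⟩

end Pool.Agent.Work.MP_8493f1_gt
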