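import Mathlib.Topology.Homotopy.Lifting
import Mathlib.Analysis.Complex.CoveringMap
import Mathlib.Topology.UrysohnsLemma
import Pool.Agent.Work.MP_8493f1_gt.H97MS

/-! A zero set separating the two ends of a cylinder over a continuum has a component that
projects onto the base. -/

set_option autoImplicit false

namespace Pool.Agent.Work.MP_8493f1_gt

open Set Metric Filter Topology unitInterval Real

variable {Z : Type*} [MetricSpace Z]

/-- A function that is negative on the bottom and positive on the top. -/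
def Sepf (g : I × Z → ℝ) : Prop := Continuous g ∧ (∀ z, g (0, z) < 0) ∧ ∀ z, 0 < g (1, z)

theorem Sepf.zero {g : I × Z → ℝ} (h : Sepf g) (z : Z) : ∃ t, g (t, z) = 0 := by
  have hc : Continuous fun t : I => g (t, z) := h.1.comp (by fun_prop)
  exact intermediate_value_univ 0 1 hc ⟨(h.2.1 z).le, (h.2.2 z).le⟩

theorem two_piece [PreconnectedSpace Z] {g : I × Z → ℝ} (h : Sepf g) {S1 S2 : Set (I × Z)}
    (h1 : IsClosed S1) (h2 : IsClosed S2) (hd : Disjoint S1 S2) (hs : ∀ p, g p = 0 → p ∈ S1 ∪ S2) :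
    ∃ g' : I × Z → ℝ, Sepf g' ∧ ((∀ p, g' p = 0 → p ∈ S1) ∨ ∀ p, g' p = 0 → p ∈ S2) := by
  obtain ⟨φ, φ0, φ1, -⟩ := exists_continuous_zero_one_of_isClosed h1 h2 hd
  obtain ⟨F, hF⟩ : ∃ F : I × Z → ℂ, F = fun p => (g p : ℂ) + ((2 * φ p - 1 : ℝ) : ℂ) * Complex.I :=
    ⟨_, rfl⟩
  have hg := h.1
  have Fc : Continuous F := by rw [hF]; fun_prop
  have Fre : ∀ p, (F p).re = g p := fun p => by simp [hF]
  have Fim : ∀ p, (F p).im = 2 * φ p - 1 := fun p => by simp [hF]
  have Fne : ∀ p, F p ≠ 0 := fun p e => by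
    have a := Fre p
    have b := Fim p
    rw [e] at a b
    simp only [Complex.zero_re, Complex.zero_im] at a b
    rcases hs p a.symm with c | c
    · rw [φ0 c] at b; norm_num at b
    · rw [φ1 c] at b; norm_num at b
  have hpos : ∀ z, 0 < (-F (0, z)).re := fun z => by
    rw [Complex.neg_re, Fre]; linarith [h.2.1 z]
  have fc : Continuous fun z => Complex.log (-F (0, z)) + π * Complex.I :=
    (Continuous.clog (by fun_prop) fun z => Or.inl (hpos z)).add continuous_const
  obtain ⟨Θ, Θc, Θe, Θ0⟩ : ∃ Θ : I × Z → ℂ, Continuous Θ ∧ (∀ p, Complex.exp (Θ p) = F p) ∧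
      ∀ z, Θ (0, z) = Complex.log (-F (0, z)) + π * Complex.I := by
    have H0 : ∀ z, (⟨fun p => ⟨F p, Fne p⟩, Fc.subtype_mk _⟩ : C(I × Z, {z : ℂ // z ≠ 0})) (0, z) =
        (fun z : ℂ => (⟨_, z.exp_ne_zero⟩ : {z : ℂ // z ≠ 0}))
          ((⟨_, fc⟩ : C(Z, ℂ)) z) := fun z => by
      apply Subtype.ext
      simp [Complex.exp_add, Complex.exp_log (neg_ne_zero.2 (Fne (0, z)))]
    refine ⟨Complex.isCoveringMap_exp.liftHomotopy _ _ H0, map_continuous _, fun p => ?_,
      fun z => Complex.isCoveringMap_exp.liftHomotopy_zero _ _ H0 z⟩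
    exact congrArg Subtype.val (congrFun (Complex.isCoveringMap_exp.liftHomotopy_lifts _ _ H0) p)
  have θc : Continuous fun p => (Θ p).im := by fun_prop
  have e1 : ∀ p, g p = Real.exp (Θ p).re * Real.cos (Θ p).im := fun p => by
    rw [← Fre, ← Θe, Complex.exp_re]
  have e2 : ∀ p, 2 * φ p - 1 = Real.exp (Θ p).re * Real.sin (Θ p).im := fun p => by
    rw [← Fim, ← Θe, Complex.exp_im]
  have b0 : ∀ z, π / 2 < (Θ (0, z)).im ∧ (Θ (0, z)).im < π + π / 2 := fun z => by
    have := abs_lt.1 (Complex.abs_arg_lt_pi_div_two_iff.2 (Or.inl (hpos z)))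
    have e : (Θ (0, z)).im = Complex.arg (-F (0, z)) + π := by
      rw [Θ0]; simp [Complex.log_im]
    rw [e]
    constructor <;> linarith [this.1, this.2]
  have b1 : ∀ z, (Θ (1, z)).im < π / 2 ∨ π + π / 2 < (Θ (1, z)).im := fun z => by
    by_contra hn
    push Not at hn
    have := Real.cos_nonpos_of_pi_div_two_le_of_le hn.1 hn.2
    have a := h.2.2 z
    rw [e1] at a
    nlinarith [Real.exp_pos (Θ (1, z)).re]
  by_cases hc : ∀ z, (Θ (1, z)).im < π / 2
  · refine ⟨fun p => π / 2 - (Θ p).im, ⟨by fun_prop, fun z => by linarith [(b0 z).1],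
      fun z => by linarith [hc z]⟩, Or.inr fun p hp => ?_⟩
    have e : (Θ p).im = π / 2 := by linarith
    refine (hs p (by rw [e1, e]; simp)).resolve_left fun c => ?_
    have := e2 p
    rw [φ0 c, e, Real.sin_pi_div_two] at this
    simp only [Pi.zero_apply] at this
    linarith [Real.exp_pos (Θ p).re]
  · push Not at hc
    obtain ⟨z0, hz0⟩ := hc
    have hc : ∀ z, π + π / 2 < (Θ (1, z)).im := fun z => (b1 z).resolve_left fun c => by
      have c1 : Continuous fun z => (Θ (1, z)).im := θc.comp (by fun_prop)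
      have c0 := (b1 z0).resolve_left (not_lt.2 hz0)
      obtain ⟨w, hw⟩ := intermediate_value_univ z z0 c1 (show π ∈ Icc _ _ from
        ⟨by linarith [Real.pi_pos], by linarith [Real.pi_pos]⟩)
      rcases b1 w with d | d <;> simp only at hw <;> linarith [Real.pi_pos]
    refine ⟨fun p => (Θ p).im - (π + π / 2), ⟨by fun_prop, fun z => by linarith [(b0 z).2],
      fun z => by linarith [hc z]⟩, Or.inl fun p hp => ?_⟩
    have e : (Θ p).im = π / 2 + π := by linarith
    refine (hs p (by rw [e1, e, Real.cos_add_pi]; simp)).resolve_right fun c => ?_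
    have := e2 p
    rw [φ1 c, e, Real.sin_add_pi, Real.sin_pi_div_two] at this
    simp only [Pi.one_apply] at this
    linarith [Real.exp_pos (Θ p).re]

theorem many_piece [PreconnectedSpace Z] [Nonempty Z] {Λ : Type*} {S : Λ → Set (I × Z)}
    (h1 : ∀ A, IsClosed (S A)) (hd : ∀ A B, A ≠ B → Disjoint (S A) (S B))
    (hm : ∀ A, ∃ z, ∀ t, (t, z) ∉ S A) (s : Finset Λ) :
    ∀ g : I × Z → ℝ, Sepf g → (∀ p, g p = 0 → p ∈ ⋃ A ∈ s, S A) → False := by
  classical
  induction s using Finset.induction_on with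
  | empty =>
    intro g hg hs
    obtain ⟨t, ht⟩ := hg.zero (Classical.arbitrary Z)
    simpa using hs _ ht
  | insert A s hA ih =>
    intro g hg hs
    obtain ⟨g', a, b | b⟩ := two_piece hg (h1 A) (isClosed_biUnion_finset fun B _ => h1 B)
      (disjoint_iUnion₂_right.2 fun B hB => hd A B fun e => hA (e ▸ hB))
      (fun p hp => by simpa using hs p hp)
    · obtain ⟨z, hz⟩ := hm A
      obtain ⟨t, ht⟩ := a.zero z
      exact hz t (b _ ht)
    · exact ih g' a b

theorem label_closed {M Λ : Type*} [MetricSpace M] {E W : Set M} (hE : IsClosed E) (hW : E ⊆ W)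
    {δ : ℝ} (hδ : 0 < δ) {ℓ : M → Λ} (l1 : ∀ x ∈ W, ∀ y ∈ W, dist x y ≤ δ → ℓ x = ℓ y) (A : Λ) :
    IsClosed (E ∩ {c | ℓ c = A}) := by
  refine isClosed_of_closure_subset fun c hc => ?_
  have h1 : c ∈ E := closure_minimal inter_subset_left hE hc
  obtain ⟨c', hc', hd⟩ := Metric.mem_closure_iff.1 hc δ hδ
  exact ⟨h1, (l1 c (hW h1) c' (hW hc'.1) hd.le).trans hc'.2⟩

/-- The component lemma. -/
theorem exists_full_component [CompactSpace Z] [ConnectedSpace Z] {g : I × Z → ℝ} (h : Sepf g) :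
    ∃ K : Set (I × Z), IsCompact K ∧ IsConnected K ∧ (∀ p ∈ K, g p = 0) ∧
      Prod.snd '' K = univ := by
  classical
  by_contra hcon
  have hE : IsClosed {p | g p = 0} := isClosed_eq h.1 continuous_const
  obtain ⟨δ, hδ, t, ℓ, l1, l2⟩ := exists_labels (F := fun z : Z => Prod.snd ⁻¹' {z}) hE.isCompact
    (fun z => isClosed_singleton.preimage continuous_snd) fun p hp => by
      by_contra hn
      push Not at hn
      refine hcon ⟨_, compact_component hE.isCompact hp, isConnected_connectedComponentIn_iff.2 hp,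
        fun q hq => connectedComponentIn_subset {p | g p = 0} p hq, eq_univ_of_forall fun z => ?_⟩
      obtain ⟨c, hc, e⟩ := not_disjoint_iff.1 (hn z)
      exact ⟨c, hc, e⟩
  have hsub := self_subset_thickening hδ {p | g p = 0}
  refine many_piece (S := fun A => {p | g p = 0} ∩ {c | ℓ c = A})
    (label_closed hE hsub hδ l1) (fun A B hAB => disjoint_left.2 fun p a b =>
      hAB (a.2.symm.trans b.2)) (fun A => ?_) Finset.univ g h
    fun p hp => mem_iUnion₂.2 ⟨ℓ p, Finset.mem_univ _, hp, rfl⟩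
  by_cases hA : ∃ p, g p = 0 ∧ ℓ p = A
  · obtain ⟨p, hp, rfl⟩ := hA
    obtain ⟨z, hz⟩ := l2 p (hsub hp)
    exact ⟨z, fun t ht => hz _ (hsub ht.1) ht.2 rfl⟩
  · exact ⟨Classical.arbitrary Z, fun t ht => hA ⟨_, ht⟩⟩

end Pool.Agent.Work.MP_8493f1_gt
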