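import Pool.Agent.Work.MP_8493f1_gt.Red

/-! Limits of continua along ultrafilters, boundary bumping, minimal subcontinua. -/

set_option autoImplicit false

namespace Pool.Agent.Work.MP_8493f1_gt

open Set Metric Filter Topology

theorem exists_ultra {ι : Type*} [Nonempty ι] (r : ι → ι → Prop) (ht : ∀ i j, r i j ∨ r j i)
    (htr : ∀ i j k, r i j → r j k → r i k) : ∃ U : Ultrafilter ι, ∀ i, ∀ᶠ j in U, r i j := by
  have : (⨅ i, 𝓟 {j | r i j}).NeBot := by
    refine iInf_neBot_of_directed (fun i j => ?_) fun i => ?_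
    · rcases ht i j with h | h
      · exact ⟨j, principal_mono.2 fun k hk => htr _ _ _ h hk, le_rfl⟩
      · exact ⟨i, le_rfl, principal_mono.2 fun k hk => htr _ _ _ h hk⟩
    · exact principal_neBot_iff.2 ⟨i, (ht i i).elim id id⟩
  refine ⟨Ultrafilter.of (⨅ i, 𝓟 {j | r i j}), fun i => ?_⟩
  exact (Ultrafilter.of_le _).trans (iInf_le _ i) (mem_principal_self _)

variable {M ι : Type*} [MetricSpace M]

/-- The limit of a family of sets along an ultrafilter. -/
def ULim (U : Ultrafilter ι) (K : ι → Set M) : Set M :=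
  {x | ∃ y : ι → M, (∀ i, y i ∈ K i) ∧ Tendsto y U (𝓝 x)}

variable {U : Ultrafilter ι} {K : ι → Set M} {Z : Set M}

theorem ulim_exists (hZ : IsCompact Z) (hK : ∀ i, K i ⊆ Z) {y : ι → M} (hy : ∀ i, y i ∈ K i) :
    ∃ x ∈ ULim U K, Tendsto y U (𝓝 x) := by
  obtain ⟨x, -, hx⟩ := hZ.ultrafilter_le_nhds (U.map y)
    (le_principal_iff.2 (mem_map.2 (Eventually.of_forall fun i => hK i (hy i))))
  exact ⟨x, ⟨y, hy, hx⟩, hx⟩

theorem ulim_subset {F : Set M} (hF : IsClosed F) (h : ∀ᶠ i in U, K i ⊆ F) : ULim U K ⊆ F := by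
  rintro x ⟨y, hy, hx⟩
  exact hF.mem_of_tendsto hx (h.mono fun i hi => hi (hy i))

theorem ulim_closed (hK : ∀ i, IsCompact (K i)) (hne : ∀ i, (K i).Nonempty) :
    IsClosed (ULim U K) := by
  refine isClosed_of_closure_subset fun x hx => ?_
  choose y hy hy' using fun i => (hK i).exists_infDist_eq_dist (hne i) x
  refine ⟨y, hy, Metric.tendsto_nhds.2 fun ε hε => ?_⟩
  obtain ⟨x', ⟨y', h1, h2⟩, hd⟩ := Metric.mem_closure_iff.1 hx (ε / 2) (by positivity)
  filter_upwards [Metric.tendsto_nhds.1 h2 (ε / 2) (by positivity)] with i hi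
  have := infDist_le_dist_of_mem (x := x) (h1 i)
  rw [dist_comm, ← hy' i]
  linarith [dist_triangle_right x (y' i) x']

theorem ulim_escape (hZ : IsCompact Z) (hK : ∀ i, K i ⊆ Z) (hne : ∀ i, (K i).Nonempty)
    {W : Set M} (hW : IsOpen W) (h : ULim U K ⊆ W) : ∀ᶠ i in U, K i ⊆ W := by
  classical
  by_contra hn
  rw [← Ultrafilter.eventually_not] at hn
  have : ∀ i, ∃ y ∈ K i, ¬K i ⊆ W → y ∉ W := fun i => by
    by_cases hi : K i ⊆ W
    · obtain ⟨y, hy⟩ := hne i
      exact ⟨y, hy, fun h => absurd hi h⟩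
    · obtain ⟨y, hy, hy'⟩ := not_subset.1 hi
      exact ⟨y, hy, fun _ => hy'⟩
  choose y hy hy' using this
  obtain ⟨x, hx, hx'⟩ := ulim_exists (U := U) hZ hK hy
  exact hW.isClosed_compl.mem_of_tendsto hx' (hn.mono fun i hi => hy' i hi) (h hx)

theorem ulim_compact (hZ : IsCompact Z) (hK : ∀ i, K i ⊆ Z) (hc : ∀ i, IsCompact (K i))
    (hne : ∀ i, (K i).Nonempty) : IsCompact (ULim U K) :=
  hZ.of_isClosed_subset (ulim_closed hc hne)
    (ulim_subset hZ.isClosed (Eventually.of_forall hK))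

theorem ulim_conn (hZ : IsCompact Z) (hK : ∀ i, K i ⊆ Z) (hc : ∀ i, IsCompact (K i))
    (hco : ∀ i, IsConnected (K i)) : IsConnected (ULim U K) := by
  have hne := fun i => (hco i).nonempty
  constructor
  · choose y hy using hne
    obtain ⟨x, hx, -⟩ := ulim_exists (U := U) hZ hK hy
    exact ⟨x, hx⟩
  rw [isPreconnected_iff_subset_of_fully_disjoint_closed (ulim_closed hc hne)]
  intro u v hu hv hs huv
  obtain ⟨A, B, hA, hB, h1, h2, h3⟩ := normal_separation hu hv huv
  have h4 := ulim_escape hZ hK hne (hA.union hB) (hs.trans (union_subset_union h1 h2))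
  have h5 : ∀ᶠ i in U, K i ⊆ A ∨ K i ⊆ B :=
    h4.mono fun i hi => (hco i).isPreconnected.subset_or_subset hA hB h3 hi
  rcases Ultrafilter.eventually_or.1 h5 with h | h
  · have := ulim_subset hB.isClosed_compl (h.mono fun i hi => hi.trans h3.subset_compl_right)
    exact Or.inl fun x hx => (hs hx).resolve_right fun a => this hx (h2 a)
  · have := ulim_subset hA.isClosed_compl (h.mono fun i hi => hi.trans h3.subset_compl_left)
    exact Or.inr fun x hx => (hs hx).resolve_left fun a => this hx (h1 a)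

theorem ulim_image {N : Type*} [MetricSpace N] (hZ : IsCompact Z) (hK : ∀ i, K i ⊆ Z)
    {K' : ι → Set M} {f g : M → N} (hf : Continuous f) (hg : Continuous g)
    (h : ∀ i, g '' K' i ⊆ f '' K i) : g '' ULim U K' ⊆ f '' ULim U K := by
  rintro _ ⟨x, ⟨y, hy, hx⟩, rfl⟩
  choose z hz hz' using fun i => h i ⟨y i, hy i, rfl⟩
  obtain ⟨w, hw, hw'⟩ := ulim_exists (U := U) hZ hK hz
  refine ⟨w, hw, tendsto_nhds_unique ((hf.tendsto w).comp hw') ?_⟩
  have : f ∘ z = g ∘ y := funext hz'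
  rw [this]
  exact (hg.tendsto x).comp hx

theorem mem_image_ulim {N : Type*} [MetricSpace N] (hZ : IsCompact Z) (hK : ∀ i, K i ⊆ Z)
    (hne : ∀ i, (K i).Nonempty) {f : M → N} (hf : Continuous f) {x : N}
    (h : ∀ᶠ i in U, x ∈ f '' K i) : x ∈ f '' ULim U K := by
  have : ∀ i, ∃ y ∈ K i, x ∈ f '' K i → f y = x := fun i => by
    by_cases hi : x ∈ f '' K i
    · obtain ⟨y, hy, e⟩ := hi
      exact ⟨y, hy, fun _ => e⟩
    · obtain ⟨y, hy⟩ := hne i
      exact ⟨y, hy, fun h => absurd h hi⟩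
  choose y hy hy' using this
  obtain ⟨w, hw, hw'⟩ := ulim_exists (U := U) hZ hK hy
  refine ⟨w, hw, tendsto_nhds_unique ((hf.tendsto w).comp hw') ?_⟩
  exact tendsto_const_nhds.congr' (h.mono fun i hi => (hy' i hi).symm)

theorem gap_subset {B A : Set M} (hB : IsPreconnected B) {x : M} (hx : x ∈ B) (hA : x ∈ A)
    {δ : ℝ} (hδ : 0 < δ) (key : ∀ a ∈ A, ∀ b ∈ B, b ∉ A → δ ≤ dist a b) : B ⊆ A := by
  have hδ' : 0 < δ / 2 := by positivity
  have hd : Disjoint (thickening (δ / 2) A) (thickening (δ / 2) (B \ A)) := by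
    rw [disjoint_left]
    intro z h1 h2
    obtain ⟨a, ha, d1⟩ := mem_thickening_iff.1 h1
    obtain ⟨b, hb, d2⟩ := mem_thickening_iff.1 h2
    linarith [key a ha b hb.1 hb.2, dist_triangle_left a b z]
  rcases hB.subset_or_subset isOpen_thickening isOpen_thickening hd (fun z hz => by
    by_cases h : z ∈ A
    · exact Or.inl (self_subset_thickening hδ' _ h)
    · exact Or.inr (self_subset_thickening hδ' _ ⟨hz, h⟩)) with h | h
  · exact fun z hz => by_contra fun hn =>
      disjoint_left.1 hd (h hz) (self_subset_thickening hδ' _ ⟨hz, hn⟩)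
  · exact absurd (h hx) (disjoint_left.1 hd (self_subset_thickening hδ' _ hA))

/-- Boundary bumping, avoiding a closed set. -/
theorem bump_avoid {B K F : Set M} (hB : IsCompact B) (hB' : IsPreconnected B) (hK : IsCompact K)
    (hK' : IsConnected K) (h : K ⊆ B) (hF : IsClosed F) (hKF : Disjoint K F) {y : M} (hy : y ∈ B)
    (hyF : y ∈ F) : ∃ L, IsCompact L ∧ IsConnected L ∧ K ⊆ L ∧ L ⊆ B ∧ L ≠ K ∧ Disjoint L F := by
  obtain ⟨r, hr, hs⟩ := sep_pos hK hF hKF
  have hs1 : ∀ z ∈ K, r ≤ infDist z F := fun z hz => (le_infDist ⟨y, hyF⟩).2 fun b hb => hs z hz b hb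
  obtain ⟨x, hx⟩ := hK'.nonempty
  have hd : Continuous fun z => infDist z F := continuous_infDist_pt F
  obtain ⟨R, hR⟩ : ∃ R, R = B ∩ {z | r / 2 ≤ infDist z F} := ⟨_, rfl⟩
  have hRc : IsCompact R := hR ▸ hB.inter_right (isClosed_le continuous_const hd)
  have hKR : K ⊆ R := fun z hz => hR ▸ ⟨h hz, by
    have := hs1 z hz
    simp only [mem_ofPred_eq]
    linarith⟩
  have hsub : K ⊆ connectedComponentIn R x :=
    hK'.isPreconnected.subset_connectedComponentIn hx hKR
  have hRB : connectedComponentIn R x ⊆ B :=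
    (connectedComponentIn_subset R x).trans (hR ▸ inter_subset_left)
  refine ⟨connectedComponentIn R x, compact_component hRc (hKR hx),
    isConnected_connectedComponentIn_iff.2 (hKR hx), hsub, hRB, fun e => ?_,
    disjoint_left.2 fun z hz hzF => ?_⟩
  · obtain ⟨A, hA, δ, hδ, hs'⟩ := exists_piece hRc (F := {z | infDist z F ≤ r / 2})
      (isClosed_le hd continuous_const) (hKR hx) (by
        rw [e, disjoint_left]
        intro z hz (hz' : infDist z F ≤ r / 2)
        linarith [hs1 z hz])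
    have key : ∀ a ∈ A, ∀ b ∈ B, b ∉ A → δ ≤ dist a b := fun a ha b hb hb' => hs' a ha b (by
      rcases le_total (r / 2) (infDist b F) with h1 | h1
      · exact Or.inl ⟨hR ▸ ⟨hb, h1⟩, hb'⟩
      · exact Or.inr h1)
    have hyA : y ∉ A := fun hyA => by
      have := hs' y hyA y (Or.inr (by
        simp only [mem_ofPred_eq, infDist_zero_of_mem hyF]; positivity))
      rw [dist_self] at this
      linarith
    exact hyA (gap_subset hB' (h hx) hA hδ key hy)
  · have : z ∈ R := connectedComponentIn_subset R x hz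
    rw [hR] at this
    have := this.2
    simp only [mem_ofPred_eq, infDist_zero_of_mem hzF] at this
    linarith

/-- Boundary bumping. -/
theorem bump {B K : Set M} (hB : IsCompact B) (hB' : IsPreconnected B) (hK : IsCompact K)
    (hK' : IsConnected K) (h : K ⊆ B) (hne : K ≠ B) :
    ∃ L, IsCompact L ∧ IsConnected L ∧ K ⊆ L ∧ L ⊆ B ∧ L ≠ K ∧ L ≠ B := by
  obtain ⟨y, hy, hyK⟩ : ∃ y ∈ B, y ∉ K := by
    by_contra hn
    push Not at hn
    exact hne (subset_antisymm h hn)
  obtain ⟨L, l1, l2, l3, l4, l5, l6⟩ := bump_avoid hB hB' hK hK' h isClosed_singleton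
    (disjoint_singleton_right.2 hyK) hy rfl
  exact ⟨L, l1, l2, l3, l4, l5, fun e => disjoint_singleton_right.1 l6 (e.symm ▸ hy)⟩

theorem exists_min_onto {N : Type*} [MetricSpace N] {A : Set M} (hA : IsCompact A)
    (hA' : IsConnected A) {f : M → N} (hf : Continuous f) :
    ∃ D ⊆ A, IsCompact D ∧ IsConnected D ∧ f '' D = f '' A ∧
      ∀ E ⊆ D, IsCompact E → IsConnected E → f '' E = f '' A → E = D := by
  obtain ⟨D, h1, h2⟩ := zorn_superset_nonempty
    {D | D ⊆ A ∧ IsCompact D ∧ IsConnected D ∧ f '' D = f '' A} (fun c hcS hc hne => by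
      have : Nonempty c := hne.to_subtype
      obtain ⟨U, hU⟩ := exists_ultra (fun i j : c => (j : Set M) ⊆ i)
        (fun i j => (hc.total j.2 i.2)) fun i j k a b => b.trans a
      have a1 : ∀ i : c, (i : Set M) ⊆ A := fun i => (hcS i.2).1
      have a2 : ∀ i : c, IsCompact (i : Set M) := fun i => (hcS i.2).2.1
      have a3 : ∀ i : c, IsConnected (i : Set M) := fun i => (hcS i.2).2.2.1
      have a4 := ulim_subset (U := U) hA.isClosed (Eventually.of_forall a1)
      refine ⟨ULim U fun i : c => (i : Set M), ⟨a4, ulim_compact hA a1 a2 fun i => (a3 i).nonempty,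
        ulim_conn hA a1 a2 a3, subset_antisymm (image_mono a4) fun x hx => ?_⟩,
        fun s hs => ulim_subset (a2 ⟨s, hs⟩).isClosed (hU ⟨s, hs⟩)⟩
      exact mem_image_ulim hA a1 (fun i => (a3 i).nonempty) hf
        (Eventually.of_forall fun i => (hcS i.2).2.2.2.symm ▸ hx))
    A ⟨subset_rfl, hA, hA', rfl⟩
  exact ⟨D, h1, h2.1.2.1, h2.1.2.2.1, h2.1.2.2.2, fun E e1 e2 e3 e4 =>
    subset_antisymm e1 (h2.2 ⟨e1.trans h1, e2, e3, e4⟩ e1)⟩

end Pool.Agent.Work.MP_8493f1_gt
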