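import Pool.Agent.Work.MP_8493f1_gt.Sym

set_option autoImplicit false

namespace Pool.Agent.Work.MP_8493f1_gt.OldHalfSym

/-- The surjective span of a continuum is at least half its symmetric span. -/
theorem result :
    ∀ (X : Type) [MetricSpace X] [CompactSpace X] [ConnectedSpace X] (a : ℝ) (C : Set (X × X)),
      IsConnected C → (∀ p ∈ C, p.swap ∈ C) → (∀ p ∈ C, a ≤ dist p.1 p.2) →
      ∃ D : Set (X × X), IsConnected D ∧ Prod.fst '' D = Set.univ ∧ Prod.snd '' D = Set.univ ∧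
        ∀ p ∈ D, a / 2 ≤ dist p.1 p.2 := by
  intro X _ _ _ a C hC hs ha
  obtain ⟨⟨x, y⟩, hp⟩ := hC.nonempty
  exact Pool.Agent.Work.MP_8493f1_gt.surj_of_flip hC.isPreconnected hp (hs _ hp) ha

end Pool.Agent.Work.MP_8493f1_gt.OldHalfSym
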