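import Pool.Agent.Work.MP_8493f1_gt.Red

set_option autoImplicit false

namespace Pool.Agent.Work.MP_8493f1_gt.OldIndec

/-- In a continuum with surjective span zero, every witness for positive semispan can be
replaced by a surjective witness on a nowhere dense indecomposable subcontinuum. -/
theorem result :
    ∀ (X : Type) [MetricSpace X] [CompactSpace X] [ConnectedSpace X],
      (∀ C : Set (X × X), IsConnected C →
          Prod.fst '' C = Set.univ → Prod.snd '' C = Set.univ →
          ∀ ε : ℝ, 0 < ε → ∃ p ∈ C, dist p.1 p.2 < ε) →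
      ∀ (ε : ℝ) (C : Set (X × X)), 0 < ε → IsConnected C → Prod.snd '' C ⊆ Prod.fst '' C →
        (∀ p ∈ C, ε ≤ dist p.1 p.2) →
        ∃ Y : Set X, IsCompact Y ∧ IsConnected Y ∧ interior Y = ∅ ∧
          (∀ A B : Set X, IsCompact A → IsConnected A → IsCompact B → IsConnected B →
            A ∪ B = Y → A = Y ∨ B = Y) ∧
          ∃ D : Set (X × X), IsConnected D ∧ Prod.fst '' D = Y ∧ Prod.snd '' D = Y ∧
            ∀ p ∈ D, ε ≤ dist p.1 p.2 := by
  intro X _ _ _ h0 ε C hε hC hn hf
  obtain ⟨D, d1, d2, d3, d4, d5, d6⟩ := Pool.Agent.Work.MP_8493f1_gt.reduction h0 hC hn hε hf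
  exact ⟨_, d1.image continuous_fst, d2.image _ continuous_fst.continuousOn, d5, d6,
    D, d2, rfl, d4, d3⟩

end Pool.Agent.Work.MP_8493f1_gt.OldIndec
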