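import Pool.Agent.Work.MP_8493f1_gt.Confl

/-! Reduction to nowhere dense indecomposable subcontinua. -/

set_option autoImplicit false

namespace Pool.Agent.Work.MP_8493f1_gt

open Set Metric Filter Topology

theorem chain_escape {M : Type*} [MetricSpace M] [CompactSpace M] {c : Set (Set M)}
    (hc : IsChain (· ⊆ ·) c) (hne : c.Nonempty) (hcl : ∀ s ∈ c, IsClosed s) {F : Set M}
    (hF : IsClosed F) (h : ∀ x ∈ ⋂₀ c, x ∉ F) : ∃ s ∈ c, ∀ x ∈ s, x ∉ F := by
  have : Nonempty c := hne.to_subtype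
  obtain ⟨s, hs⟩ := hF.isCompact.elim_directed_family_closed (fun s : c => (s : Set M))
    (fun s => hcl s s.2) (by
      rw [← sInter_eq_iInter, eq_empty_iff_forall_notMem]
      exact fun x hx => h x hx.2 hx.1)
    (fun a b => (hc.total a.2 b.2).elim (fun h => ⟨a, subset_rfl, h⟩) fun h => ⟨b, h, subset_rfl⟩)
  exact ⟨s, s.2, fun x hx hxF => eq_empty_iff_forall_notMem.1 hs x ⟨hxF, hx⟩⟩

theorem chain_conn {M : Type*} [MetricSpace M] [CompactSpace M] {c : Set (Set M)}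
    (hc : IsChain (· ⊆ ·) c) (hne : c.Nonempty) (hcl : ∀ s ∈ c, IsClosed s)
    (hco : ∀ s ∈ c, IsConnected s) : IsConnected (⋂₀ c) := by
  constructor
  · by_contra hn
    obtain ⟨s, hs, h⟩ := chain_escape hc hne hcl isClosed_univ fun x hx _ => hn ⟨x, hx⟩
    obtain ⟨x, hx⟩ := (hco s hs).nonempty
    exact h x hx (mem_univ x)
  rw [isPreconnected_iff_subset_of_fully_disjoint_closed (isClosed_sInter hcl)]
  intro u v hu hv hs huv
  obtain ⟨U, V, hU, hV, h1, h2, h3⟩ := normal_separation hu hv huv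
  obtain ⟨s, hsc, h⟩ := chain_escape hc hne hcl (hU.union hV).isClosed_compl
    fun x hx hx' => hx' ((hs hx).imp (fun a => h1 a) fun a => h2 a)
  rcases (hco s hsc).isPreconnected.subset_or_subset hU hV h3
    (fun x hx => not_not.1 (h x hx)) with h4 | h4
  · exact Or.inl fun x hx => (hs hx).resolve_right
      fun a => disjoint_left.1 h3 (h4 (hx s hsc)) (h2 a)
  · exact Or.inr fun x hx => (hs hx).resolve_left
      fun a => disjoint_left.1 h3 (h1 a) (h4 (hx s hsc))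

variable {X : Type*} [MetricSpace X]

/-- A continuum of pairs whose projections are nested. -/
def Nested (C : Set (X × X)) : Prop :=
  IsCompact C ∧ IsConnected C ∧ (Prod.snd '' C ⊆ Prod.fst '' C ∨ Prod.fst '' C ⊆ Prod.snd '' C)

theorem exists_minimal [CompactSpace X] {C : Set (X × X)} (hC : Nested C) :
    ∃ D ⊆ C, Minimal Nested D := by
  refine zorn_superset_nonempty {D | Nested D} (fun c hcS hc hne => ?_) C hC
  have hcl : ∀ s ∈ c, IsClosed s := fun s hs => (hcS hs).1.isClosed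
  refine ⟨⋂₀ c, ⟨(isClosed_sInter hcl).isCompact, chain_conn hc hne hcl fun s hs => (hcS hs).2.1,
    ?_⟩, fun s hs => sInter_subset_of_mem hs⟩
  by_contra hn
  rw [not_or, not_subset, not_subset] at hn
  obtain ⟨⟨_, ⟨p, hp, rfl⟩, hp'⟩, _, ⟨q, hq, rfl⟩, hq'⟩ := hn
  obtain ⟨s1, hs1, a1⟩ := chain_escape hc hne hcl (F := {z | z.1 = p.2})
    (isClosed_eq continuous_fst continuous_const) fun z hz e => hp' ⟨z, hz, e⟩
  obtain ⟨s2, hs2, a2⟩ := chain_escape hc hne hcl (F := {z | z.2 = q.1})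
    (isClosed_eq continuous_snd continuous_const) fun z hz e => hq' ⟨z, hz, e⟩
  have key : ∀ s ∈ c, s ⊆ s1 → s ⊆ s2 → False := fun s hs b1 b2 => by
    rcases (hcS hs).2.2 with h | h
    · obtain ⟨z, hz, e⟩ := h ⟨p, hp s hs, rfl⟩
      exact a1 z (b1 hz) e
    · obtain ⟨z, hz, e⟩ := h ⟨q, hq s hs, rfl⟩
      exact a2 z (b2 hz) e
  rcases hc.total hs1 hs2 with h | h
  · exact key s1 hs1 subset_rfl h
  · exact key s2 hs2 h subset_rfl

theorem escape_fst (hN : NoFlip X) {C : Set (X × X)} (hC : Minimal Nested C) {K : Set X}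
    (hK : IsCompact K) (hK' : IsConnected K) (h1 : K ⊆ Prod.fst '' C) (h2 : K ≠ Prod.fst '' C) :
    ∃ p ∈ C, p.1 ∈ K ∧ p.2 ∉ K := by
  obtain ⟨D, d1, d2, d3, d4⟩ :=
    weak_confluent hN hC.1.1 hC.1.2.1.isPreconnected continuous_fst hK hK' h1
  by_contra hn
  push Not at hn
  have : Nested D := ⟨d2, d3, Or.inl (by
    rintro _ ⟨p, hp, rfl⟩
    exact d4.symm ▸ hn p (d1 hp) (d4 ▸ ⟨p, hp, rfl⟩))⟩
  exact h2 (by rw [← d4, subset_antisymm d1 (hC.2 this d1)])

theorem escape_snd (hN : NoFlip X) {C : Set (X × X)} (hC : Minimal Nested C) {K : Set X}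
    (hK : IsCompact K) (hK' : IsConnected K) (h1 : K ⊆ Prod.snd '' C) (h2 : K ≠ Prod.snd '' C) :
    ∃ p ∈ C, p.2 ∈ K ∧ p.1 ∉ K := by
  obtain ⟨D, d1, d2, d3, d4⟩ :=
    weak_confluent hN hC.1.1 hC.1.2.1.isPreconnected continuous_snd hK hK' h1
  by_contra hn
  push Not at hn
  have : Nested D := ⟨d2, d3, Or.inr (by
    rintro _ ⟨p, hp, rfl⟩
    exact d4.symm ▸ hn p (d1 hp) (d4 ▸ ⟨p, hp, rfl⟩))⟩
  exact h2 (by rw [← d4, subset_antisymm d1 (hC.2 this d1)])

theorem minimal_eq (hN : NoFlip X) {C : Set (X × X)} (hC : Minimal Nested C) :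
    Prod.snd '' C = Prod.fst '' C := by
  by_contra hne
  rcases hC.1.2.2 with h | h
  · obtain ⟨p, hp, -, e⟩ := escape_fst hN hC (hC.1.1.image continuous_snd)
      (hC.1.2.1.image _ continuous_snd.continuousOn) h hne
    exact e ⟨p, hp, rfl⟩
  · obtain ⟨p, hp, -, e⟩ := escape_snd hN hC (hC.1.1.image continuous_fst)
      (hC.1.2.1.image _ continuous_fst.continuousOn) h (Ne.symm hne)
    exact e ⟨p, hp, rfl⟩

theorem minimal_indec (hN : NoFlip X) {C : Set (X × X)} (hC : Minimal Nested C)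
    (hd : ∀ p ∈ C, p.1 ≠ p.2) {A B : Set X} (hA : IsCompact A) (hA' : IsConnected A)
    (hB : IsCompact B) (hB' : IsConnected B) (h : A ∪ B = Prod.fst '' C) :
    A = Prod.fst '' C ∨ B = Prod.fst '' C := by
  by_contra hn
  rw [not_or] at hn
  obtain ⟨p, hp, p1, p2⟩ := escape_fst hN hC hA hA' (h ▸ subset_union_left) hn.1
  obtain ⟨q, hq, q1, q2⟩ := escape_fst hN hC hB hB' (h ▸ subset_union_right) hn.2
  have e := minimal_eq hN hC
  have p3 : p.2 ∈ A ∪ B := by rw [h, ← e]; exact ⟨p, hp, rfl⟩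
  have q3 : q.2 ∈ A ∪ B := by rw [h, ← e]; exact ⟨q, hq, rfl⟩
  refine hN (C ∪ A ×ˢ {p.2} ∪ B ×ˢ {q.2})
    ((hC.1.1.union (hA.prod isCompact_singleton)).union (hB.prod isCompact_singleton)) ?_ ?_
    q.2 p.2 (Or.inl (Or.inr ⟨q3.resolve_right q2, rfl⟩)) (Or.inr ⟨p3.resolve_left p2, rfl⟩)
  · exact IsPreconnected.union q (Or.inl hq) ⟨q1, rfl⟩
      (IsPreconnected.union p hp ⟨p1, rfl⟩ hC.1.2.1.isPreconnected
        (hA'.isPreconnected.prod isPreconnected_singleton))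
      (hB'.isPreconnected.prod isPreconnected_singleton)
  · rintro ⟨c, b⟩ ((hb | hb) | hb) (rfl : c = b)
    · exact hd _ hb rfl
    · exact p2 ((show c = p.2 from hb.2) ▸ hb.1)
    · exact q2 ((show c = q.2 from hb.2) ▸ hb.1)

theorem component_meets [ConnectedSpace X] {R Y : Set X} (hR : IsCompact R) (hY : IsClosed Y)
    (hne : Y.Nonempty) (h : R ∪ Y = univ) {x : X} (hx : x ∈ R) :
    (connectedComponentIn R x ∩ Y).Nonempty := by
  by_contra hn
  obtain ⟨A, hA, δ, hδ, hs⟩ := exists_piece hR hY hx (disjoint_iff_inter_eq_empty.2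
    (not_nonempty_iff_eq_empty.1 hn))
  have key : ∀ a ∈ A, ∀ b ∉ A, δ ≤ dist a b := fun a ha b hb => hs a ha b (by
    have : b ∈ R ∪ Y := h ▸ mem_univ b
    exact this.imp_left fun h' => ⟨h', hb⟩)
  have hc : IsClopen A := by
    constructor
    · rw [← isOpen_compl_iff, Metric.isOpen_iff]
      exact fun b hb => ⟨δ, hδ, fun a ha h' => absurd (key a h' b hb) (not_le.2 ha)⟩
    · rw [Metric.isOpen_iff]
      exact fun a ha => ⟨δ, hδ, fun b hb => by_contra fun h' =>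
        absurd (key a ha b h') (not_le.2 (mem_ball'.1 hb))⟩
  obtain ⟨y, hy⟩ := hne
  have := hs y (hc.eq_univ ⟨x, hA⟩ ▸ mem_univ y) y (Or.inr hy)
  rw [dist_self] at this
  linarith

theorem two_sides [CompactSpace X] [ConnectedSpace X] (hN : NoFlip X) {Y : Set X}
    (hY : IsCompact Y) (hY' : IsConnected Y) {x1 y : X} (hx : x1 ∉ Y) (hy : y ∈ interior Y) :
    ∃ R1 R2 : Set X, Y ∪ R1 ∪ R2 = univ ∧ ∀ R, R = R1 ∨ R = R2 →
      IsCompact R ∧ IsConnected R ∧ (R ∩ Y).Nonempty ∧ y ∉ R := by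
  have hR : IsCompact (interior Y)ᶜ := isOpen_interior.isClosed_compl.isCompact
  have hmem : ∀ x ∉ Y, x ∈ (interior Y)ᶜ := fun x hx h => hx (interior_subset h)
  have hgood : ∀ x ∉ Y, IsCompact (connectedComponentIn (interior Y)ᶜ x) ∧
      IsConnected (connectedComponentIn (interior Y)ᶜ x) ∧
      (connectedComponentIn (interior Y)ᶜ x ∩ Y).Nonempty ∧
      y ∉ connectedComponentIn (interior Y)ᶜ x := fun x hx =>
    ⟨compact_component hR (hmem x hx), isConnected_connectedComponentIn_iff.2 (hmem x hx),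
      component_meets hR hY.isClosed hY'.nonempty (eq_univ_of_forall fun z => by
        by_cases hz : z ∈ Y
        · exact Or.inr hz
        · exact Or.inl (hmem z hz)) (hmem x hx),
      fun h => connectedComponentIn_subset _ _ h hy⟩
  have hsymm : ∀ a ∉ Y, ∀ b, a ∉ connectedComponentIn (interior Y)ᶜ b →
      b ∉ connectedComponentIn (interior Y)ᶜ a := fun a ha b h h' =>
    h (connectedComponentIn_eq h' ▸ mem_connectedComponentIn (hmem a ha))
  by_cases h2 : ∃ x2 ∉ Y, x2 ∉ connectedComponentIn (interior Y)ᶜ x1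
  · obtain ⟨x2, a2, b2⟩ := h2
    refine ⟨connectedComponentIn (interior Y)ᶜ x1, connectedComponentIn (interior Y)ᶜ x2,
      eq_univ_of_forall fun x3 => by_contra fun h3 => ?_, ?_⟩
    · simp only [mem_union, not_or] at h3
      obtain ⟨⟨a3, b3⟩, c3⟩ := h3
      have g1 := hgood x1 hx
      have g2 := hgood x2 a2
      have g3 := hgood x3 a3
      refine no_triod hN ⟨hY, hY'.2⟩ ⟨g1.1, g1.2.1.2⟩ ⟨g2.1, g2.2.1.2⟩ ⟨g3.1, g3.2.1.2⟩
        g1.2.2.1 g2.2.2.1 g3.2.2.1 (mem_connectedComponentIn (hmem x1 hx))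
        (mem_connectedComponentIn (hmem x2 a2)) (mem_connectedComponentIn (hmem x3 a3)) ?_ ?_ ?_
      · rintro ((h | h) | h)
        exacts [hsymm x2 a2 x1 b2 h, hx h, hsymm x3 a3 x1 b3 h]
      · rintro ((h | h) | h)
        exacts [hsymm x3 a3 x2 c3 h, a2 h, b2 h]
      · rintro ((h | h) | h)
        exacts [b3 h, a3 h, c3 h]
    · rintro R (rfl | rfl)
      exacts [hgood x1 hx, hgood x2 a2]
  · push Not at h2
    refine ⟨connectedComponentIn (interior Y)ᶜ x1, connectedComponentIn (interior Y)ᶜ x1,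
      eq_univ_of_forall fun z => ?_, ?_⟩
    · by_cases hz : z ∈ Y
      · exact Or.inl (Or.inl hz)
      · exact Or.inr (h2 z hz)
    · rintro R (rfl | rfl) <;> exact hgood x1 hx

/-- A subcontinuum that meets the projection without containing it can be added to both
projections. -/
theorem add_side (hN : NoFlip X) {C : Set (X × X)} (hC : Minimal Nested C) {R : Set X}
    (hR : IsCompact R) (hR' : IsConnected R) (h1 : (R ∩ Prod.fst '' C).Nonempty) {y : X}
    (hy : y ∈ Prod.fst '' C) (hy' : y ∉ R) :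
    ∃ E : Set (X × X), IsCompact E ∧ (∀ p ∈ E, p.1 ≠ p.2) ∧ R ⊆ Prod.fst '' E ∧
      R ⊆ Prod.snd '' E ∧ ∀ D, C ⊆ D → IsPreconnected D → IsPreconnected (D ∪ E) := by
  have e := minimal_eq hN hC
  have hY := hC.1.1.image continuous_fst
  have hK := hR.inter_right hY.isClosed
  have hK' : IsConnected (R ∩ Prod.fst '' C) := ⟨h1, unicoherent hN hR hR'.2 hY
    (hC.1.2.1.image _ continuous_fst.continuousOn).2⟩
  have hne : R ∩ Prod.fst '' C ≠ Prod.fst '' C := fun h => hy' (h.symm ▸ hy : y ∈ R ∩ _).1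
  obtain ⟨p, hp, p1, p2⟩ := escape_fst hN hC hK hK' inter_subset_right hne
  obtain ⟨q, hq, q1, q2⟩ := escape_snd hN hC hK hK' (e.symm ▸ inter_subset_right) (e.symm ▸ hne)
  refine ⟨R ×ˢ {p.2} ∪ {q.1} ×ˢ R, (hR.prod isCompact_singleton).union
    (isCompact_singleton.prod hR), ?_, fun x hx => ⟨(x, p.2), Or.inl ⟨hx, rfl⟩, rfl⟩,
    fun x hx => ⟨(q.1, x), Or.inr ⟨rfl, hx⟩, rfl⟩, fun D hD hD' => ?_⟩
  · rintro ⟨c, b⟩ (hb | hb) (rfl : c = b)
    · exact p2 ⟨(show c = p.2 from hb.2) ▸ hb.1, e ▸ ⟨p, hp, rfl⟩⟩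
    · exact q2 ⟨(show c = q.1 from hb.1) ▸ hb.2, ⟨q, hq, rfl⟩⟩
  · rw [← union_assoc]
    exact IsPreconnected.union q (Or.inl (hD hq)) ⟨rfl, q1.1⟩
      (IsPreconnected.union p (hD hp) ⟨p1.1, rfl⟩ hD' (hR'.2.prod isPreconnected_singleton))
      (isPreconnected_singleton.prod hR'.2)

theorem noFlip_of [CompactSpace X] [ConnectedSpace X]
    (h0 : ∀ C : Set (X × X), IsConnected C → Prod.fst '' C = univ → Prod.snd '' C = univ →
      ∀ ε : ℝ, 0 < ε → ∃ p ∈ C, dist p.1 p.2 < ε) : NoFlip X := by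
  intro S hS hS' hd x y h1 h2
  obtain ⟨a, ha, hf⟩ := exists_far hS hd
  obtain ⟨D, d1, d2, d3, d4⟩ := surj_of_flip hS' h1 h2 hf
  obtain ⟨p, hp, hlt⟩ := h0 D d1 d2 d3 (a / 2) (by positivity)
  exact absurd (d4 p hp) (not_le.2 hlt)

theorem minimal_interior [CompactSpace X] [ConnectedSpace X]
    (h0 : ∀ C : Set (X × X), IsConnected C → Prod.fst '' C = univ → Prod.snd '' C = univ →
      ∀ ε : ℝ, 0 < ε → ∃ p ∈ C, dist p.1 p.2 < ε)
    {C : Set (X × X)} (hC : Minimal Nested C) (hd : ∀ p ∈ C, p.1 ≠ p.2) :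
    interior (Prod.fst '' C) = ∅ := by
  have hN := noFlip_of h0
  have e := minimal_eq hN hC
  have h1 : ∀ D : Set (X × X), IsCompact D → IsConnected D → (∀ p ∈ D, p.1 ≠ p.2) →
      Prod.fst '' D = univ → Prod.snd '' D = univ → False := fun D a1 a2 a3 a4 a5 => by
    obtain ⟨a, ha, hf⟩ := exists_far a1 a3
    obtain ⟨p, hp, hlt⟩ := h0 D a2 a4 a5 a ha
    exact absurd (hf p hp) (not_le.2 hlt)
  by_contra hn
  obtain ⟨y, hy⟩ := nonempty_iff_ne_empty.2 hn
  obtain ⟨x, hx⟩ : ∃ x, x ∉ Prod.fst '' C := by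
    by_contra hc
    push Not at hc
    exact h1 C hC.1.1 hC.1.2.1 hd (eq_univ_of_forall hc) (e.trans (eq_univ_of_forall hc))
  obtain ⟨R1, R2, hU, hR⟩ := two_sides hN (hC.1.1.image continuous_fst)
    (hC.1.2.1.image _ continuous_fst.continuousOn) hx hy
  obtain ⟨a1, a2, a3, a4⟩ := hR R1 (Or.inl rfl)
  obtain ⟨b1, b2, b3, b4⟩ := hR R2 (Or.inr rfl)
  obtain ⟨E1, c1, c2, c3, c4, c5⟩ := add_side hN hC a1 a2 a3 (interior_subset hy) a4
  obtain ⟨E2, d1, d2, d3, d4, d5⟩ := add_side hN hC b1 b2 b3 (interior_subset hy) b4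
  refine h1 (C ∪ E1 ∪ E2) ((hC.1.1.union c1).union d1)
    ⟨hC.1.2.1.nonempty.inl.inl, d5 _ subset_union_left (c5 _ subset_rfl hC.1.2.1.2)⟩ ?_ ?_ ?_
  · rintro p ((hp | hp) | hp)
    exacts [hd p hp, c2 p hp, d2 p hp]
  · rw [image_union, image_union, ← univ_subset_iff, ← hU]
    exact union_subset_union (union_subset_union subset_rfl c3) d3
  · rw [image_union, image_union, ← univ_subset_iff, ← hU, e]
    exact union_subset_union (union_subset_union subset_rfl c4) d4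

/-- If the surjective span vanishes and the semispan does not, some nowhere dense
indecomposable subcontinuum has positive surjective span. -/
theorem reduction [CompactSpace X] [ConnectedSpace X]
    (h0 : ∀ C : Set (X × X), IsConnected C → Prod.fst '' C = univ → Prod.snd '' C = univ →
      ∀ ε : ℝ, 0 < ε → ∃ p ∈ C, dist p.1 p.2 < ε)
    {C : Set (X × X)} (hC : IsConnected C) (hn : Prod.snd '' C ⊆ Prod.fst '' C) {ε : ℝ}
    (hε : 0 < ε) (hf : ∀ p ∈ C, ε ≤ dist p.1 p.2) :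
    ∃ D : Set (X × X), IsCompact D ∧ IsConnected D ∧ (∀ p ∈ D, ε ≤ dist p.1 p.2) ∧
      Prod.snd '' D = Prod.fst '' D ∧ interior (Prod.fst '' D) = ∅ ∧
      ∀ A B : Set X, IsCompact A → IsConnected A → IsCompact B → IsConnected B →
        A ∪ B = Prod.fst '' D → A = Prod.fst '' D ∨ B = Prod.fst '' D := by
  have hN := noFlip_of h0
  have hd : Continuous fun p : X × X => dist p.1 p.2 := by fun_prop
  have hcl : Nested (closure C) := ⟨isClosed_closure.isCompact, hC.closure, Or.inl <|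
    (image_closure_subset_closure_image continuous_snd).trans (closure_minimal
      (hn.trans (image_mono subset_closure))
      (isClosed_closure.isCompact.image continuous_fst).isClosed)⟩
  obtain ⟨D, hD, hm⟩ := exists_minimal hcl
  have h1 : ∀ p ∈ D, ε ≤ dist p.1 p.2 := fun p hp =>
    closure_minimal (t := {p : X × X | ε ≤ dist p.1 p.2}) hf (isClosed_le continuous_const hd)
      (hD hp)
  have h2 : ∀ p ∈ D, p.1 ≠ p.2 := fun p hp => dist_pos.1 (hε.trans_le (h1 p hp))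
  exact ⟨D, hm.1.1, hm.1.2.1, h1, minimal_eq hN hm, minimal_interior h0 hm h2,
    fun A B a1 a2 b1 b2 h => minimal_indec hN hm h2 a1 a2 b1 b2 h⟩

end Pool.Agent.Work.MP_8493f1_gt
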